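import Mathlib

/-!
# The discriminant is a square if all Galois automorphisms act as even permutations
-/

set_option autoImplicit false
set_option linter.unusedSectionVars false

namespace Pool.Agent.Helper10.DiscSquare

open Polynomial Finset

section split

variable {S : Type*} [Field S] {n : ℕ}

theorem sum_card_Ioi (n : ℕ) : ∑ i : Fin n, (Ioi i).card = n * (n - 1) / 2 := by
  have h1 : ∀ i : Fin n, (Ioi i).card = n - 1 - i := fun i => Fin.card_Ioi i
  simp_rw [h1]
  rw [Fin.sum_univ_eq_sum_range (fun i => n - 1 - i) n, Finset.sum_range_reflect (fun i => i) n,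
    Finset.sum_range_id]

theorem eval_derivative_prod (z : Fin n → S) (i : Fin n) :
    (derivative (∏ j, (X - C (z j)))).eval (z i) = ∏ j ∈ ({i} : Finset (Fin n))ᶜ, (z i - z j) := by
  rw [derivative_prod_finset, eval_finset_sum, Finset.sum_eq_single i]
  · rw [eval_mul, derivative_X_sub_C, eval_one, mul_one, eval_prod]
    simp only [eval_sub, eval_X, eval_C]
    congr 1
    ext j
    simp
  · intro b _ hb
    rw [eval_mul, eval_prod, Finset.prod_eq_zero (i := i)]
    · rw [zero_mul]
    · exact Finset.mem_erase.2 ⟨hb.symm, Finset.mem_univ i⟩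
    · simp
  · intro h
    exact absurd (Finset.mem_univ i) h

theorem discr_prod (hn : 0 < n) (z : Fin n → S) :
    discr (∏ j, (X - C (z j))) = (Matrix.vandermonde z).det ^ 2 := by
  set f : S[X] := ∏ j, (X - C (z j)) with hf
  have hmonic : f.Monic := monic_prod_of_monic _ _ fun j _ => monic_X_sub_C _
  have hdeg : f.natDegree = n := by
    rw [hf, natDegree_prod_of_monic _ _ fun j _ => monic_X_sub_C _]
    simp
  have hroots : f.roots = (Finset.univ : Finset (Fin n)).val.map z := by
    have h0 : f = (((Finset.univ : Finset (Fin n)).val.map z).map fun a => X - C a).prod := by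
      rw [Multiset.map_map]
      rfl
    rw [h0, roots_multiset_prod_X_sub_C]
  have hsplits : f.Splits := by
    rw [hf]
    exact Splits.prod fun j _ => Splits.X_sub_C _
  have hdpos : 0 < f.degree := by
    rw [← natDegree_pos_iff_degree_pos, hdeg]; exact hn
  have h1 := resultant_deriv hdpos
  have h2 := resultant_eq_prod_eval f (derivative f) (f.natDegree - 1)
    (natDegree_derivative_le f) hsplits
  rw [h2, hmonic.leadingCoeff, one_pow, one_mul, mul_one, hroots, Multiset.map_map] at h1
  have h3 : ((Finset.univ : Finset (Fin n)).val.map ((fun x => eval x (derivative f)) ∘ z)).prod =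
      ∏ i, ∏ j ∈ ({i} : Finset (Fin n))ᶜ, (z i - z j) := by
    change ∏ i, eval (z i) (derivative f) = _
    exact Finset.prod_congr rfl fun i _ => eval_derivative_prod z i
  rw [h3] at h1
  have h4 := prod_prod_Ioi_mul_eq_prod_prod_off_diag (fun j i : Fin n => z i - z j)
  rw [← h4] at h1
  have h5 : ∏ i : Fin n, ∏ j ∈ Ioi i, (z i - z j) * (z j - z i) =
      (-1) ^ (n * (n - 1) / 2) * (Matrix.vandermonde z).det ^ 2 := by
    rw [Matrix.det_vandermonde, ← sum_card_Ioi, ← Finset.prod_pow_eq_pow_sum, ← Finset.prod_pow,
      ← Finset.prod_mul_distrib]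
    refine Finset.prod_congr rfl fun i _ => ?_
    rw [← Finset.prod_const, ← Finset.prod_pow, ← Finset.prod_mul_distrib]
    refine Finset.prod_congr rfl fun j _ => ?_
    ring
  rw [h5, hdeg] at h1
  have h6 : ((-1 : S) ^ (n * (n - 1) / 2)) ≠ 0 := pow_ne_zero _ (by norm_num)
  exact (mul_left_cancel₀ h6 h1).symm

end split

section galois

variable {k S : Type*} [Field k] [Field S] [Algebra k S]

theorem algebraMap_discr (h : k[X]) (hpos : 0 < h.degree) (hm : h.Monic) :
    algebraMap k S (discr h) = discr (h.map (algebraMap k S)) := by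
  have h1 := congrArg (algebraMap k S) (resultant_deriv hpos)
  have hdeg : (h.map (algebraMap k S)).natDegree = h.natDegree :=
    natDegree_map_eq_of_injective (algebraMap k S).injective h
  have h2 := resultant_deriv (f := h.map (algebraMap k S)) (by
    rw [degree_map_eq_of_injective (algebraMap k S).injective]; exact hpos)
  rw [← resultant_map_map, ← derivative_map, ← hdeg, h2, (hm.map _).leadingCoeff,
    hm.leadingCoeff] at h1
  simp only [map_mul, map_pow, map_neg, map_one, mul_one] at h1
  have h6 : ((-1 : S) ^ ((h.map (algebraMap k S)).natDegree *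
    ((h.map (algebraMap k S)).natDegree - 1) / 2)) ≠ 0 := pow_ne_zero _ (by norm_num)
  exact (mul_left_cancel₀ h6 h1).symm

/-- If all Galois automorphisms act as even permutations on the roots of `h`, then the
discriminant of `h` is a square. -/
theorem isSquare_discr [FiniteDimensional k S] [IsGalois k S] (h : k[X]) (hm : h.Monic)
    (hpos : 0 < h.degree) {Z : Type*} [Fintype Z] [DecidableEq Z] (z : Z → S)
    [MulAction (S ≃ₐ[k] S) Z] (hz : ∀ (σ : S ≃ₐ[k] S) (i : Z), z (σ • i) = σ (z i))
    (hprod : h.map (algebraMap k S) = ∏ i : Z, (X - C (z i)))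
    (hsign : ∀ σ : S ≃ₐ[k] S, Equiv.Perm.sign (MulAction.toPerm σ : Equiv.Perm Z) = 1) :
    IsSquare (discr h) := by
  let e : Fin (Fintype.card Z) ≃ Z := (Fintype.equivFin Z).symm
  have hprod' : h.map (algebraMap k S) = ∏ i, (X - C (z (e i))) := by
    rw [hprod]
    exact (Equiv.prod_comp e (fun i => (X - C (z i) : S[X]))).symm
  have hcard : 0 < Fintype.card Z := by
    have h1 := congrArg natDegree hprod'
    rw [natDegree_prod_of_monic _ _ fun j _ => monic_X_sub_C _,
      natDegree_map_eq_of_injective (algebraMap k S).injective] at h1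
    simp only [natDegree_X_sub_C, sum_const, card_univ, Fintype.card_fin, smul_eq_mul,
      mul_one] at h1
    rw [← h1, natDegree_pos_iff_degree_pos]
    exact hpos
  have hV := discr_prod hcard (fun i => z (e i))
  rw [← hprod', ← algebraMap_discr h hpos hm] at hV
  set V : S := (Matrix.vandermonde (fun i => z (e i))).det with hVdef
  have hfixed : ∀ σ : S ≃ₐ[k] S, σ V = V := by
    intro σ
    let τ : Equiv.Perm (Fin (Fintype.card Z)) := e.symm.permCongr (MulAction.toPerm σ)
    have h1 : σ V = ((Matrix.vandermonde (fun i => z (e i))).submatrix τ id).det := by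
      rw [hVdef, AlgEquiv.map_det]
      congr 1
      ext i j
      simp only [Matrix.map_apply, AlgEquiv.mapMatrix_apply, Matrix.vandermonde_apply,
        Matrix.submatrix_apply, id, map_pow, ← hz]
      simp [τ, Equiv.permCongr_apply]
    have h2 : Equiv.Perm.sign τ = 1 := by
      rw [Equiv.Perm.sign_permCongr, hsign]
    rw [h1, Matrix.det_permute, h2, Units.val_one, Int.cast_one, one_mul]
  obtain ⟨v, hv⟩ := (IsGalois.mem_range_algebraMap_iff_fixed V).2 hfixed
  refine ⟨v, ?_⟩
  apply (algebraMap k S).injective
  rw [hV, map_mul, hv, sq]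

end galois

end Pool.Agent.Helper10.DiscSquare
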