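import Mathlib

/-!
# Saturated sublattices of signed permutation lattices

`G` is a finite group acting on a finite set `X` with a fixed point free involution `ι` that
commutes with the action.  We study subgroups `R` of the group of antisymmetric functions
`X → ℤ` which are `G`-stable and saturated.
-/

set_option autoImplicit false

namespace Pool.Agent.Helper10.SignedLattice

open Finset

/-- Translate of an integer valued function by a group element. -/
def tr {G X : Type*} [Group G] [MulAction G X] (g : G) (f : X → ℤ) : X → ℤ := fun x => f (g⁻¹ • x)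

/-- Antisymmetric, `G`-stable, saturated subgroups. -/
structure IsRel (G : Type*) {X : Type*} [Group G] [MulAction G X] (ι : X → X)
    (R : AddSubgroup (X → ℤ)) : Prop where
  anti : ∀ f ∈ R, ∀ x, f (ι x) = - f x
  stable : ∀ g : G, ∀ f ∈ R, tr g f ∈ R
  sat : ∀ n : ℤ, n ≠ 0 → ∀ f : X → ℤ, n • f ∈ R → f ∈ R

section basic

variable {G X : Type*} [Group G] [MulAction G X]

theorem tr_apply (g : G) (f : X → ℤ) (x : X) : tr g f x = f (g⁻¹ • x) := rfl

theorem tr_mul (g h : G) (f : X → ℤ) : tr (g * h) f = tr g (tr h f) := by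
  funext x
  simp only [tr_apply, mul_inv_rev, mul_smul]

theorem tr_one (f : X → ℤ) : tr (1 : G) f = f := by
  funext x; simp [tr_apply]

theorem tr_add (g : G) (f f' : X → ℤ) : tr g (f + f') = tr g f + tr g f' := rfl

theorem tr_sub (g : G) (f f' : X → ℤ) : tr g (f - f') = tr g f - tr g f' := rfl

theorem tr_neg (g : G) (f : X → ℤ) : tr g (-f) = - tr g f := rfl

theorem tr_smul (g : G) (n : ℤ) (f : X → ℤ) : tr g (n • f) = n • tr g f := rfl

theorem tr_zero (g : G) : tr g (0 : X → ℤ) = 0 := rfl

/-- A nonzero saturated subgroup contains a function that is not divisible by `r`. -/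
theorem exists_not_dvd [Finite X] {ι : X → X} {R : AddSubgroup (X → ℤ)} (h : IsRel G ι R)
    (hR : R ≠ ⊥) (r : ℕ) (hr : r.Prime) : ∃ y ∈ R, ∃ x, ¬ (r : ℤ) ∣ y x := by
  have := Fintype.ofFinite X
  by_contra hcon
  push Not at hcon
  obtain ⟨f, hf, hf0⟩ : ∃ f, f ∈ R ∧ f ≠ 0 := by
    obtain ⟨a, ha⟩ := AddSubgroup.ne_bot_iff_exists_ne_zero.1 hR
    exact ⟨a.1, a.2, fun h0 => ha (Subtype.ext h0)⟩
  -- descent on the sum of the absolute values
  have key : ∀ n : ℕ, ∀ f ∈ R, f ≠ 0 → ∑ x, (f x).natAbs ≤ n → False := by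
    intro n
    induction n with
    | zero =>
      intro f hf hf0 hn
      apply hf0
      funext x
      have := Finset.sum_eq_zero_iff.1 (Nat.le_zero.1 hn) x (Finset.mem_univ x)
      simpa using this
    | succ n ih =>
      intro f hf hf0 hn
      have hdvd := hcon f hf
      choose f' hf' using hdvd
      have hff' : f = (r : ℤ) • f' := by
        funext x
        simp [hf' x]
      have hf'R : f' ∈ R := h.sat r (by exact_mod_cast hr.ne_zero) f' (by rw [← hff']; exact hf)
      have hf'0 : f' ≠ 0 := by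
        rintro rfl
        apply hf0
        rw [hff', smul_zero]
      refine ih f' hf'R hf'0 ?_
      have hpos : 0 < ∑ x, (f' x).natAbs := by
        rw [Nat.pos_iff_ne_zero]
        intro h0
        apply hf'0
        funext x
        have := Finset.sum_eq_zero_iff.1 h0 x (Finset.mem_univ x)
        simpa using this
      have hsum : ∑ x, (f x).natAbs = r * ∑ x, (f' x).natAbs := by
        rw [Finset.mul_sum]
        refine Finset.sum_congr rfl fun x _ => ?_
        rw [hf' x, Int.natAbs_mul, Int.natAbs_natCast]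
      have h2 := hr.two_le
      nlinarith
  exact key _ f hf hf0 le_rfl

/-- A nonzero stable saturated subgroup contains, for every `r`-subgroup `P`, a function that is
`P`-invariant modulo `r` and nonzero modulo `r`. -/
theorem exists_fixed_mod [Finite X] {ι : X → X} {R : AddSubgroup (X → ℤ)} (h : IsRel G ι R)
    (hR : R ≠ ⊥) (r : ℕ) [hr : Fact r.Prime] (P : Subgroup G) (hP : IsPGroup r P) :
    ∃ y ∈ R, (∀ g ∈ P, ∀ x, ((y (g⁻¹ • x) : ℤ) : ZMod r) = (y x : ZMod r)) ∧
      ∃ x, (y x : ZMod r) ≠ 0 := by
  classical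
  let φ : (X → ℤ) →+ (X → ZMod r) :=
    { toFun := fun f x => (f x : ZMod r)
      map_zero' := by funext x; simp
      map_add' := by intro a b; funext x; simp }
  have hφ : ∀ f x, φ f x = (f x : ZMod r) := fun _ _ => rfl
  let T : AddSubgroup (X → ZMod r) := R.map φ
  have hT : ∀ (g : P) (f : X → ZMod r), f ∈ T → (fun x => f ((g : G)⁻¹ • x)) ∈ T := by
    rintro g _ ⟨f, hf, rfl⟩
    exact ⟨tr (g : G) f, h.stable g f hf, rfl⟩
  let _ : MulAction P T :=
    { smul := fun g f => ⟨fun x => f.1 ((g : G)⁻¹ • x), hT g f.1 f.2⟩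
      one_smul := by
        intro f
        apply Subtype.ext
        funext x
        show f.1 (((1 : P) : G)⁻¹ • x) = f.1 x
        simp
      mul_smul := by
        intro g g' f
        apply Subtype.ext
        funext x
        show f.1 (((g * g' : P) : G)⁻¹ • x) = f.1 ((g' : G)⁻¹ • ((g : G)⁻¹ • x))
        rw [Subgroup.coe_mul, mul_inv_rev, mul_smul] }
  have hsmul : ∀ (g : P) (f : T) (x : X), (g • f).1 x = f.1 ((g : G)⁻¹ • x) := fun _ _ _ => rfl
  obtain ⟨y0, hy0, x0, hx0⟩ := exists_not_dvd h hR r hr.out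
  have hcard : r ∣ Nat.card T := by
    let t : T := ⟨φ y0, ⟨y0, hy0, rfl⟩⟩
    have ht : t ≠ 0 := by
      intro h0
      have h1 : φ y0 = 0 := congrArg Subtype.val h0
      have h2 := congrFun h1 x0
      rw [hφ, Pi.zero_apply, ZMod.intCast_zmod_eq_zero_iff_dvd] at h2
      exact hx0 h2
    have hrt : r • t = 0 := by
      apply Subtype.ext
      funext x
      show (r • t.1) x = 0
      simp
    have : addOrderOf t = r := addOrderOf_eq_prime hrt ht
    have h2 := addOrderOf_dvd_natCard t
    rwa [this] at h2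
  have hfix : (0 : T) ∈ MulAction.fixedPoints P T := by
    intro g
    apply Subtype.ext
    funext x
    rw [hsmul]
    rfl
  obtain ⟨b, hb, hb0⟩ := hP.exists_fixed_point_of_prime_dvd_card_of_fixed_point T hcard hfix
  obtain ⟨y, hy, hyb⟩ := b.2
  refine ⟨y, hy, ?_, ?_⟩
  · intro g hg x
    have h1 := congrArg (fun f : T => f.1 x) (hb ⟨g, hg⟩)
    simp only [hsmul] at h1
    rw [← hyb] at h1
    exact h1
  · by_contra hcon
    push Not at hcon
    apply hb0
    apply Subtype.ext
    rw [← hyb]
    funext x
    exact (hcon x).symm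

end basic

section sylow

variable {G X : Type*} [Group G] [Finite G] [Finite X] [MulAction G X]

/-- The orbits of a Sylow `r`-subgroup have size divisible by the full
power of `r` in the size of the orbit of the whole group. -/
theorem pow_factorization_dvd_orbit (r : ℕ) [Fact r.Prime] (P : Sylow r G) (x : X) :
    r ^ (Nat.card (MulAction.orbit G x)).factorization r ∣ Nat.card (MulAction.orbit P x) := by
  classical
  have h1 : Nat.card G = Nat.card (MulAction.orbit G x) *
      Nat.card (MulAction.stabilizer G x) := by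
    have := MulAction.index_stabilizer G x
    rw [← Nat.card_coe_set_eq] at this
    rw [← this, mul_comm, Subgroup.card_mul_index]
  have h2 : Nat.card P = Nat.card (MulAction.orbit P x) * Nat.card (MulAction.stabilizer P x) := by
    have := MulAction.index_stabilizer P x
    rw [← Nat.card_coe_set_eq] at this
    rw [← this, mul_comm, Subgroup.card_mul_index]
  have h3 : Nat.card (MulAction.stabilizer P x) ∣ Nat.card (MulAction.stabilizer G x) := by
    have hle : (MulAction.stabilizer P x).map (P : Subgroup G).subtype ≤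
        MulAction.stabilizer G x := by
      rintro _ ⟨g, hg, rfl⟩
      exact hg
    have := Subgroup.card_dvd_of_le hle
    rwa [Nat.card_congr ((MulAction.stabilizer P x).equivMapOfInjective _
      (Subgroup.subtype_injective _)).toEquiv.symm] at this
  have hP := P.card_eq_multiplicity
  have hGpos : Nat.card G ≠ 0 := Nat.card_pos.ne'
  have hSpos : Nat.card (MulAction.stabilizer G x) ≠ 0 := Nat.card_pos.ne'
  have hne' : Nonempty (MulAction.orbit G x) := ⟨⟨x, MulAction.mem_orbit_self x⟩⟩
  have hXpos : Nat.card (MulAction.orbit G x) ≠ 0 := Nat.card_pos.ne'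
  have hne : Nonempty (MulAction.orbit P x) := ⟨⟨x, MulAction.mem_orbit_self x⟩⟩
  have hOpos : Nat.card (MulAction.orbit P x) ≠ 0 := Nat.card_pos.ne'
  have hSPpos : Nat.card (MulAction.stabilizer P x) ≠ 0 := Nat.card_pos.ne'
  have hf1 : (Nat.card G).factorization r = (Nat.card (MulAction.orbit G x)).factorization r +
      (Nat.card (MulAction.stabilizer G x)).factorization r := by
    rw [h1, Nat.factorization_mul hXpos hSpos, Finsupp.add_apply]
  have hf2 : (Nat.card G).factorization r = (Nat.card (MulAction.orbit P x)).factorization r +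
      (Nat.card (MulAction.stabilizer P x)).factorization r := by
    have h4 : (Nat.card P).factorization r = (Nat.card G).factorization r := by
      rw [hP, Nat.Prime.factorization_pow Fact.out, Finsupp.single_eq_same]
    rw [← h4, h2, Nat.factorization_mul hOpos hSPpos, Finsupp.add_apply]
  have hf3 : (Nat.card (MulAction.stabilizer P x)).factorization r ≤
      (Nat.card (MulAction.stabilizer G x)).factorization r :=
    (Nat.factorization_le_iff_dvd hSPpos hSpos).2 h3 r
  have hf4 : (Nat.card (MulAction.orbit G x)).factorization r ≤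
      (Nat.card (MulAction.orbit P x)).factorization r := by
    omega
  exact (pow_dvd_pow r hf4).trans (Nat.ordProj_dvd _ _)

end sylow

section orth

variable {G X : Type*} [Group G] [Fintype X] [MulAction G X]

/-- A proper saturated `G`-stable subgroup of the group of antisymmetric functions supported in a
stable set `Y` has a nonzero orthogonal complement. -/
theorem exists_orth {ι : X → X} (hι : ∀ x, ι (ι x) = x) (hc : ∀ (g : G) x, ι (g • x) = g • ι x)
    (Y : Set X) (hY : ∀ (g : G), ∀ x, g • x ∈ Y ↔ x ∈ Y) (hιY : ∀ x, ι x ∈ Y ↔ x ∈ Y)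
    {U : AddSubgroup (X → ℤ)} (hU : IsRel G ι U) (hUY : ∀ f ∈ U, ∀ x ∉ Y, f x = 0)
    (f0 : X → ℤ) (hf0 : ∀ x, f0 (ι x) = - f0 x) (hf0Y : ∀ x ∉ Y, f0 x = 0) (hf0U : f0 ∉ U) :
    ∃ W : AddSubgroup (X → ℤ), IsRel G ι W ∧ (∀ f ∈ W, ∀ x ∉ Y, f x = 0) ∧ W ≠ ⊥ ∧
      (∀ u ∈ U, ∀ w ∈ W, ∑ x, u x * w x = 0) ∧
      (∀ w : X → ℤ, (∀ x, w (ι x) = - w x) → (∀ x ∉ Y, w x = 0) →
        (∀ u ∈ U, ∑ x, u x * w x = 0) → w ∈ W) := by
  classical
  let W : AddSubgroup (X → ℤ) :=
    { carrier := {w | (∀ x, w (ι x) = - w x) ∧ (∀ x ∉ Y, w x = 0) ∧ ∀ u ∈ U, ∑ x, u x * w x = 0}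
      zero_mem' := by simp
      add_mem' := by
        rintro a b ⟨ha1, ha2, ha3⟩ ⟨hb1, hb2, hb3⟩
        refine ⟨fun x => ?_, fun x hx => ?_, fun u hu => ?_⟩
        · simp only [Pi.add_apply, ha1 x, hb1 x]; ring
        · simp only [Pi.add_apply, ha2 x hx, hb2 x hx, add_zero]
        · simp only [Pi.add_apply, mul_add, Finset.sum_add_distrib, ha3 u hu, hb3 u hu, add_zero]
      neg_mem' := by
        rintro a ⟨ha1, ha2, ha3⟩
        refine ⟨fun x => ?_, fun x hx => ?_, fun u hu => ?_⟩
        · simp only [Pi.neg_apply, ha1 x]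
        · simp only [Pi.neg_apply, ha2 x hx, neg_zero]
        · simp only [Pi.neg_apply, mul_neg, Finset.sum_neg_distrib, ha3 u hu, neg_zero] }
  have hWmem : ∀ w, w ∈ W ↔ (∀ x, w (ι x) = - w x) ∧ (∀ x ∉ Y, w x = 0) ∧
    ∀ u ∈ U, ∑ x, u x * w x = 0 := fun _ => Iff.rfl
  refine ⟨W, ⟨fun f hf => ((hWmem f).1 hf).1, ?_, ?_⟩, fun f hf => ((hWmem f).1 hf).2.1, ?_,
    fun u hu w hw => ((hWmem w).1 hw).2.2 u hu, fun w h1 h2 h3 => (hWmem w).2 ⟨h1, h2, h3⟩⟩
  · intro g f hf
    obtain ⟨h1, h2, h3⟩ := (hWmem f).1 hf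
    refine (hWmem _).2 ⟨fun x => ?_, fun x hx => ?_, fun u hu => ?_⟩
    · rw [tr_apply, tr_apply, ← hc, h1]
    · rw [tr_apply]
      exact h2 _ (fun h => hx ((hY g⁻¹ x).1 h))
    · have h4 := h3 _ (hU.stable g⁻¹ u hu)
      rw [← h4]
      refine Fintype.sum_equiv (MulAction.toPerm g⁻¹) _ _ fun x => ?_
      simp [tr_apply, MulAction.toPerm_apply]
  · intro n hn f hf
    obtain ⟨h1, h2, h3⟩ := (hWmem _).1 hf
    refine (hWmem _).2 ⟨fun x => ?_, fun x hx => ?_, fun u hu => ?_⟩
    · have := h1 x
      simp only [Pi.smul_apply, smul_eq_mul] at this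
      apply mul_left_cancel₀ hn
      rw [this]; ring
    · have := h2 x hx
      simp only [Pi.smul_apply, smul_eq_mul, mul_eq_zero] at this
      exact this.resolve_left hn
    · have := h3 u hu
      simp only [Pi.smul_apply, smul_eq_mul] at this
      apply mul_left_cancel₀ hn
      rw [mul_zero, ← this, Finset.mul_sum]
      exact Finset.sum_congr rfl fun x _ => by ring
  · -- the linear algebra
    let cst : (X → ℤ) → (X → ℚ) := fun f x => (f x : ℚ)
    let p : Submodule ℚ (X → ℚ) := Submodule.span ℚ (cst '' (U : Set (X → ℤ)))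
    have hp : ∀ v ∈ p, ∃ n : ℤ, n ≠ 0 ∧ ∃ u ∈ U, cst u = (n : ℚ) • v := by
      intro v hv
      induction hv using Submodule.span_induction with
      | mem x hx =>
        obtain ⟨u, hu, rfl⟩ := hx
        exact ⟨1, one_ne_zero, u, hu, by simp⟩
      | zero => exact ⟨1, one_ne_zero, 0, U.zero_mem, by funext x; simp [cst]⟩
      | add x y _ _ hx hy =>
        obtain ⟨n, hn, u, hu, hux⟩ := hx
        obtain ⟨m, hm, v, hv, hvy⟩ := hy
        refine ⟨n * m, mul_ne_zero hn hm, m • u + n • v,
          U.add_mem (U.zsmul_mem hu m) (U.zsmul_mem hv n), ?_⟩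
        funext z
        have h1 := congrFun hux z
        have h2 := congrFun hvy z
        simp only [cst, Pi.smul_apply, smul_eq_mul] at h1 h2
        simp only [cst, Pi.smul_apply, Pi.add_apply, smul_eq_mul]
        push_cast
        rw [h1, h2]
        ring
      | smul a x _ hx =>
        obtain ⟨n, hn, u, hu, hux⟩ := hx
        refine ⟨n * a.den, mul_ne_zero hn (by exact_mod_cast a.den_nz), a.num • u,
          U.zsmul_mem hu _, ?_⟩
        funext z
        have h1 := congrFun hux z
        simp only [cst, Pi.smul_apply, smul_eq_mul] at h1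
        simp only [cst, Pi.smul_apply, smul_eq_mul]
        push_cast
        rw [h1]
        have h2 : (a.num : ℚ) = a.den * a := by
          rw [mul_comm]; exact (Rat.mul_den_eq_num a).symm
        rw [h2]
        ring
    have hf0p : cst f0 ∉ p := by
      intro hmem
      obtain ⟨n, hn, u, hu, hux⟩ := hp _ hmem
      apply hf0U
      refine hU.sat n hn f0 ?_
      have : n • f0 = u := by
        funext z
        have h1 := congrFun hux z
        simp only [cst, Pi.smul_apply, smul_eq_mul] at h1
        simp only [Pi.smul_apply, smul_eq_mul]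
        exact_mod_cast h1.symm
      rw [this]; exact hu
    obtain ⟨φ, hφ0, hφp⟩ := Submodule.exists_le_ker_of_notMem hf0p
    -- the vector of the functional
    let c : X → ℚ := fun x => φ (Pi.single x 1)
    have hφ : ∀ v : X → ℚ, φ v = ∑ x, v x * c x := by
      intro v
      conv_lhs => rw [← Finset.univ_sum_single v]
      rw [map_sum]
      refine Finset.sum_congr rfl fun x _ => ?_
      have : (Pi.single x (v x) : X → ℚ) = v x • Pi.single x 1 := by
        rw [← Pi.single_smul, smul_eq_mul, mul_one]
      rw [this, map_smul, smul_eq_mul]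
    let d : X → ℚ := fun x => if x ∈ Y then c x - c (ι x) else 0
    let N : ℕ := ∏ x, (d x).den
    have hN : N ≠ 0 := Finset.prod_ne_zero_iff.2 fun x _ => (d x).den_nz
    have hint : ∀ x, ∃ m : ℤ, (m : ℚ) = N * d x := by
      intro x
      have h1 : (d x).den ∣ N := Finset.dvd_prod_of_mem _ (Finset.mem_univ x)
      obtain ⟨t, ht⟩ := h1
      refine ⟨t * (d x).num, ?_⟩
      rw [ht]
      push_cast
      have h2 : ((d x).num : ℚ) = d x * (d x).den := (Rat.mul_den_eq_num (d x)).symm
      rw [h2]; ring
    choose w hw using hint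
    have hsum : ∀ f : X → ℤ, (∀ x, f (ι x) = - f x) → (∀ x ∉ Y, f x = 0) →
        ((∑ x, f x * w x : ℤ) : ℚ) = N * (2 * φ (cst f)) := by
      intro f hf hfY
      push_cast
      have h1 : ∀ x, (f x : ℚ) * (w x : ℚ) = N * (f x * c x - f x * c (ι x)) := by
        intro x
        rw [hw]
        by_cases hx : x ∈ Y
        · simp only [d, if_pos hx]; ring
        · simp [hfY x hx]
      simp_rw [h1]
      rw [← Finset.mul_sum, Finset.sum_sub_distrib]
      have h2 : ∑ x, (f x : ℚ) * c (ι x) = - ∑ x, (f x : ℚ) * c x := by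
        rw [← Finset.sum_neg_distrib]
        have hι' : Function.Involutive ι := hι
        refine Fintype.sum_equiv (Function.Involutive.toPerm ι hι') _ _ fun x => ?_
        rw [Function.Involutive.coe_toPerm, hf x]
        push_cast
        ring
      rw [h2, hφ]
      simp only [cst]
      ring
    have hwW : w ∈ W := by
      refine (hWmem _).2 ⟨fun x => ?_, fun x hx => ?_, fun u hu => ?_⟩
      · have h1 : ((w (ι x) : ℤ) : ℚ) = ((- w x : ℤ) : ℚ) := by
          push_cast
          rw [hw, hw]
          by_cases hx : x ∈ Y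
          · simp only [d, if_pos hx, if_pos ((hιY x).2 hx), hι]; ring
          · simp only [d, if_neg hx, if_neg (fun h => hx ((hιY x).1 h))]; ring
        exact_mod_cast h1
      · have h1 : ((w x : ℤ) : ℚ) = ((0 : ℤ) : ℚ) := by
          rw [hw]
          simp [d, hx]
        exact_mod_cast h1
      · have h1 := hsum u (hU.anti u hu) (hUY u hu)
        have h2 : φ (cst u) = 0 := hφp (Submodule.subset_span ⟨u, hu, rfl⟩)
        rw [h2, mul_zero, mul_zero] at h1
        exact_mod_cast h1
    intro hbot
    rw [hbot, AddSubgroup.mem_bot] at hwW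
    have h1 := hsum f0 hf0 hf0Y
    rw [hwW] at h1
    simp only [Pi.zero_apply, mul_zero, Finset.sum_const_zero, Int.cast_zero] at h1
    have hN' : (N : ℚ) ≠ 0 := by exact_mod_cast hN
    have h2 : φ (cst f0) = 0 := by
      have := (mul_eq_zero.1 h1.symm).resolve_left hN'
      linarith
    exact hφ0 h2

end orth

end Pool.Agent.Helper10.SignedLattice
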