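import Mathlib
import Pool.Agent.Helper10.SignedLattice

/-!
# Families of irreducible signed permutation lattices with different kernels
-/

set_option autoImplicit false
set_option linter.unusedSectionVars false

namespace Pool.Agent.Helper10.SignedLattice

open Finset

/-- Every nonzero saturated stable subgroup of antisymmetric functions supported in `Y` contains all
antisymmetric functions supported in `Y`. -/
def Irred (G : Type*) {X : Type*} [Group G] [MulAction G X] (ι : X → X) (Y : Set X) : Prop :=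
  ∀ U : AddSubgroup (X → ℤ), IsRel G ι U → (∀ f ∈ U, ∀ x ∉ Y, f x = 0) → U ≠ ⊥ →
    ∀ f : X → ℤ, (∀ x, f (ι x) = - f x) → (∀ x ∉ Y, f x = 0) → f ∈ U

/-- The elements of `R` supported in `Y`. -/
def supIn {X : Type*} (R : AddSubgroup (X → ℤ)) (Y : Set X) : AddSubgroup (X → ℤ) where
  carrier := {f | f ∈ R ∧ ∀ x ∉ Y, f x = 0}
  zero_mem' := ⟨R.zero_mem, fun _ _ => rfl⟩
  add_mem' := by
    rintro a b ⟨ha, ha'⟩ ⟨hb, hb'⟩
    exact ⟨R.add_mem ha hb, fun x hx => by simp [ha' x hx, hb' x hx]⟩
  neg_mem' := by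
    rintro a ⟨ha, ha'⟩
    exact ⟨R.neg_mem ha, fun x hx => by simp [ha' x hx]⟩

theorem mem_supIn {X : Type*} {R : AddSubgroup (X → ℤ)} {Y : Set X} {f : X → ℤ} :
    f ∈ supIn R Y ↔ f ∈ R ∧ ∀ x ∉ Y, f x = 0 := Iff.rfl

/-- The basic antisymmetric function attached to a point. -/
def ee {X : Type*} [DecidableEq X] (ι : X → X) (x : X) : X → ℤ :=
  fun z => (if z = x then 1 else 0) - (if z = ι x then 1 else 0)

section core

variable {G X : Type*} [Group G] [Finite X] [DecidableEq X] [MulAction G X]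

theorem ee_anti {ι : X → X} (hι : ∀ x, ι (ι x) = x) (x z : X) : ee ι x (ι z) = - ee ι x z := by
  unfold ee
  have h1 : ι z = x ↔ z = ι x := ⟨fun h => by rw [← h, hι], fun h => by rw [h, hι]⟩
  have h2 : ι z = ι x ↔ z = x := ⟨fun h => by rw [← hι z, h, hι], fun h => by rw [h]⟩
  simp only [h1, h2]
  ring

theorem ee_self {ι : X → X} (hfix : ∀ x, ι x ≠ x) (x : X) : ee ι x x = 1 := by
  unfold ee
  rw [if_pos rfl, if_neg (fun h => hfix x h.symm)]
  ring

theorem eq_of_ee_eq_one {ι : X → X} (x z : X) (h : ee ι x z = 1) : z = x := by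
  unfold ee at h
  by_contra hne
  rw [if_neg hne] at h
  split_ifs at h <;> omega

theorem IsRel.supIn {ι : X → X} {R : AddSubgroup (X → ℤ)} (hR : IsRel G ι R) (Y : Set X)
    (hY : ∀ (g : G), ∀ x, g • x ∈ Y ↔ x ∈ Y) : IsRel G ι (supIn R Y) where
  anti f hf := hR.anti f hf.1
  stable g f hf := by
    refine ⟨hR.stable g f hf.1, fun x hx => ?_⟩
    rw [tr_apply]
    exact hf.2 _ (fun h => hx ((hY g⁻¹ x).1 h))
  sat n hn f hf := by
    refine ⟨hR.sat n hn f hf.1, fun x hx => ?_⟩
    have := hf.2 x hx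
    simp only [Pi.smul_apply, smul_eq_mul, mul_eq_zero] at this
    exact this.resolve_left hn

/-- The saturated restriction of `R` to a stable set. -/
def restr (ι : X → X) (R : AddSubgroup (X → ℤ)) (Y : Set X) : AddSubgroup (X → ℤ) where
  carrier := {g | (∀ x, g (ι x) = - g x) ∧ (∀ x ∉ Y, g x = 0) ∧
    ∃ m : ℤ, m ≠ 0 ∧ ∃ f ∈ R, ∀ x ∈ Y, m * g x = f x}
  zero_mem' := ⟨fun _ => by simp, fun _ _ => rfl, 1, one_ne_zero, 0, R.zero_mem, fun _ _ => by simp⟩
  add_mem' := by
    rintro a b ⟨ha1, ha2, m, hm, f, hf, hfa⟩ ⟨hb1, hb2, n, hn, g, hg, hgb⟩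
    refine ⟨fun x => ?_, fun x hx => ?_, m * n, mul_ne_zero hm hn, n • f + m • g,
      R.add_mem (R.zsmul_mem hf n) (R.zsmul_mem hg m), fun x hx => ?_⟩
    · simp only [Pi.add_apply, ha1, hb1]; ring
    · simp only [Pi.add_apply, ha2 x hx, hb2 x hx, add_zero]
    · simp only [Pi.add_apply, Pi.smul_apply, smul_eq_mul, ← hfa x hx, ← hgb x hx]
      ring
  neg_mem' := by
    rintro a ⟨ha1, ha2, m, hm, f, hf, hfa⟩
    refine ⟨fun x => ?_, fun x hx => ?_, m, hm, -f, R.neg_mem hf, fun x hx => ?_⟩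
    · simp only [Pi.neg_apply, ha1]
    · simp only [Pi.neg_apply, ha2 x hx, neg_zero]
    · simp only [Pi.neg_apply, ← hfa x hx]
      ring

theorem isRel_restr {ι : X → X} (hc : ∀ (g : G) x, ι (g • x) = g • ι x)
    {R : AddSubgroup (X → ℤ)} (hR : IsRel G ι R) (Y : Set X)
    (hY : ∀ (g : G), ∀ x, g • x ∈ Y ↔ x ∈ Y) : IsRel G ι (restr ι R Y) where
  anti f hf := hf.1
  stable g f hf := by
    obtain ⟨h1, h2, m, hm, f', hf', h3⟩ := hf
    refine ⟨fun x => ?_, fun x hx => ?_, m, hm, tr g f', hR.stable g f' hf', fun x hx => ?_⟩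
    · rw [tr_apply, tr_apply, ← hc, h1]
    · rw [tr_apply]
      exact h2 _ (fun h => hx ((hY g⁻¹ x).1 h))
    · rw [tr_apply, tr_apply]
      exact h3 _ ((hY g⁻¹ x).2 hx)
  sat n hn f hf := by
    obtain ⟨h1, h2, m, hm, f', hf', h3⟩ := hf
    refine ⟨fun x => ?_, fun x hx => ?_, m * n, mul_ne_zero hm hn, f', hf', fun x hx => ?_⟩
    · have := h1 x
      simp only [Pi.smul_apply, smul_eq_mul] at this
      apply mul_left_cancel₀ hn
      rw [this]; ring
    · have := h2 x hx
      simp only [Pi.smul_apply, smul_eq_mul, mul_eq_zero] at this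
      exact this.resolve_left hn
    · rw [← h3 x hx]
      simp only [Pi.smul_apply, smul_eq_mul]
      ring

/-- **Core theorem.**  If all orbits are stable under the involution and irreducible, and have
pairwise distinct kernels, then a nonzero `R` contains the basic antisymmetric function of some
point. -/
theorem exists_ee_mem {ι : X → X} (hι : ∀ x, ι (ι x) = x)
    (hc : ∀ (g : G) x, ι (g • x) = g • ι x) (hfix : ∀ x, ι x ≠ x)
    (horb : ∀ x, ι x ∈ MulAction.orbit G x)
    (hirr : ∀ x, Irred G ι (MulAction.orbit G x))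
    (hker : ∀ x y : X, Nat.card (MulAction.orbit G x) = Nat.card (MulAction.orbit G y) →
      (∀ g : G, (∀ z ∈ MulAction.orbit G x, g • z = z) ↔
      (∀ z ∈ MulAction.orbit G y, g • z = z)) → y ∈ MulAction.orbit G x)
    {R : AddSubgroup (X → ℤ)} (hR : IsRel G ι R) (hR0 : R ≠ ⊥) : ∃ x, ee ι x ∈ R := by
  classical
  -- stability of orbits
  have horbst : ∀ (x : X) (g : G) (z : X), g • z ∈ MulAction.orbit G x ↔
      z ∈ MulAction.orbit G x := by
    intro x g z
    constructor
    · rintro ⟨h, hh⟩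
      exact ⟨g⁻¹ * h, by
        change (g⁻¹ * h) • x = z
        change h • x = g • z at hh
        rw [mul_smul, hh, inv_smul_smul]⟩
    · rintro ⟨h, hh⟩
      exact ⟨g * h, by
        change (g * h) • x = g • z
        change h • x = z at hh
        rw [mul_smul, hh]⟩
  have horbι : ∀ x z, ι z ∈ MulAction.orbit G x ↔ z ∈ MulAction.orbit G x := by
    intro x z
    have key : ∀ z, z ∈ MulAction.orbit G x → ι z ∈ MulAction.orbit G x := by
      intro z hz
      rw [← MulAction.orbit_eq_iff.2 hz]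
      exact horb z
    exact ⟨fun h => by have := key _ h; rwa [hι] at this, key z⟩
  -- minimal stable set
  have hex : ∃ n : ℕ, ∃ Y : Set X, Y.ncard = n ∧ (∀ (g : G), ∀ x : X, g • x ∈ Y ↔ x ∈ Y) ∧
      supIn R Y ≠ ⊥ := by
    refine ⟨_, Set.univ, rfl, fun _ _ => by simp, fun hbot => hR0 ?_⟩
    rw [eq_bot_iff] at hbot ⊢
    intro f hf
    exact hbot ⟨hf, fun x hx => absurd (Set.mem_univ x) hx⟩
  obtain ⟨Y, hYn, hYst, hYR⟩ := Nat.find_spec hex
  have hmin : ∀ Y' : Set X, (∀ (g : G), ∀ x : X, g • x ∈ Y' ↔ x ∈ Y') → Y'.ncard < Y.ncard →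
      ∀ f ∈ R, (∀ x ∉ Y', f x = 0) → f = 0 := by
    intro Y' hst hlt f hf hf0
    by_contra hne
    rw [hYn] at hlt
    refine Nat.find_min hex hlt ⟨Y', rfl, hst, ?_⟩
    intro hbot
    have : f ∈ supIn R Y' := ⟨hf, hf0⟩
    rw [hbot] at this
    exact hne this
  have hsub : ∀ x ∈ Y, (Y \ MulAction.orbit G x).ncard < Y.ncard := by
    intro x hx
    exact Set.ncard_lt_ncard ⟨Set.sdiff_subset, fun h => (h hx).2 (MulAction.mem_orbit_self x)⟩
  have hsubst : ∀ x ∈ Y, ∀ (g : G), ∀ z, g • z ∈ Y \ MulAction.orbit G x ↔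
      z ∈ Y \ MulAction.orbit G x := by
    intro x _ g z
    rw [Set.mem_sdiff, Set.mem_sdiff, hYst, horbst]
  -- the key lemma
  have lift : ∀ x ∈ Y, ∀ y ∈ Y, y ∉ MulAction.orbit G x → ∀ z ∈ MulAction.orbit G y,
      ∃ m : ℤ, m ≠ 0 ∧ ∃ f ∈ supIn R Y, ∀ t ∈ MulAction.orbit G y, m * ee ι z t = f t := by
    intro x hx y hy _ z hz
    have hYrel := hR.supIn Y hYst
    have hU := isRel_restr hc hYrel (MulAction.orbit G y) (horbst y)
    have hU0 : restr ι (supIn R Y) (MulAction.orbit G y) ≠ ⊥ := by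
      obtain ⟨a, ha⟩ := AddSubgroup.ne_bot_iff_exists_ne_zero.1 hYR
      have haR : a.1 ∈ supIn R Y := a.2
      have ha0 : a.1 ≠ 0 := fun h0 => ha (Subtype.ext h0)
      have hnz : ∃ z ∈ MulAction.orbit G y, a.1 z ≠ 0 := by
        by_contra hcon
        push Not at hcon
        apply ha0
        refine hmin _ (hsubst y hy) (hsub y hy) _ haR.1 ?_
        intro z hz
        by_cases hzY : z ∈ Y
        · refine hcon z ?_
          by_contra h
          exact hz ⟨hzY, h⟩
        · exact haR.2 z hzY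
      obtain ⟨z, hz, hz0⟩ := hnz
      let b : X → ℤ := fun x => if x ∈ MulAction.orbit G y then a.1 x else 0
      have hb : b ∈ restr ι (supIn R Y) (MulAction.orbit G y) := by
        refine ⟨fun x => ?_, fun x hx => if_neg hx, 1, one_ne_zero, a.1, haR, fun x hx => ?_⟩
        · simp only [b, horbι, hR.anti _ haR.1]
          split_ifs <;> simp
        · simp only [b, if_pos hx, one_mul]
      intro hbot
      rw [hbot, AddSubgroup.mem_bot] at hb
      have := congrFun hb z
      simp only [b, if_pos hz, Pi.zero_apply] at this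
      exact hz0 this
    have hmem : ee ι z ∈ restr ι (supIn R Y) (MulAction.orbit G y) := by
      refine hirr y _ hU (fun f hf => hf.2.1) hU0 _ (ee_anti hι z) ?_
      intro t ht
      unfold ee
      have h1 : t ≠ z := by rintro rfl; exact ht hz
      have h2 : t ≠ ι z := by rintro rfl; exact ht ((horbι y z).2 hz)
      rw [if_neg h1, if_neg h2, sub_zero]
    obtain ⟨-, -, m, hm, f, hf, hfe⟩ := hmem
    exact ⟨m, hm, f, hf, hfe⟩
  have vanish : ∀ x ∈ Y, ∀ f ∈ supIn R Y, (∀ z ∈ MulAction.orbit G x, f z = 0) → f = 0 := by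
    intro x hx f hf hf0
    refine hmin _ (hsubst x hx) (hsub x hx) _ hf.1 ?_
    intro z hz
    by_cases hzY : z ∈ Y
    · refine hf0 z ?_
      by_contra h
      exact hz ⟨hzY, h⟩
    · exact hf.2 z hzY
  have key : ∀ x ∈ Y, ∀ y ∈ Y, y ∉ MulAction.orbit G x → ∀ g : G,
      (∀ z ∈ MulAction.orbit G x, g • z = z) → (∀ z ∈ MulAction.orbit G y, g • z = z) := by
    intro x hx y hy hyx n hn
    have hinv : ∀ f ∈ supIn R Y, ∀ z, f (n⁻¹ • z) = f z := by
      intro f hf z
      have h1 : f - tr n f = 0 := by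
        refine vanish x hx _ ((supIn R Y).sub_mem hf ((hR.supIn Y hYst).stable n f hf)) ?_
        intro z hzx
        rw [Pi.sub_apply, tr_apply]
        have : n⁻¹ • z = z := by
          conv_lhs => rw [← hn z hzx]
          rw [inv_smul_smul]
        rw [this, sub_self]
      have := congrFun h1 z
      rw [Pi.sub_apply, tr_apply, Pi.zero_apply] at this
      omega
    intro z hz
    obtain ⟨m, hm, f, hf, hfe⟩ := lift x hx y hy hyx z hz
    have h1 := hfe z hz
    have h2 := hfe (n⁻¹ • z) ((horbst y n⁻¹ z).2 hz)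
    rw [hinv f hf z, ← h1] at h2
    have h3 := mul_left_cancel₀ hm h2
    rw [ee_self hfix] at h3
    have h4 := eq_of_ee_eq_one _ _ h3
    conv_lhs => rw [← h4]
    rw [smul_inv_smul]
  -- comparison of the sizes of the orbits
  have : Fintype X := Fintype.ofFinite X
  let e : X ≃ Fin (Fintype.card X) := Fintype.equivFin X
  let D : X → Finset X := fun x => Finset.univ.filter fun z => z ∈ MulAction.orbit G x ∧ e z < e (ι z)
  have hmemD : ∀ x z, z ∈ D x ↔ z ∈ MulAction.orbit G x ∧ e z < e (ι z) := fun x z => by simp [D]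
  have hDι : ∀ x, ∀ z ∈ MulAction.orbit G x, z ∉ D x → ι z ∈ D x := by
    intro x z hz hzD
    rw [hmemD] at hzD ⊢
    refine ⟨(horbι x z).2 hz, ?_⟩
    rw [hι]
    have h1 : ¬ (e z < e (ι z)) := fun h => hzD ⟨hz, h⟩
    have h2 : e z ≠ e (ι z) := fun h => hfix z (e.injective h).symm
    exact lt_of_le_of_ne (not_lt.1 h1) h2.symm
  have hDι' : ∀ x, ∀ z ∈ D x, ι z ∉ D x := by
    intro x z hz h
    rw [hmemD] at hz h
    rw [hι] at h
    exact absurd hz.2 (not_lt.2 h.2.le)
  have hDcard : ∀ x, Nat.card (MulAction.orbit G x) = 2 * (D x).card := by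
    intro x
    have hdisj : Disjoint (D x) ((D x).image ι) := by
      rw [Finset.disjoint_left]
      intro z hz hz2
      obtain ⟨t, ht, rfl⟩ := Finset.mem_image.1 hz2
      exact hDι' x t ht hz
    have h1 : ((D x ∪ (D x).image ι : Finset X) : Set X) = MulAction.orbit G x := by
      ext z
      rw [Finset.mem_coe, Finset.mem_union]
      constructor
      · rintro (h | h)
        · exact ((hmemD x z).1 h).1
        · obtain ⟨t, ht, rfl⟩ := Finset.mem_image.1 h
          exact (horbι x t).2 ((hmemD x t).1 ht).1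
      · intro h
        by_cases hzD : z ∈ D x
        · exact Or.inl hzD
        · exact Or.inr (Finset.mem_image.2 ⟨ι z, hDι x z h hzD, hι z⟩)
    rw [Nat.card_coe_set_eq, ← h1, Set.ncard_coe_finset, Finset.card_union_of_disjoint hdisj,
      Finset.card_image_of_injective _ (fun a b h => by rw [← hι a, h, hι])]
    ring
  have hle : ∀ x ∈ Y, ∀ y ∈ Y, y ∉ MulAction.orbit G x → (D y).card ≤ (D x).card := by
    intro x hx y hy hyx
    have hl := lift x hx y hy hyx
    choose! m hm f hf hfe using hl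
    let v : D y → (D x → ℤ) := fun z t => f z t
    have hli : LinearIndependent ℤ v := by
      rw [Fintype.linearIndependent_iff]
      intro g hg z0
      let F : X → ℤ := ∑ z : D y, g z • f z
      have hFR : F ∈ supIn R Y := (supIn R Y).sum_mem fun z _ =>
        (supIn R Y).zsmul_mem (hf z ((hmemD y z).1 z.2).1) _
      have hFD : ∀ t ∈ D x, F t = 0 := by
        intro t ht
        have := congrFun hg ⟨t, ht⟩
        simpa [F, v, Finset.sum_apply] using this
      have hF0 : F = 0 := by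
        refine vanish x hx F hFR fun t ht => ?_
        by_cases htD : t ∈ D x
        · exact hFD t htD
        · have h1 := hFD _ (hDι x t ht htD)
          rw [hR.anti F hFR.1] at h1
          omega
      have h1 : F z0 = g z0 * m z0 := by
        have h2 : F z0 = ∑ z : D y, g z * (f z) z0 := by simp [F, Finset.sum_apply]
        rw [h2, Finset.sum_eq_single z0]
        · rw [← hfe z0 ((hmemD y z0).1 z0.2).1 z0 ((hmemD y z0).1 z0.2).1, ee_self hfix, mul_one]
        · intro z _ hz
          rw [← hfe z ((hmemD y z).1 z.2).1 z0 ((hmemD y z0).1 z0.2).1]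
          have h3 : (z0 : X) ≠ z := fun h => hz (Subtype.ext h.symm)
          have h4 : (z0 : X) ≠ ι z := by
            intro h
            exact hDι' y z z.2 (h ▸ z0.2)
          unfold ee
          rw [if_neg h3, if_neg h4]
          ring
        · intro h
          exact absurd (Finset.mem_univ _) h
      rw [hF0, Pi.zero_apply] at h1
      exact (mul_eq_zero.1 h1.symm).resolve_right (hm z0 ((hmemD y z0).1 z0.2).1)
    have := hli.fintype_card_le_finrank
    simpa using this
  -- conclusion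
  obtain ⟨a, ha⟩ := AddSubgroup.ne_bot_iff_exists_ne_zero.1 hYR
  have haR : a.1 ∈ supIn R Y := a.2
  have ha0 : a.1 ≠ 0 := fun h0 => ha (Subtype.ext h0)
  obtain ⟨y, hy⟩ := Function.ne_iff.1 ha0
  have hyY : y ∈ Y := by
    by_contra h
    exact hy (haR.2 y h)
  have hYO : Y ⊆ MulAction.orbit G y := by
    intro x hx
    by_contra hxy
    have hyx : y ∉ MulAction.orbit G x := by
      rwa [MulAction.mem_orbit_symm]
    apply hyx
    apply hker x y
    · rw [hDcard, hDcard, le_antisymm (hle x hx y hyY hyx) (hle y hyY x hx hxy)]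
    intro g
    exact ⟨key x hx y hyY hyx g, key y hyY x hx hxy g⟩
  refine ⟨y, ?_⟩
  have := hirr y (supIn R Y) (hR.supIn Y hYst)
    (fun f hf x hx => hf.2 x (fun h => hx (hYO h))) hYR (ee ι y) (ee_anti hι y) ?_
  · exact this.1
  · intro t ht
    unfold ee
    have h1 : t ≠ y := by rintro rfl; exact ht (MulAction.mem_orbit_self _)
    have h2 : t ≠ ι y := by rintro rfl; exact ht (horb y)
    rw [if_neg h1, if_neg h2, sub_zero]

end core

end Pool.Agent.Helper10.SignedLattice
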