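import Mathlib

/-!
# The sign of a signed permutation
-/

set_option autoImplicit false
set_option linter.unusedSectionVars false

namespace Pool.Agent.Helper10.SignedLattice

open Finset

/-- If `σ` commutes with a fixed point free involution `ι` and `D` contains exactly one point of
each pair `{x, ι x}`, then the sign of `σ` is `(-1)` to the number of points of `D` that `σ` moves
out of `D`. -/
theorem sign_eq_flips {Z : Type*} [Fintype Z] [DecidableEq Z] (σ : Equiv.Perm Z) (ι : Z → Z)
    (hι : ∀ x, ι (ι x) = x) (hσ : ∀ x, σ (ι x) = ι (σ x)) (D : Finset Z)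
    (hD : ∀ x, ι x ∈ D ↔ x ∉ D) :
    (Equiv.Perm.sign σ : ℤ) = (-1) ^ (D.filter (fun x => σ x ∉ D)).card := by
  classical
  -- the permutation of the pairs
  let πf : D → D := fun d => if h : σ d ∈ D then ⟨σ d, h⟩ else ⟨ι (σ d), (hD _).2 h⟩
  have hinj : Function.Injective πf := by
    intro d d' h
    have h' := congrArg Subtype.val h
    apply Subtype.ext
    by_cases h1 : σ d ∈ D <;> by_cases h2 : σ d' ∈ D
    · simp only [πf, dif_pos h1, dif_pos h2] at h'
      exact σ.injective h'
    · simp only [πf, dif_pos h1, dif_neg h2] at h'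
      rw [← hσ] at h'
      have := σ.injective h'
      have h3 : ι (d' : Z) ∈ D := this ▸ d.2
      exact absurd d'.2 ((hD _).1 h3)
    · simp only [πf, dif_neg h1, dif_pos h2] at h'
      rw [← hσ] at h'
      have := σ.injective h'
      have h3 : ι (d : Z) ∈ D := this ▸ d'.2
      exact absurd d.2 ((hD _).1 h3)
    · simp only [πf, dif_neg h1, dif_neg h2] at h'
      have := congrArg ι h'
      rw [hι, hι] at this
      exact σ.injective this
  let π : Equiv.Perm D := Equiv.ofBijective πf (Finite.injective_iff_bijective.1 hinj)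
  have hπ : ∀ d, π d = πf d := fun _ => rfl
  let ε : D → Equiv.Perm Bool := fun d => if σ d ∈ D then 1 else Equiv.swap true false
  let e : Z ≃ D × Bool :=
    { toFun := fun x => if h : x ∈ D then (⟨x, h⟩, true) else (⟨ι x, (hD x).2 h⟩, false)
      invFun := fun p => if p.2 then p.1 else ι p.1
      left_inv := by
        intro x
        by_cases h : x ∈ D
        · simp [h]
        · simp [h, hι]
      right_inv := by
        rintro ⟨d, b⟩
        cases b with
        | true => simp
        | false =>
          have : ι (d : Z) ∉ D := fun h => (hD _).1 h d.2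
          simp [this, hι] }
  have he1 : ∀ x (h : x ∈ D), e x = (⟨x, h⟩, true) := fun x h => dif_pos h
  have he2 : ∀ x (h : x ∉ D), e x = (⟨ι x, (hD x).2 h⟩, false) := fun x h => dif_neg h
  have hes1 : ∀ d : D, e.symm (d, true) = d := fun d => rfl
  have hes2 : ∀ d : D, e.symm (d, false) = ι d := fun d => rfl
  have hconj : e.permCongr σ = Equiv.prodCongrLeft (fun _ => π) * Equiv.prodCongrRight ε := by
    ext1 p
    obtain ⟨d, b⟩ := p
    rw [Equiv.permCongr_apply, Equiv.Perm.mul_apply, Equiv.prodCongrRight_apply,
      Equiv.prodCongrLeft_apply]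
    by_cases h : σ d ∈ D
    · have hπd : π d = ⟨σ d, h⟩ := by rw [hπ]; exact dif_pos h
      have hεd : ε d = 1 := if_pos h
      cases b with
      | true => rw [hes1, he1 _ h, hπd, hεd]; rfl
      | false =>
        have h' : ι (σ d) ∉ D := fun h3 => (hD _).1 h3 h
        rw [hes2, hσ, he2 _ h', hπd, hεd]
        simp [hι]
    · have hπd : π d = ⟨ι (σ d), (hD _).2 h⟩ := by rw [hπ]; exact dif_neg h
      have hεd : ε d = Equiv.swap true false := if_neg h
      cases b with
      | true => rw [hes1, he2 _ h, hπd, hεd]; simp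
      | false =>
        have h' : ι (σ d) ∈ D := (hD _).2 h
        rw [hes2, hσ, he1 _ h', hπd, hεd]; simp
  have hs := congrArg Equiv.Perm.sign hconj
  rw [Equiv.Perm.sign_permCongr, Equiv.Perm.sign_mul, Equiv.Perm.sign_prodCongrLeft,
    Equiv.Perm.sign_prodCongrRight] at hs
  rw [hs]
  have h1 : ∏ _k : Bool, Equiv.Perm.sign π = 1 := by
    rw [Fintype.prod_bool, Int.units_mul_self]
  rw [h1, one_mul]
  have h2 : ∀ d : D, ((Equiv.Perm.sign (ε d) : ℤˣ) : ℤ) = if σ d ∈ D then 1 else -1 := by
    intro d
    by_cases h : σ d ∈ D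
    · have hεd : ε d = 1 := if_pos h
      rw [hεd, if_pos h]; simp
    · have hεd : ε d = Equiv.swap true false := if_neg h
      rw [hεd, if_neg h, Equiv.Perm.sign_swap (by decide)]; simp
  rw [Units.coe_prod]
  simp_rw [h2]
  rw [Finset.prod_coe_sort D (fun x => if σ x ∈ D then (1 : ℤ) else -1), Finset.prod_ite]
  simp

end Pool.Agent.Helper10.SignedLattice
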