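import Mathlib
import Pool.Agent.Helper10.SignedLattice
import Pool.Agent.Helper10.SignedCore
import Pool.Agent.Helper10.SignedSign

/-!
# Irreducibility criterion for orbits of 2-power size
-/

set_option autoImplicit false
set_option linter.unusedSectionVars false

namespace Pool.Agent.Helper10.SignedLattice

open Finset

section two

variable {G X : Type*} [Group G] [Finite G] [Fintype X] [DecidableEq X] [MulAction G X]

/-- `σ` flips an odd number of pairs of `Y`. -/
def OddFlip (ι : X → X) (Y : Set X) (σ : G) : Prop :=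
  ∀ D : Finset X, (∀ x ∈ D, x ∈ Y) → (∀ x ∈ Y, ι x ∈ D ↔ x ∉ D) →
    Odd (D.filter (fun x => σ • x ∉ D)).card

theorem smul_mem_orbit_iff' (x : X) (g : G) (z : X) : g • z ∈ MulAction.orbit G x ↔
    z ∈ MulAction.orbit G x := by
  constructor
  · rintro ⟨h, hh⟩
    exact ⟨g⁻¹ * h, by
      change (g⁻¹ * h) • x = z
      change h • x = g • z at hh
      rw [mul_smul, hh, inv_smul_smul]⟩
  · rintro ⟨h, hh⟩
    exact ⟨g * h, by
      change (g * h) • x = g • z
      change h • x = z at hh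
      rw [mul_smul, hh]⟩

theorem iota_mem_orbit_iff {ι : X → X} (hι : ∀ x, ι (ι x) = x)
    (hc : ∀ (g : G) x, ι (g • x) = g • ι x) (x : X) (horb : ι x ∈ MulAction.orbit G x) (z : X) :
    ι z ∈ MulAction.orbit G x ↔ z ∈ MulAction.orbit G x := by
  have key : ∀ z, z ∈ MulAction.orbit G x → ι z ∈ MulAction.orbit G x := by
    rintro z ⟨g, hg⟩
    change g • x = z at hg
    rw [← hg, hc, smul_mem_orbit_iff']
    exact horb
  exact ⟨fun h => by have := key _ h; rwa [hι] at this, key z⟩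

theorem oddFlip_of_sign {ι : X → X} (hι : ∀ x, ι (ι x) = x)
    (hc : ∀ (g : G) x, ι (g • x) = g • ι x) (x0 : X) (horb : ι x0 ∈ MulAction.orbit G x0)
    [Fintype (MulAction.orbit G x0)] (σ : G)
    (hσ : Equiv.Perm.sign (MulAction.toPerm σ : Equiv.Perm (MulAction.orbit G x0)) = -1) :
    OddFlip ι (MulAction.orbit G x0) σ := by
  classical
  intro D hDY hD
  let ι' : MulAction.orbit G x0 → MulAction.orbit G x0 := fun z =>
    ⟨ι z, (iota_mem_orbit_iff hι hc x0 horb z).2 z.2⟩
  let D' : Finset (MulAction.orbit G x0) := Finset.univ.filter fun z => (z : X) ∈ D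
  have hmem : ∀ z, z ∈ D' ↔ (z : X) ∈ D := fun z => by simp [D']
  have h := sign_eq_flips (MulAction.toPerm σ : Equiv.Perm (MulAction.orbit G x0)) ι'
    (fun x => Subtype.ext (hι x)) (fun x => Subtype.ext (hc σ x).symm) D'
    (fun x => by rw [hmem, hmem]; exact hD x x.2)
  have hcard : (D'.filter (fun x => (MulAction.toPerm σ : Equiv.Perm (MulAction.orbit G x0)) x ∉
      D')).card = (D.filter (fun x => σ • x ∉ D)).card := by
    refine Finset.card_bij (fun z _ => (z : X)) ?_ ?_ ?_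
    · intro z hz
      rw [Finset.mem_filter, hmem, hmem] at hz
      rw [Finset.mem_filter]
      exact ⟨hz.1, hz.2⟩
    · intro a _ b _ hab
      exact Subtype.ext hab
    · intro b hb
      rw [Finset.mem_filter] at hb
      refine ⟨⟨b, hDY b hb.1⟩, ?_, rfl⟩
      rw [Finset.mem_filter, hmem, hmem]
      exact ⟨hb.1, hb.2⟩
  rw [hcard, hσ] at h
  by_contra hne
  rw [Nat.not_odd_iff_even] at hne
  rw [hne.neg_one_pow] at h
  norm_num at h

/-- An orbit of 2-power size with an element that flips an odd number of pairs is irreducible. -/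
theorem irred_two_pow {ι : X → X} (hι : ∀ x, ι (ι x) = x)
    (hc : ∀ (g : G) x, ι (g • x) = g • ι x) (x0 : X)
    (horb : ι x0 ∈ MulAction.orbit G x0) (k : ℕ) (hcard : Nat.card (MulAction.orbit G x0) = 2 ^ k)
    (σ : G) (hσ : OddFlip ι (MulAction.orbit G x0) σ) : Irred G ι (MulAction.orbit G x0) := by
  classical
  intro U hU hUY hU0 f hf hfY
  by_contra hfU
  set Y := MulAction.orbit G x0 with hYdef
  have hYst : ∀ (g : G) (z : X), g • z ∈ Y ↔ z ∈ Y := smul_mem_orbit_iff' x0
  have hιY : ∀ z, ι z ∈ Y ↔ z ∈ Y := iota_mem_orbit_iff hι hc x0 horb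
  obtain ⟨W, hW, hWY, hW0, hUW, -⟩ := exists_orth hι hc Y hYst hιY hU hUY f hf hfY hfU
  have hp2 : Fact (Nat.Prime 2) := ⟨Nat.prime_two⟩
  obtain ⟨P⟩ : Nonempty (Sylow 2 G) := inferInstance
  -- `P` is transitive on `Y`
  have htrans : ∀ x ∈ Y, ∀ z ∈ Y, ∃ g ∈ (P : Subgroup G), g • x = z := by
    intro x hx z hz
    have horbx : MulAction.orbit G x = Y := MulAction.orbit_eq_iff.2 hx
    have h1 := pow_factorization_dvd_orbit 2 P x
    rw [horbx, hcard, Nat.Prime.factorization_pow Nat.prime_two, Finsupp.single_eq_same] at h1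
    have hsub : MulAction.orbit P x ⊆ Y := by
      rintro _ ⟨g, rfl⟩
      exact (hYst (g : G) x).2 hx
    have hfin : Y.Finite := Set.toFinite Y
    have h2 : Y.ncard ≤ (MulAction.orbit P x).ncard := by
      rw [← Nat.card_coe_set_eq, ← Nat.card_coe_set_eq, hcard]
      refine Nat.le_of_dvd ?_ h1
      have : Nonempty (MulAction.orbit P x) := ⟨⟨x, MulAction.mem_orbit_self x⟩⟩
      exact Nat.card_pos
    have h3 := Set.eq_of_subset_of_ncard_le hsub h2 hfin
    rw [← h3] at hz
    obtain ⟨g, hg⟩ := hz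
    exact ⟨g, g.2, hg⟩
  have hodd : ∀ R : AddSubgroup (X → ℤ), IsRel G ι R → (∀ f ∈ R, ∀ x ∉ Y, f x = 0) → R ≠ ⊥ →
      ∃ y ∈ R, ∀ x ∈ Y, Odd (y x) := by
    intro R hR hRY hR0
    obtain ⟨y, hy, hinv, x1, hx1⟩ := exists_fixed_mod hR hR0 2 (P : Subgroup G) P.isPGroup'
    refine ⟨y, hy, fun x hx => ?_⟩
    have hx1Y : x1 ∈ Y := by
      by_contra h
      exact hx1 (by rw [hRY y hy x1 h]; simp)
    obtain ⟨g, hg, hgx⟩ := htrans x hx x1 hx1Y
    have h1 := hinv g hg x1
    rw [← hgx, inv_smul_smul, hgx] at h1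
    rw [← Int.not_even_iff_odd, ← ZMod.intCast_eq_zero_iff_even, h1]
    exact hx1
  obtain ⟨y, hyU, hyodd⟩ := hodd U hU hUY hU0
  obtain ⟨w, hwW, hwodd⟩ := hodd W hW hWY hW0
  -- the half difference
  have hyo : ∀ x ∈ Y, y x % 4 = 1 ∨ y x % 4 = 3 := by
    intro x hx
    obtain ⟨t, ht⟩ := hyodd x hx
    omega
  let v : X → ℤ := fun x => (y x - y (σ • x)) / 2
  have hv2 : ∀ x, 2 * v x = y x - y (σ • x) := by
    intro x
    by_cases hx : x ∈ Y
    · have h1 := hyo x hx
      have h2 := hyo (σ • x) ((hYst σ x).2 hx)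
      simp only [v]
      omega
    · have h1 := hUY y hyU x hx
      have h2 := hUY y hyU (σ • x) (fun h => hx ((hYst σ x).1 h))
      simp only [v, h1, h2]
      norm_num
  have hvU : v ∈ U := by
    refine hU.sat 2 two_ne_zero v ?_
    have : (2 : ℤ) • v = y - tr σ⁻¹ y := by
      funext x
      rw [Pi.smul_apply, smul_eq_mul, hv2, Pi.sub_apply, tr_apply, inv_inv]
    rw [this]
    exact U.sub_mem hyU (hU.stable _ _ hyU)
  have hzero := hUW v hvU w hwW
  let D : Finset X := Finset.univ.filter fun x => x ∈ Y ∧ y x % 4 = 1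
  have hmemD : ∀ x, x ∈ D ↔ x ∈ Y ∧ y x % 4 = 1 := fun x => by simp [D]
  have hDι : ∀ x ∈ Y, ι x ∈ D ↔ x ∉ D := by
    intro x hx
    rw [hmemD, hmemD, hU.anti y hyU x]
    have h1 := hyo x hx
    constructor
    · rintro ⟨-, h2⟩ ⟨-, h3⟩
      omega
    · intro h2
      refine ⟨(hιY x).2 hx, ?_⟩
      have : ¬ (y x % 4 = 1) := fun h => h2 ⟨hx, h⟩
      omega
  have hflip := hσ D (fun x hx => ((hmemD x).1 hx).1) hDι
  -- the pairing is twice the sum over `D`
  let F : X → ℤ := fun x => v x * w x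
  have hFι : ∀ x, F (ι x) = F x := by
    intro x
    simp only [F]
    rw [hU.anti v hvU, hW.anti w hwW]
    ring
  have hsum : ∑ x, F x = 2 * ∑ x ∈ D, F x := by
    have h1 : ∑ x, F x = ∑ x ∈ D, F x + ∑ x ∈ Dᶜ, F x := (Finset.sum_add_sum_compl D F).symm
    have h2 : ∑ x ∈ Dᶜ, F x = ∑ x ∈ Dᶜ.filter (fun x => x ∈ Y), F x := by
      refine (Finset.sum_subset (Finset.filter_subset _ _) ?_).symm
      intro x hx hx2
      have hxY : x ∉ Y := fun h => hx2 (Finset.mem_filter.2 ⟨hx, h⟩)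
      simp only [F]
      rw [hWY w hwW x hxY, mul_zero]
    have h3 : ∑ x ∈ Dᶜ.filter (fun x => x ∈ Y), F x = ∑ x ∈ D, F x := by
      refine Finset.sum_bij' (fun x _ => ι x) (fun x _ => ι x) ?_ ?_ ?_ ?_ ?_
      · intro x hx
        rw [Finset.mem_filter, Finset.mem_compl] at hx
        exact (hDι x hx.2).2 hx.1
      · intro x hx
        rw [Finset.mem_filter, Finset.mem_compl]
        have hxY := ((hmemD x).1 hx).1
        refine ⟨fun h => ?_, (hιY x).2 hxY⟩
        exact (hDι x hxY).1 h hx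
      · intro x _; exact hι x
      · intro x _; exact hι x
      · intro x _; exact (hFι x).symm
    rw [h1, h2, h3]
    ring
  have hD0 : ∑ x ∈ D, F x = 0 := by
    have : ∑ x, F x = 0 := hzero
    omega
  have hcast : ((∑ x ∈ D, F x : ℤ) : ZMod 2) = ((D.filter (fun x => σ • x ∉ D)).card : ZMod 2) := by
    rw [Int.cast_sum, Finset.card_filter, Nat.cast_sum]
    refine Finset.sum_congr rfl fun x hx => ?_
    have hxY := ((hmemD x).1 hx).1
    have hx1 := ((hmemD x).1 hx).2
    have hw1 : ((w x : ℤ) : ZMod 2) = 1 := by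
      obtain ⟨t, ht⟩ := hwodd x hxY
      rw [ht]
      push_cast
      have : (2 : ZMod 2) = 0 := rfl
      rw [this, zero_mul, zero_add]
    simp only [F]
    rw [Int.cast_mul, hw1, mul_one]
    have h2 := hv2 x
    have hσY : σ • x ∈ Y := (hYst σ x).2 hxY
    by_cases h : σ • x ∈ D
    · have h3 := ((hmemD _).1 h).2
      rw [if_neg (fun h4 => h4 h)]
      have h5 : Even (v x) := by
        rw [Int.even_iff]
        omega
      rw [Nat.cast_zero]
      exact (ZMod.intCast_eq_zero_iff_even).2 h5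
    · rw [if_pos h]
      have h3 : ¬ (y (σ • x) % 4 = 1) := fun h3 => h ((hmemD _).2 ⟨hσY, h3⟩)
      have h4 := hyo _ hσY
      have h5 : Odd (v x) := by
        rw [Int.odd_iff]
        omega
      obtain ⟨t, ht⟩ := h5
      rw [ht]
      push_cast
      have : (2 : ZMod 2) = 0 := rfl
      rw [this, zero_mul, zero_add]
  rw [hD0, Int.cast_zero] at hcast
  have h6 : Even (D.filter (fun x => σ • x ∉ D)).card :=
    (ZMod.natCast_eq_zero_iff_even).1 hcast.symm
  exact (Nat.not_odd_iff_even.2 h6) hflip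

end two

end Pool.Agent.Helper10.SignedLattice
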