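import Mathlib
import Pool.Agent.Helper10.SignedLattice
import Pool.Agent.Helper10.SignedCore
import Pool.Agent.Helper10.SignedTwo

/-!
# Irreducibility criterion: independent flips
-/

set_option autoImplicit false
set_option linter.unusedSectionVars false

namespace Pool.Agent.Helper10.SignedLattice

open Finset

section flip

variable {G X : Type*} [Group G] [Finite G] [Fintype X] [DecidableEq X] [MulAction G X]

/-- If one basic function lies in `U`, then every antisymmetric function supported in the orbit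
does. -/
theorem mem_of_ee_mem {ι : X → X} (hι : ∀ x, ι (ι x) = x)
    (hc : ∀ (g : G) x, ι (g • x) = g • ι x) (x0 : X)
    {U : AddSubgroup (X → ℤ)} (hU : IsRel G ι U)
    (x : X) (hx : x ∈ MulAction.orbit G x0) (hee : ee ι x ∈ U) (f : X → ℤ)
    (hf : ∀ x, f (ι x) = - f x) (hfY : ∀ x ∉ MulAction.orbit G x0, f x = 0) : f ∈ U := by
  have hall : ∀ z ∈ MulAction.orbit G x0, ee ι z ∈ U := by
    intro z hz
    rw [← MulAction.orbit_eq_iff.2 hx] at hz
    obtain ⟨g, hg⟩ := hz
    change g • x = z at hg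
    have : ee ι z = tr g (ee ι x) := by
      funext t
      rw [tr_apply]
      unfold ee
      have h1 : g⁻¹ • t = x ↔ t = z := by rw [inv_smul_eq_iff, hg]
      have h2 : g⁻¹ • t = ι x ↔ t = ι z := by rw [inv_smul_eq_iff, ← hc, hg]
      simp only [h1, h2]
    rw [this]
    exact hU.stable g _ hee
  refine hU.sat 2 two_ne_zero f ?_
  have h2 : (2 : ℤ) • f = ∑ z, f z • ee ι z := by
    funext t
    rw [Pi.smul_apply, Finset.sum_apply]
    simp only [Pi.smul_apply, smul_eq_mul, ee, mul_sub, mul_ite, mul_one, mul_zero,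
      Finset.sum_sub_distrib]
    have h3 : ∀ z, (t = ι z ↔ z = ι t) := fun z =>
      ⟨fun h => by rw [h, hι], fun h => by rw [h, hι]⟩
    simp only [h3]
    rw [Finset.sum_ite_eq, Finset.sum_ite_eq', if_pos (Finset.mem_univ _),
      if_pos (Finset.mem_univ _), hf]
    ring
  rw [h2]
  refine U.sum_mem fun z _ => ?_
  by_cases hz : z ∈ MulAction.orbit G x0
  · exact U.zsmul_mem (hall z hz) _
  · rw [hfY z hz, zero_smul]
    exact U.zero_mem

/-- An orbit in which any two pairs can be flipped independently is irreducible. -/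
theorem irred_flip {ι : X → X} (hι : ∀ x, ι (ι x) = x)
    (hc : ∀ (g : G) x, ι (g • x) = g • ι x) (hfix : ∀ x, ι x ≠ x) (x0 : X)
    (hflip : ∀ x ∈ MulAction.orbit G x0, ∀ y ∈ MulAction.orbit G x0, y ≠ x → y ≠ ι x →
      ∃ g : G, g • x = x ∧ g • y = ι y ∧ ∀ z ∈ MulAction.orbit G x0, g • z = z ∨ g • z = ι z) :
    Irred G ι (MulAction.orbit G x0) := by
  classical
  intro U hU hUY hU0 f hf hfY
  set Y := MulAction.orbit G x0 with hYdef
  have hYst : ∀ (g : G) (z : X), g • z ∈ Y ↔ z ∈ Y := smul_mem_orbit_iff' x0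
  obtain ⟨a, ha⟩ := AddSubgroup.ne_bot_iff_exists_ne_zero.1 hU0
  have haR : a.1 ∈ U := a.2
  have ha0 : a.1 ≠ 0 := fun h0 => ha (Subtype.ext h0)
  have hex : ∃ n : ℕ, ∃ f ∈ U, f ≠ 0 ∧ (Finset.univ.filter fun x => f x ≠ 0).card = n :=
    ⟨_, a.1, haR, ha0, rfl⟩
  obtain ⟨f1, hf1U, hf10, hf1n⟩ := Nat.find_spec hex
  have hmin : ∀ f' ∈ U, f' ≠ 0 → (Finset.univ.filter fun x => f1 x ≠ 0).card ≤
      (Finset.univ.filter fun x => f' x ≠ 0).card := by
    intro f' hf' hf'0
    rw [hf1n]
    exact Nat.find_min' hex ⟨f', hf', hf'0, rfl⟩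
  obtain ⟨x, hx0⟩ := Function.ne_iff.1 hf10
  rw [Pi.zero_apply] at hx0
  have hxY : x ∈ Y := by
    by_contra h
    exact hx0 (hUY f1 hf1U x h)
  have hzero : ∀ y, y ≠ x → y ≠ ι x → f1 y = 0 := by
    intro y hyx hyx'
    by_contra hy0
    have hyY : y ∈ Y := by
      by_contra h
      exact hy0 (hUY f1 hf1U y h)
    obtain ⟨g, hgx, hgy, hg⟩ := hflip x hxY y hyY hyx hyx'
    let f2 : X → ℤ := f1 - tr g f1
    have hf2U : f2 ∈ U := U.sub_mem hf1U (hU.stable g f1 hf1U)
    have hinv : ∀ z t : X, g • z = t → g⁻¹ • t = z := by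
      intro z t h
      rw [← h, inv_smul_smul]
    have hf2y : f2 y = 2 * f1 y := by
      have h1 : g • ι y = y := by rw [← hc, hgy, hι]
      simp only [f2, Pi.sub_apply, tr_apply]
      rw [hinv _ _ h1, hU.anti f1 hf1U]
      ring
    have hf2x : f2 x = 0 := by
      simp only [f2, Pi.sub_apply, tr_apply]
      rw [hinv _ _ hgx, sub_self]
    have hf20 : f2 ≠ 0 := by
      intro h
      rw [h, Pi.zero_apply] at hf2y
      apply hy0
      omega
    have hsub : (Finset.univ.filter fun x => f2 x ≠ 0) ⊂ (Finset.univ.filter fun x => f1 x ≠ 0) := by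
      refine ⟨?_, fun h => ?_⟩
      · intro z hz
        rw [Finset.mem_filter] at hz ⊢
        refine ⟨Finset.mem_univ _, fun hz0 => hz.2 ?_⟩
        by_cases hzY : z ∈ Y
        · rcases hg z hzY with h | h
          · simp only [f2, Pi.sub_apply, tr_apply]
            rw [hinv _ _ h, sub_self]
          · have h1 : g • ι z = z := by rw [← hc, h, hι]
            simp only [f2, Pi.sub_apply, tr_apply]
            rw [hinv _ _ h1, hU.anti f1 hf1U, hz0]
            norm_num
        · exact hUY f2 hf2U z hzY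
      · have h1 := h (Finset.mem_filter.2 ⟨Finset.mem_univ x, hx0⟩)
        exact (Finset.mem_filter.1 h1).2 hf2x
    exact absurd (hmin f2 hf2U hf20) (not_le.2 (Finset.card_lt_card hsub))
  have hee : ee ι x ∈ U := by
    refine hU.sat (f1 x) hx0 _ ?_
    have : f1 x • ee ι x = f1 := by
      funext z
      rw [Pi.smul_apply, smul_eq_mul]
      unfold ee
      by_cases h1 : z = x
      · rw [h1, if_pos rfl, if_neg (fun h => hfix x h.symm)]
        ring
      · by_cases h2 : z = ι x
        · rw [if_neg h1, if_pos h2, h2, hU.anti f1 hf1U]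
          ring
        · rw [if_neg h1, if_neg h2, hzero z h1 h2]
          ring
    rw [this]
    exact hf1U
  exact mem_of_ee_mem hι hc x0 hU x hxY hee f hf hfY

end flip

end Pool.Agent.Helper10.SignedLattice
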