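import Mathlib
import Pool.Agent.Helper10.SignedLattice
import Pool.Agent.Helper10.SignedCore
import Pool.Agent.Helper10.SignedTwo

/-!
# Irreducibility criterion for orbits of size `2 r`, `r` an odd prime
-/

set_option autoImplicit false
set_option linter.unusedSectionVars false

namespace Pool.Agent.Helper10.SignedLattice

open Finset

section prime

variable {G X : Type*} [Group G] [Finite G] [Fintype X] [DecidableEq X] [MulAction G X]

/-- An orbit of size `2 r`, `r` an odd prime, without an invariant pair of half-systems, is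
irreducible. -/
theorem irred_two_prime {ι : X → X} (hι : ∀ x, ι (ι x) = x)
    (hc : ∀ (g : G) x, ι (g • x) = g • ι x) (hfix : ∀ x, ι x ≠ x) (x0 : X)
    (horb : ι x0 ∈ MulAction.orbit G x0) (r : ℕ) [hr : Fact r.Prime] (hr2 : r ≠ 2)
    (hcard : Nat.card (MulAction.orbit G x0) = 2 * r)
    (hblock : ∀ Φ : Set X, Φ ⊆ MulAction.orbit G x0 →
      (∀ x ∈ MulAction.orbit G x0, ι x ∈ Φ ↔ x ∉ Φ) →
      ∃ g : G, (∃ x ∈ Φ, g • x ∈ Φ) ∧ (∃ x ∈ Φ, g • x ∉ Φ)) :
    Irred G ι (MulAction.orbit G x0) := by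
  classical
  intro U hU hUY hU0 f hf hfY
  by_contra hfU
  set Y := MulAction.orbit G x0 with hYdef
  have hYst : ∀ (g : G) (z : X), g • z ∈ Y ↔ z ∈ Y := smul_mem_orbit_iff' x0
  have hιY : ∀ z, ι z ∈ Y ↔ z ∈ Y := iota_mem_orbit_iff hι hc x0 horb
  obtain ⟨W, hW, hWY, hW0, hUW, hWfull⟩ := exists_orth hι hc Y hYst hιY hU hUY f hf hfY hfU
  obtain ⟨P⟩ : Nonempty (Sylow r G) := inferInstance
  have hr3 : 3 ≤ r := by
    have := hr.out.two_le
    omega
  have hrodd : Odd r := hr.out.odd_of_ne_two hr2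
  have hx0Y : x0 ∈ Y := MulAction.mem_orbit_self x0
  -- the orbits of `P` have size `r`
  have hcardP : Nat.card (MulAction.orbit P x0) = r := by
    have h1 := pow_factorization_dvd_orbit r P x0
    rw [hcard] at h1
    have h2 : (2 * r).factorization r = 1 := by
      rw [Nat.factorization_mul two_ne_zero hr.out.ne_zero, Finsupp.add_apply,
        hr.out.factorization_self, Nat.factorization_eq_zero_of_not_dvd]
      intro h
      exact hr2 ((Nat.prime_dvd_prime_iff_eq hr.out Nat.prime_two).1 h)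
    rw [h2, pow_one] at h1
    have hne : Nonempty (MulAction.orbit P x0) := ⟨⟨x0, MulAction.mem_orbit_self x0⟩⟩
    obtain ⟨n, hn⟩ := P.isPGroup'.card_orbit x0
    have hsub : MulAction.orbit P x0 ⊆ Y := by
      rintro _ ⟨g, rfl⟩
      exact (hYst (g : G) x0).2 hx0Y
    have h3 : Nat.card (MulAction.orbit P x0) ≤ 2 * r := by
      rw [← hcard, Nat.card_coe_set_eq, Nat.card_coe_set_eq]
      exact Set.ncard_le_ncard hsub (Set.toFinite Y)
    rw [hn] at h1 h3 ⊢
    have hn1 : n ≠ 0 := by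
      rintro rfl
      rw [pow_zero, Nat.dvd_one] at h1
      omega
    have hn2 : n < 2 := by
      by_contra h
      have h4 : r ^ 2 ≤ r ^ n := Nat.pow_le_pow_right (by omega) (by omega)
      nlinarith
    have : n = 1 := by omega
    rw [this, pow_one]
  let Φ : Finset X := Finset.univ.filter fun x => x ∈ MulAction.orbit P x0
  have hmemΦ : ∀ x, x ∈ Φ ↔ x ∈ MulAction.orbit P x0 := fun x => by simp [Φ]
  have hΦcard : Φ.card = r := by
    rw [← hcardP, Nat.card_coe_set_eq, ← Set.ncard_coe_finset]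
    congr 1
    ext x
    simp [Φ]
  have hΦY : ∀ x ∈ Φ, x ∈ Y := by
    intro x hx
    obtain ⟨g, rfl⟩ := (hmemΦ x).1 hx
    exact (hYst (g : G) x0).2 hx0Y
  have hΦst : ∀ g ∈ (P : Subgroup G), ∀ x, g • x ∈ Φ ↔ x ∈ Φ := by
    intro g hg x
    rw [hmemΦ, hmemΦ]
    exact smul_mem_orbit_iff' (G := P) x0 ⟨g, hg⟩ x
  have hιst : ∀ x ∈ Φ, ι x ∈ Φ → ∀ z ∈ Φ, ι z ∈ Φ := by
    intro x hx hιx z hz
    rw [hmemΦ] at hx hz
    rw [← MulAction.orbit_eq_iff.2 hx] at hz
    obtain ⟨g, hg⟩ := hz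
    have h1 : (g : G) • x = z := hg
    rw [← h1, hc]
    exact (hΦst g g.2 (ι x)).2 hιx
  have hnoι : ∀ x ∈ Φ, ι x ∉ Φ := by
    intro x hx hιx
    have h1 := hιst x hx hιx
    have h2 : ∑ x ∈ Φ, (1 : ZMod 2) = 0 := by
      refine Finset.sum_involution (fun a _ => ι a) (fun a _ => ?_) (fun a _ _ => hfix a)
        (fun a ha => h1 a ha) (fun a _ => hι a)
      rfl
    rw [Finset.sum_const, hΦcard, nsmul_eq_mul, mul_one] at h2
    have h3 := (ZMod.natCast_eq_zero_iff_even).1 h2
    exact (Nat.not_odd_iff_even.2 h3) hrodd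
  have hcover : ∀ x ∈ Y, x ∉ Φ → ι x ∈ Φ := by
    intro x hx hxΦ
    by_contra hιx
    have hdisj : Disjoint Φ (Φ.image ι) := by
      rw [Finset.disjoint_left]
      intro z hz hz2
      obtain ⟨t, ht, rfl⟩ := Finset.mem_image.1 hz2
      exact hnoι t ht hz
    have hc2 : (Φ ∪ Φ.image ι).card = 2 * r := by
      rw [Finset.card_union_of_disjoint hdisj, Finset.card_image_of_injective _
        (fun a b h => by rw [← hι a, h, hι]), hΦcard]
      ring
    have hYcard : Y.ncard = 2 * r := by rw [← hcard, Nat.card_coe_set_eq]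
    have hsub : ((Φ ∪ Φ.image ι : Finset X) : Set X) ⊆ Y := by
      intro z hz
      rw [Finset.mem_coe, Finset.mem_union] at hz
      rcases hz with hz | hz
      · exact hΦY z hz
      · obtain ⟨t, ht, rfl⟩ := Finset.mem_image.1 hz
        exact (hιY t).2 (hΦY t ht)
    have heq := Set.eq_of_subset_of_ncard_le hsub (by rw [hYcard, Set.ncard_coe_finset, hc2])
      (Set.toFinite Y)
    have hx2 : x ∈ ((Φ ∪ Φ.image ι : Finset X) : Set X) := by rw [heq]; exact hx
    rw [Finset.mem_coe, Finset.mem_union] at hx2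
    rcases hx2 with hz | hz
    · exact hxΦ hz
    · obtain ⟨t, ht, rfl⟩ := Finset.mem_image.1 hz
      rw [hι] at hιx
      exact hιx ht
  have hΦι : ∀ x ∈ Y, ι x ∈ Φ ↔ x ∉ Φ := by
    intro x hx
    exact ⟨fun h h2 => hnoι x h2 h, hcover x hx⟩
  -- the function `e`
  let e : X → ℤ := fun x => if x ∈ Φ then 1 else if x ∈ Y then -1 else 0
  have he1 : ∀ x ∈ Φ, e x = 1 := fun x hx => if_pos hx
  have he2 : ∀ x ∈ Y, x ∉ Φ → e x = -1 := by
    intro x hx hx2
    simp only [e, if_neg hx2, if_pos hx]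
  have he3 : ∀ x ∉ Y, e x = 0 := by
    intro x hx
    simp only [e, if_neg hx, if_neg (fun h => hx (hΦY x h))]
  have heanti : ∀ x, e (ι x) = - e x := by
    intro x
    by_cases hx : x ∈ Y
    · by_cases hx2 : x ∈ Φ
      · rw [he1 x hx2, he2 (ι x) ((hιY x).2 hx) (hnoι x hx2)]
      · rw [he2 x hx hx2, he1 (ι x) (hcover x hx hx2)]
        norm_num
    · rw [he3 x hx, he3 (ι x) (fun h => hx ((hιY x).1 h))]
      norm_num
  have heP : ∀ g ∈ (P : Subgroup G), ∀ x, e (g • x) = e x := by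
    intro g hg x
    simp only [e, hΦst g hg, hYst g]
  -- sums over everything are twice the sums over `Φ`
  have hsum2 : ∀ F : X → ℤ, (∀ x, F (ι x) = F x) → (∀ x ∉ Y, F x = 0) →
      ∑ x, F x = 2 * ∑ x ∈ Φ, F x := by
    intro F hFι hFY
    have h1 : ∑ x, F x = ∑ x ∈ Φ, F x + ∑ x ∈ Φᶜ, F x := (Finset.sum_add_sum_compl Φ F).symm
    have h2 : ∑ x ∈ Φᶜ, F x = ∑ x ∈ Φᶜ.filter (fun x => x ∈ Y), F x := by
      refine (Finset.sum_subset (Finset.filter_subset _ _) ?_).symm
      intro x hx hx2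
      exact hFY x (fun h => hx2 (Finset.mem_filter.2 ⟨hx, h⟩))
    have h3 : ∑ x ∈ Φᶜ.filter (fun x => x ∈ Y), F x = ∑ x ∈ Φ, F x := by
      refine Finset.sum_bij' (fun x _ => ι x) (fun x _ => ι x) ?_ ?_ ?_ ?_ ?_
      · intro x hx
        rw [Finset.mem_filter, Finset.mem_compl] at hx
        exact (hΦι x hx.2).2 hx.1
      · intro x hx
        rw [Finset.mem_filter, Finset.mem_compl]
        have hxY := hΦY x hx
        exact ⟨hnoι x hx, (hιY x).2 hxY⟩
      · intro x _; exact hι x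
      · intro x _; exact hι x
      · intro x _; exact (hFι x).symm
    rw [h1, h2, h3]
    ring
  -- the main contradiction
  have hmain : ∀ A B : AddSubgroup (X → ℤ), IsRel G ι A → IsRel G ι B →
      (∀ f ∈ B, ∀ x ∉ Y, f x = 0) → B ≠ ⊥ → (∀ a ∈ A, ∀ b ∈ B, ∑ x, a x * b x = 0) →
      e ∈ A → False := by
    intro A B hA hB hBY hB0 hAB heA
    obtain ⟨w, hw, hinv, x1, hx1⟩ := exists_fixed_mod hB hB0 r (P : Subgroup G) P.isPGroup'
    have hwΦ : ∀ x ∈ Φ, ((w x : ℤ) : ZMod r) = (w x0 : ZMod r) := by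
      intro x hx
      obtain ⟨g, rfl⟩ := (hmemΦ x).1 hx
      have h1 := hinv (g : G) g.2 ((g : G) • x0)
      rw [inv_smul_smul] at h1
      exact h1.symm
    have hc0 : ((w x0 : ℤ) : ZMod r) ≠ 0 := by
      intro h0
      apply hx1
      by_cases hxY : x1 ∈ Y
      · by_cases hx : x1 ∈ Φ
        · rw [hwΦ x1 hx, h0]
        · have h1 := hwΦ (ι x1) (hcover x1 hxY hx)
          rw [hB.anti w hw, h0, Int.cast_neg, neg_eq_zero] at h1
          exact h1
      · rw [hBY w hw x1 hxY, Int.cast_zero]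
    obtain ⟨g, ⟨a, haΦ, hga⟩, ⟨b, hbΦ, hgb⟩⟩ := hblock (Φ : Set X)
      (fun x hx => hΦY x (by exact_mod_cast hx)) (fun x hx => by
        have := hΦι x hx
        exact_mod_cast this)
    have haΦ' : a ∈ Φ := by exact_mod_cast haΦ
    have hga' : g • a ∈ Φ := by exact_mod_cast hga
    have hbΦ' : b ∈ Φ := by exact_mod_cast hbΦ
    have hgb' : g • b ∉ Φ := by exact_mod_cast hgb
    have h1 := hAB _ (hA.stable g⁻¹ e heA) w hw
    simp only [tr_apply, inv_inv] at h1
    rw [hsum2 (fun x => e (g • x) * w x) (fun x => ?_) (fun x hx => ?_)] at h1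
    · have h2 : ∑ x ∈ Φ, e (g • x) * w x = 0 := by omega
      have h3 : (((∑ x ∈ Φ, e (g • x) * w x : ℤ)) : ZMod r) =
          (w x0 : ZMod r) * ((∑ x ∈ Φ, e (g • x) : ℤ) : ZMod r) := by
        rw [Int.cast_sum, Int.cast_sum, Finset.mul_sum]
        refine Finset.sum_congr rfl fun x hx => ?_
        rw [Int.cast_mul, hwΦ x hx, mul_comm]
      rw [h2, Int.cast_zero] at h3
      have h4 := (mul_eq_zero.1 h3.symm).resolve_left hc0
      rw [ZMod.intCast_zmod_eq_zero_iff_dvd] at h4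
      -- count
      let m := (Φ.filter (fun x => g • x ∉ Φ)).card
      have h5 : ∑ x ∈ Φ, e (g • x) = r - 2 * m := by
        have h6 : ∀ x ∈ Φ, e (g • x) = 1 - 2 * (if g • x ∉ Φ then 1 else 0) := by
          intro x hx
          by_cases h : g • x ∈ Φ
          · rw [he1 _ h, if_neg (fun h' => h' h)]; norm_num
          · rw [he2 _ ((hYst g x).2 (hΦY x hx)) h, if_pos h]; norm_num
        rw [Finset.sum_congr rfl h6, Finset.sum_sub_distrib, ← Finset.mul_sum, Finset.sum_const,
          hΦcard, ← Finset.natCast_card_filter]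
        simp [m]
      rw [h5] at h4
      have h7 : (r : ℤ) ∣ 2 * (m : ℤ) := by
        have h10 := dvd_sub (dvd_refl (r : ℤ)) h4
        rwa [sub_sub_cancel] at h10
      have h8 : r ∣ 2 * m := by exact_mod_cast h7
      have h9 : r ∣ m := by
        rcases (Nat.Prime.dvd_mul hr.out).1 h8 with h | h
        · exact absurd ((Nat.prime_dvd_prime_iff_eq hr.out Nat.prime_two).1 h) hr2
        · exact h
      have hm1 : 0 < m := Finset.card_pos.2 ⟨b, Finset.mem_filter.2 ⟨hbΦ', hgb'⟩⟩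
      have hm2 : m < r := by
        rw [← hΦcard]
        refine Finset.card_lt_card ⟨Finset.filter_subset _ _, fun h => ?_⟩
        exact (Finset.mem_filter.1 (h haΦ')).2 hga'
      exact absurd (Nat.le_of_dvd hm1 h9) (by omega)
    · rw [← hc, heanti, hB.anti w hw]; ring
    · rw [hBY w hw x hx, mul_zero]
  by_cases hcase : ∃ f ∈ U, ∑ x, f x * e x ≠ 0
  · -- `e ∈ U`
    obtain ⟨f1, hf1, hf1e⟩ := hcase
    refine hmain U W hU hW hWY hW0 hUW ?_
    have : Fintype P := Fintype.ofFinite P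
    let h : X → ℤ := ∑ g : P, tr (g : G) f1
    have hhU : h ∈ U := U.sum_mem fun g _ => hU.stable _ f1 hf1
    have hhapp : ∀ x, h x = ∑ g : P, f1 ((g : G)⁻¹ • x) := by
      intro x
      simp only [h, Finset.sum_apply, tr_apply]
    have hhinv : ∀ g ∈ (P : Subgroup G), ∀ x, h (g • x) = h x := by
      intro g hg x
      rw [hhapp, hhapp]
      refine Fintype.sum_equiv (Equiv.mulLeft (⟨g, hg⟩ : P)⁻¹) _ _ fun a => ?_
      simp [mul_smul]
    have hhe : h = (h x0) • e := by
      funext x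
      rw [Pi.smul_apply, smul_eq_mul]
      have hΦx : ∀ x ∈ Φ, h x = h x0 := by
        intro x hx
        obtain ⟨g, rfl⟩ := (hmemΦ x).1 hx
        exact hhinv g g.2 x0
      by_cases hx : x ∈ Y
      · by_cases hx2 : x ∈ Φ
        · rw [he1 x hx2, mul_one, hΦx x hx2]
        · rw [he2 x hx hx2]
          have h1 := hΦx (ι x) (hcover x hx hx2)
          rw [hU.anti h hhU] at h1
          omega
      · rw [he3 x hx, mul_zero, hUY h hhU x hx]
    have hh0 : h x0 ≠ 0 := by
      intro h0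
      rw [h0, zero_smul] at hhe
      have h1 : ∑ x, h x * e x = (Fintype.card P) * ∑ x, f1 x * e x := by
        simp_rw [hhapp, Finset.sum_mul]
        rw [Finset.sum_comm]
        have h2 : ∀ g : P, ∑ x, f1 ((g : G)⁻¹ • x) * e x = ∑ x, f1 x * e x := by
          intro g
          refine Fintype.sum_equiv (MulAction.toPerm (g : G)⁻¹) _ _ fun x => ?_
          rw [MulAction.toPerm_apply, heP _ (inv_mem g.2)]
        simp_rw [h2]
        rw [Finset.sum_const, Finset.card_univ, nsmul_eq_mul]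
      rw [hhe] at h1
      simp only [Pi.zero_apply, zero_mul, Finset.sum_const_zero] at h1
      have h3 : (Fintype.card P : ℤ) ≠ 0 := by exact_mod_cast Fintype.card_ne_zero
      exact hf1e ((mul_eq_zero.1 h1.symm).resolve_left h3)
    refine hU.sat (h x0) hh0 e ?_
    rw [← hhe]
    exact hhU
  · push Not at hcase
    refine hmain W U hW hU hUY hU0 (fun a ha b hb => ?_) (hWfull e heanti he3 hcase)
    rw [← hUW b hb a ha]
    exact Finset.sum_congr rfl fun x _ => mul_comm _ _

end prime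

end Pool.Agent.Helper10.SignedLattice
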