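import Mathlib
import Pool.Agent.Helper10.SignedLattice
import Pool.Agent.Helper10.SignedCore
import Pool.Agent.Helper10.SignedTwo
import Pool.Agent.Helper10.SignedPrime
import Pool.Agent.Helper10.SignedFlip
import Pool.Agent.Helper10.DiscSquare

/-!
# Multiplicative relations between Weil numbers of several weights inside a Galois extension
-/

set_option autoImplicit false
set_option linter.unusedSectionVars false

namespace Pool.Agent.Helper10.Frob2

open Polynomial Finset IntermediateField Pool.Agent.Helper10.SignedLattice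

/-- A finite Galois stable set of elements, closed under `z ↦ Q z / z`, such that `z` and `Q z / z`
are conjugate and no `z ^ 2 / Q z` is a root of unity. -/
structure FrobData (k S : Type*) [Field k] [Field S] [Algebra k S] where
  carrier : Finset S
  Q : S → ℕ
  stable : ∀ σ : S ≃ₐ[k] S, ∀ z ∈ carrier, σ z ∈ carrier
  ne0 : ∀ z ∈ carrier, z ≠ 0
  Q0 : ∀ z ∈ carrier, (Q z : S) ≠ 0
  Qstable : ∀ σ : S ≃ₐ[k] S, ∀ z ∈ carrier, Q (σ z) = Q z
  Qinv : ∀ z ∈ carrier, Q ((Q z : S) / z) = Q z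
  minpoly_inv : ∀ z ∈ carrier, minpoly k ((Q z : S) / z) = minpoly k z
  nontors : ∀ z ∈ carrier, ∀ m : ℕ, 0 < m → z ^ (2 * m) ≠ (Q z : S) ^ m
  inv : ∀ z ∈ carrier, (Q z : S) / z ∈ carrier

namespace FrobData

variable {k S : Type*} [Field k] [Field S] [Algebra k S] (D : FrobData k S)

/-- The elements as a type. -/
def T : Type _ := {z : S // z ∈ D.carrier}

noncomputable instance : Fintype D.T := inferInstanceAs (Fintype {z : S // z ∈ D.carrier})

noncomputable instance : DecidableEq D.T := Classical.decEq _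

instance : MulAction (S ≃ₐ[k] S) D.T where
  smul σ z := ⟨σ z.1, D.stable σ z.1 z.2⟩
  one_smul _ := rfl
  mul_smul _ _ _ := rfl

theorem smul_val (σ : S ≃ₐ[k] S) (z : D.T) : (σ • z).1 = σ z.1 := rfl

/-- The involution. -/
def iota (z : D.T) : D.T := ⟨(D.Q z.1 : S) / z.1, D.inv z.1 z.2⟩

theorem iota_val (z : D.T) : (D.iota z).1 = (D.Q z.1 : S) / z.1 := rfl

theorem iota_iota (z : D.T) : D.iota (D.iota z) = z := by
  apply Subtype.ext
  rw [iota_val, iota_val]
  have h1 := D.ne0 z.1 z.2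
  have h2 := D.Q0 z.1 z.2
  rw [D.Qinv z.1 z.2]
  field_simp

theorem iota_smul (σ : S ≃ₐ[k] S) (z : D.T) : D.iota (σ • z) = σ • D.iota z := by
  apply Subtype.ext
  rw [iota_val, smul_val, smul_val, iota_val, map_div₀, map_natCast, D.Qstable σ z.1 z.2]

theorem iota_ne (z : D.T) : D.iota z ≠ z := by
  intro h
  have h1 := congrArg Subtype.val h
  rw [iota_val] at h1
  have h2 := D.ne0 z.1 z.2
  refine D.nontors z.1 z.2 1 one_pos ?_
  rw [pow_one, mul_one, sq]
  rw [div_eq_iff h2] at h1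
  exact h1.symm

theorem Q_orbit (x y : D.T) (hy : y ∈ MulAction.orbit (S ≃ₐ[k] S) x) : D.Q y.1 = D.Q x.1 := by
  obtain ⟨σ, rfl⟩ := hy
  exact D.Qstable σ x.1 x.2

theorem Q_iota (x : D.T) : D.Q (D.iota x).1 = D.Q x.1 := D.Qinv x.1 x.2

section galois

variable [FiniteDimensional k S] [IsGalois k S]

theorem mem_orbit_iff (x y : D.T) : y ∈ MulAction.orbit (S ≃ₐ[k] S) x ↔
    minpoly k y.1 = minpoly k x.1 := by
  rw [Normal.minpoly_eq_iff_mem_orbit]
  constructor
  · rintro ⟨σ, hσ⟩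
    exact ⟨σ, congrArg Subtype.val hσ⟩
  · rintro ⟨σ, hσ⟩
    exact ⟨σ, Subtype.ext hσ⟩

theorem iota_mem_orbit (x : D.T) : D.iota x ∈ MulAction.orbit (S ≃ₐ[k] S) x :=
  (D.mem_orbit_iff x (D.iota x)).2 (D.minpoly_inv x.1 x.2)

theorem mem_carrier_of_root (x : D.T) (w : S) (hw : aeval w (minpoly k x.1) = 0) : w ∈ D.carrier := by
  have h1 : minpoly k w = minpoly k x.1 :=
    (minpoly.eq_of_irreducible_of_monic (minpoly.irreducible (Algebra.IsIntegral.isIntegral x.1)) hw
      (minpoly.monic (Algebra.IsIntegral.isIntegral x.1))).symm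
  obtain ⟨σ, hσ⟩ := (Normal.minpoly_eq_iff_mem_orbit S).1 h1
  change σ x.1 = w at hσ
  rw [← hσ]
  exact D.stable σ x.1 x.2

theorem minpoly_map (x : D.T) [Fintype (MulAction.orbit (S ≃ₐ[k] S) x)] :
    (minpoly k x.1).map (algebraMap k S) =
      ∏ i : MulAction.orbit (S ≃ₐ[k] S) x, (X - C (i.1.1 : S)) := by
  classical
  have hint : IsIntegral k x.1 := Algebra.IsIntegral.isIntegral x.1
  have hmonic : ((minpoly k x.1).map (algebraMap k S)).Monic := (minpoly.monic hint).map _
  have hsplits : ((minpoly k x.1).map (algebraMap k S)).Splits := Normal.splits inferInstance x.1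
  have hnodup : ((minpoly k x.1).map (algebraMap k S)).roots.Nodup :=
    nodup_roots (Separable.map (Algebra.IsSeparable.isSeparable k x.1))
  have hroots : ((minpoly k x.1).map (algebraMap k S)).roots =
      (Finset.univ : Finset (MulAction.orbit (S ≃ₐ[k] S) x)).val.map (fun i => (i.1.1 : S)) := by
    refine (Multiset.Nodup.ext hnodup ?_).2 ?_
    · refine Multiset.Nodup.map ?_ (Finset.univ : Finset (MulAction.orbit (S ≃ₐ[k] S) x)).nodup
      intro a b h
      exact Subtype.ext (Subtype.ext h)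
    · intro w
      rw [mem_roots hmonic.ne_zero, Multiset.mem_map, IsRoot.def, eval_map_algebraMap]
      constructor
      · intro hw
        have hwX := D.mem_carrier_of_root x w hw
        refine ⟨⟨⟨w, hwX⟩, (D.mem_orbit_iff x ⟨w, hwX⟩).2 ?_⟩, Finset.mem_univ _, rfl⟩
        exact (minpoly.eq_of_irreducible_of_monic (minpoly.irreducible hint) hw
          (minpoly.monic hint)).symm
      · rintro ⟨i, -, rfl⟩
        have h1 := (D.mem_orbit_iff x i.1).1 i.2
        rw [← h1]
        exact minpoly.aeval k i.1.1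
  rw [hsplits.eq_prod_roots_of_monic hmonic, hroots, Multiset.map_map]
  rfl

theorem card_orbit (x : D.T) :
    Nat.card (MulAction.orbit (S ≃ₐ[k] S) x) = (minpoly k x.1).natDegree := by
  have : Fintype (MulAction.orbit (S ≃ₐ[k] S) x) := Fintype.ofFinite _
  have h1 := congrArg natDegree (D.minpoly_map x)
  rw [natDegree_prod_of_monic _ _ fun j _ => monic_X_sub_C _,
    natDegree_map_eq_of_injective (algebraMap k S).injective] at h1
  simp only [natDegree_X_sub_C, sum_const, card_univ, smul_eq_mul, mul_one] at h1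
  rw [h1, Nat.card_eq_fintype_card]

/-- Criterion (a): 2-power degree and nonsquare discriminant. -/
theorem irred_a (x : D.T) (j : ℕ) (hdeg : (minpoly k x.1).natDegree = 2 ^ j)
    (hdisc : ¬ IsSquare (discr (minpoly k x.1))) :
    Irred (S ≃ₐ[k] S) D.iota (MulAction.orbit (S ≃ₐ[k] S) x) := by
  classical
  have : Fintype (MulAction.orbit (S ≃ₐ[k] S) x) := Fintype.ofFinite _
  have hint : IsIntegral k x.1 := Algebra.IsIntegral.isIntegral x.1
  have hex : ∃ σ : S ≃ₐ[k] S, Equiv.Perm.sign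
      (MulAction.toPerm σ : Equiv.Perm (MulAction.orbit (S ≃ₐ[k] S) x)) = -1 := by
    by_contra hcon
    push Not at hcon
    refine hdisc (Pool.Agent.Helper10.DiscSquare.isSquare_discr (minpoly k x.1)
      (minpoly.monic hint) (minpoly.degree_pos hint)
      (fun i : MulAction.orbit (S ≃ₐ[k] S) x => (i.1.1 : S)) (fun σ i => rfl)
      (D.minpoly_map x) fun σ => ?_)
    exact (Int.units_eq_one_or _).resolve_right (hcon σ)
  obtain ⟨σ, hσ⟩ := hex
  exact irred_two_pow D.iota_iota D.iota_smul x (D.iota_mem_orbit x) j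
    (by rw [D.card_orbit, hdeg]) σ
    (oddFlip_of_sign D.iota_iota D.iota_smul x (D.iota_mem_orbit x) σ hσ)

/-- If the field generated by `x` contains no quadratic field, then the half-systems are not
blocks. -/
theorem exists_mix (x : D.T)
    (hquad : ∀ L : IntermediateField k S, L ≤ k⟮x.1⟯ → Module.finrank k L ≠ 2)
    (Φ : Set D.T) (hΦ : Φ ⊆ MulAction.orbit (S ≃ₐ[k] S) x)
    (hΦι : ∀ z ∈ MulAction.orbit (S ≃ₐ[k] S) x, D.iota z ∈ Φ ↔ z ∉ Φ) :
    ∃ g : S ≃ₐ[k] S, (∃ z ∈ Φ, g • z ∈ Φ) ∧ (∃ z ∈ Φ, g • z ∉ Φ) := by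
  classical
  by_contra hcon
  have hdich : ∀ g : S ≃ₐ[k] S, (∃ z ∈ Φ, g • z ∈ Φ) → ∀ z ∈ Φ, g • z ∈ Φ := by
    intro g hg z hz
    by_contra h
    exact hcon ⟨g, hg, z, hz, h⟩
  have horbst : ∀ (g : S ≃ₐ[k] S) (z : D.T), g • z ∈ MulAction.orbit (S ≃ₐ[k] S) x ↔
      z ∈ MulAction.orbit (S ≃ₐ[k] S) x := smul_mem_orbit_iff' x
  -- a base point in `Φ`
  obtain ⟨z0, hz0, hz0x⟩ : ∃ z0 ∈ Φ, z0 = x ∨ z0 = D.iota x := by
    by_cases h : x ∈ Φ
    · exact ⟨x, h, Or.inl rfl⟩
    · exact ⟨D.iota x, (hΦι x (MulAction.mem_orbit_self x)).2 h, Or.inr rfl⟩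
  have hz0Y : z0 ∈ MulAction.orbit (S ≃ₐ[k] S) x := hΦ hz0
  -- the subgroup
  let H : Subgroup (S ≃ₐ[k] S) :=
    { carrier := {g | ∀ z ∈ Φ, g • z ∈ Φ}
      one_mem' := fun z hz => by rw [one_smul]; exact hz
      mul_mem' := fun {a b} ha hb z hz => by rw [mul_smul]; exact ha _ (hb z hz)
      inv_mem' := fun {a} ha => by
        refine hdich a⁻¹ ⟨a • z0, ha z0 hz0, ?_⟩
        rw [inv_smul_smul]
        exact hz0 }
  have hH : ∀ g, g ∈ H ↔ ∀ z ∈ Φ, g • z ∈ Φ := fun _ => Iff.rfl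
  -- an element outside
  obtain ⟨g0, hg0⟩ : ∃ g0 : S ≃ₐ[k] S, g0 • z0 = D.iota z0 := by
    have h1 : D.iota z0 ∈ MulAction.orbit (S ≃ₐ[k] S) z0 := D.iota_mem_orbit z0
    exact h1
  have hindex : H.index = 2 := by
    rw [Subgroup.index_eq_two_iff]
    refine ⟨g0, fun b => ?_⟩
    have hb1 : (b * g0) • z0 = D.iota (b • z0) := by rw [mul_smul, hg0, D.iota_smul]
    have hbz : b • z0 ∈ MulAction.orbit (S ≃ₐ[k] S) x := (horbst b z0).2 hz0Y
    by_cases hb : b ∈ H
    · refine Or.inr ⟨hb, fun h => ?_⟩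
      have h1 := (hH _).1 h z0 hz0
      rw [hb1] at h1
      exact (hΦι _ hbz).1 h1 ((hH b).1 hb z0 hz0)
    · refine Or.inl ⟨?_, hb⟩
      have h2 : b • z0 ∉ Φ := by
        intro h
        exact hb ((hH b).2 (hdich b ⟨z0, hz0, h⟩))
      refine (hH _).2 (hdich _ ⟨z0, hz0, ?_⟩)
      rw [hb1]
      exact (hΦι _ hbz).2 h2
  -- the quadratic field
  have hfin : Module.finrank k (fixedField H) = 2 := by
    have h1 : Module.finrank k (fixedField H) * Module.finrank (fixedField H) S =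
      Module.finrank k S := Module.finrank_mul_finrank k (fixedField H) S
    rw [IntermediateField.finrank_fixedField_eq_card, ← IsGalois.card_aut_eq_finrank k S,
      ← Subgroup.index_mul_card H, hindex] at h1
    have h2 : Nat.card H ≠ 0 := Nat.card_pos.ne'
    exact Nat.eq_of_mul_eq_mul_right (Nat.pos_of_ne_zero h2) h1
  refine hquad (fixedField H) ?_ hfin
  have hle : fixedField H ≤ k⟮z0.1⟯ := by
    rw [← IsGalois.fixedField_fixingSubgroup k⟮z0.1⟯]
    intro w hw
    rw [mem_fixedField_iff] at hw ⊢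
    intro g hg
    refine hw g ?_
    have h1 : g z0.1 = z0.1 := by
      have := (IntermediateField.mem_fixingSubgroup_iff _ _).1 hg z0.1
        (IntermediateField.mem_adjoin_simple_self k z0.1)
      exact this
    have h2 : g • z0 = z0 := Subtype.ext h1
    exact (hH g).2 (hdich g ⟨z0, hz0, by rw [h2]; exact hz0⟩)
  refine hle.trans ?_
  rcases hz0x with h | h
  · rw [h]
  · rw [h, iota_val]
    rw [IntermediateField.adjoin_simple_le_iff]
    refine div_mem ?_ (IntermediateField.mem_adjoin_simple_self k x.1)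
    exact IntermediateField.natCast_mem _ _

/-- Criterion (b): degree twice an odd prime and no quadratic subfield. -/
theorem irred_b (x : D.T) (r : ℕ) (hr : r.Prime) (hr2 : r ≠ 2)
    (hdeg : (minpoly k x.1).natDegree = 2 * r)
    (hquad : ∀ L : IntermediateField k S, L ≤ k⟮x.1⟯ → Module.finrank k L ≠ 2) :
    Irred (S ≃ₐ[k] S) D.iota (MulAction.orbit (S ≃ₐ[k] S) x) := by
  have hfact : Fact r.Prime := ⟨hr⟩
  exact irred_two_prime D.iota_iota D.iota_smul D.iota_ne x (D.iota_mem_orbit x) r hr2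
    (by rw [D.card_orbit, hdeg]) fun Φ hΦ hΦι => D.exists_mix x hquad Φ hΦ hΦι

/-- Criterion (c): independent flips. -/
theorem irred_c (x : D.T)
    (hflip : ∀ y z : S, aeval y (minpoly k x.1) = 0 → aeval z (minpoly k x.1) = 0 → z ≠ y →
      z ≠ (D.Q x.1 : S) / y → z ∉ IntermediateField.adjoin k
        (insert y {t | ∃ u : S, aeval u (minpoly k x.1) = 0 ∧ t = u + (D.Q x.1 : S) / u})) :
    Irred (S ≃ₐ[k] S) D.iota (MulAction.orbit (S ≃ₐ[k] S) x) := by
  classical
  have horbroot : ∀ y ∈ MulAction.orbit (S ≃ₐ[k] S) x, aeval y.1 (minpoly k x.1) = 0 := by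
    intro y hy
    rw [← (D.mem_orbit_iff x y).1 hy]
    exact minpoly.aeval k y.1
  refine irred_flip D.iota_iota D.iota_smul D.iota_ne x ?_
  intro y hy z hz hzy hzy'
  have h1 := hflip y.1 z.1 (horbroot y hy) (horbroot z hz) (fun h => hzy (Subtype.ext h))
    (fun h => hzy' (Subtype.ext (by rw [iota_val, D.Q_orbit x y hy]; exact h)))
  set L := IntermediateField.adjoin k
    (insert y.1 {t | ∃ u : S, aeval u (minpoly k x.1) = 0 ∧ t = u + (D.Q x.1 : S) / u}) with hL
  rw [← IsGalois.fixedField_fixingSubgroup L, mem_fixedField_iff] at h1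
  push Not at h1
  obtain ⟨g, hg, hgz⟩ := h1
  have hfix : ∀ t ∈ L, g t = t := fun t ht =>
    (IntermediateField.mem_fixingSubgroup_iff _ _).1 hg t ht
  have hpair : ∀ w ∈ MulAction.orbit (S ≃ₐ[k] S) x, g • w = w ∨ g • w = D.iota w := by
    intro w hw
    have h2 : g (w.1 + (D.Q x.1 : S) / w.1) = w.1 + (D.Q x.1 : S) / w.1 :=
      hfix _ (subset_adjoin k _ (Set.mem_insert_of_mem _ ⟨w.1, horbroot w hw, rfl⟩))
    rw [map_add, map_div₀, map_natCast] at h2
    have hw0 := D.ne0 w.1 w.2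
    have hgw0 : g w.1 ≠ 0 := (map_ne_zero g).2 hw0
    have h3 : (g w.1 - w.1) * (g w.1 - (D.Q x.1 : S) / w.1) = 0 := by
      field_simp at h2 ⊢
      linear_combination h2
    rcases mul_eq_zero.1 h3 with h | h
    · exact Or.inl (Subtype.ext (sub_eq_zero.1 h))
    · refine Or.inr (Subtype.ext ?_)
      rw [iota_val, D.Q_orbit x w hw]
      exact sub_eq_zero.1 h
  refine ⟨g, ?_, ?_, hpair⟩
  · exact Subtype.ext (hfix _ (subset_adjoin k _ (Set.mem_insert _ _)))
  · exact (hpair z hz).resolve_left (fun h => hgz (congrArg Subtype.val h))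


end galois

/-- `z ^ 2 / Q z`. -/
def uu (x : D.T) : S := x.1 ^ 2 / (D.Q x.1 : S)

theorem uu_ne (x : D.T) : D.uu x ≠ 0 :=
  div_ne_zero (pow_ne_zero _ (D.ne0 x.1 x.2)) (D.Q0 x.1 x.2)

theorem uu_iota (x : D.T) : D.uu (D.iota x) = (D.uu x)⁻¹ := by
  unfold uu
  rw [D.Q_iota, iota_val]
  have h1 := D.ne0 x.1 x.2
  have h2 := D.Q0 x.1 x.2
  field_simp

theorem uu_smul (σ : S ≃ₐ[k] S) (x : D.T) : D.uu (σ • x) = σ (D.uu x) := by
  unfold uu
  rw [smul_val, map_div₀, map_pow, map_natCast, D.Qstable σ x.1 x.2]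

/-- Multiplicative relations, up to torsion. -/
def relGroup : AddSubgroup (D.T → ℤ) where
  carrier := {f | (∀ x, f (D.iota x) = - f x) ∧ ∃ m : ℤ, m ≠ 0 ∧ ∏ x, D.uu x ^ (m * f x) = 1}
  zero_mem' := ⟨fun _ => by simp, 1, one_ne_zero, by simp⟩
  add_mem' := by
    rintro a b ⟨ha, m, hm, hma⟩ ⟨hb, n, hn, hnb⟩
    refine ⟨fun x => ?_, m * n, mul_ne_zero hm hn, ?_⟩
    · simp only [Pi.add_apply, ha, hb]; ring
    · have h1 : ∀ x, D.uu x ^ (m * n * (a + b) x) =
          (D.uu x ^ (m * a x)) ^ n * (D.uu x ^ (n * b x)) ^ m := by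
        intro x
        rw [← zpow_mul, ← zpow_mul, ← zpow_add₀ (D.uu_ne x), Pi.add_apply]
        congr 1
        ring
      simp_rw [h1]
      rw [Finset.prod_mul_distrib, Finset.prod_zpow, Finset.prod_zpow, hma, hnb, one_zpow,
        one_zpow, one_mul]
  neg_mem' := by
    rintro a ⟨ha, m, hm, hma⟩
    refine ⟨fun x => ?_, m, hm, ?_⟩
    · simp only [Pi.neg_apply, ha]
    · have h1 : ∀ x, D.uu x ^ (m * (-a) x) = (D.uu x ^ (m * a x))⁻¹ := by
        intro x
        rw [← zpow_neg, Pi.neg_apply]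
        congr 1
        ring
      simp_rw [h1]
      rw [Finset.prod_inv_distrib, hma, inv_one]

theorem mem_relGroup (f : D.T → ℤ) : f ∈ D.relGroup ↔ (∀ x, f (D.iota x) = - f x) ∧
    ∃ m : ℤ, m ≠ 0 ∧ ∏ x, D.uu x ^ (m * f x) = 1 := Iff.rfl

theorem isRel_relGroup : IsRel (S ≃ₐ[k] S) D.iota D.relGroup where
  anti f hf := hf.1
  stable g f hf := by
    obtain ⟨h1, m, hm, h2⟩ := hf
    refine (D.mem_relGroup _).2 ⟨fun x => ?_, m, hm, ?_⟩
    · rw [tr_apply, tr_apply, ← D.iota_smul, h1]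
    · have h3 := congrArg g h2
      rw [map_prod, map_one] at h3
      rw [← h3]
      refine Fintype.prod_equiv (MulAction.toPerm g⁻¹) _ _ fun x => ?_
      rw [MulAction.toPerm_apply, map_zpow₀, ← D.uu_smul, smul_inv_smul, tr_apply]
  sat n hn f hf := by
    obtain ⟨h1, m, hm, h2⟩ := hf
    refine (D.mem_relGroup _).2 ⟨fun x => ?_, m * n, mul_ne_zero hm hn, ?_⟩
    · have := h1 x
      simp only [Pi.smul_apply, smul_eq_mul] at this
      apply mul_left_cancel₀ hn
      rw [this]; ring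
    · rw [← h2]
      refine Finset.prod_congr rfl fun x _ => ?_
      rw [Pi.smul_apply, smul_eq_mul, mul_assoc]

theorem prod_ee (z : D.T) (m : ℤ) : ∏ x, D.uu x ^ (m * ee D.iota z x) = D.uu z ^ (m + m) := by
  have h3 : ∀ x, D.uu x ^ (m * ee D.iota z x) =
      (if x = z then D.uu x ^ m else 1) * (if x = D.iota z then D.uu x ^ (-m) else 1) := by
    intro x
    unfold ee
    by_cases hx1 : x = z
    · have hx2 : x ≠ D.iota z := by
        rw [hx1]
        exact (D.iota_ne z).symm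
      rw [if_pos hx1, if_neg hx2, if_pos hx1, if_neg hx2]
      simp
    · by_cases hx2 : x = D.iota z
      · rw [if_neg hx1, if_pos hx2, if_neg hx1, if_pos hx2]
        simp
      · rw [if_neg hx1, if_neg hx2, if_neg hx1, if_neg hx2]
        simp
  simp_rw [h3]
  rw [Finset.prod_mul_distrib, Finset.prod_ite_eq' _ z, Finset.prod_ite_eq' _ (D.iota z),
    if_pos (Finset.mem_univ _), if_pos (Finset.mem_univ _), D.uu_iota, inv_zpow', neg_neg,
    ← zpow_add₀ (D.uu_ne z)]

theorem ee_notMem (z : D.T) : ee D.iota z ∉ D.relGroup := by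
  intro h
  obtain ⟨-, m, hm, h2⟩ := (D.mem_relGroup _).1 h
  rw [D.prod_ee] at h2
  have hm2 : m + m ≠ 0 := by omega
  have h4 : D.uu z ^ (m + m).natAbs = 1 := by
    rcases Int.natAbs_eq (m + m) with h | h
    · rw [h, zpow_natCast] at h2
      exact h2
    · rw [h, zpow_neg, zpow_natCast, inv_eq_one] at h2
      exact h2
  refine D.nontors z.1 z.2 (m + m).natAbs (Int.natAbs_pos.2 hm2) ?_
  unfold uu at h4
  rw [div_pow, div_eq_one_iff_eq (pow_ne_zero _ (D.Q0 z.1 z.2)), ← pow_mul] at h4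
  exact h4

/-- If no quotient of `x`, `y` is a root of unity, then the difference of the basic functions is
not a relation. -/
theorem ee_sub_notMem (x y : D.T) (hQ : D.Q x.1 = D.Q y.1)
    (hxy : ∀ m : ℕ, 0 < m → x.1 ^ m ≠ y.1 ^ m) : ee D.iota x - ee D.iota y ∉ D.relGroup := by
  intro h
  obtain ⟨-, m, hm, h2⟩ := (D.mem_relGroup _).1 h
  have h3 : ∀ z, D.uu z ^ (m * (ee D.iota x - ee D.iota y) z) =
      D.uu z ^ (m * ee D.iota x z) * (D.uu z ^ (m * ee D.iota y z))⁻¹ := by
    intro z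
    rw [← zpow_neg, ← zpow_add₀ (D.uu_ne z), Pi.sub_apply]
    congr 1
    ring
  simp_rw [h3] at h2
  rw [Finset.prod_mul_distrib, Finset.prod_inv_distrib, D.prod_ee, D.prod_ee,
    mul_inv_eq_one₀ (zpow_ne_zero _ (D.uu_ne y))] at h2
  have hm2 : m + m ≠ 0 := by omega
  have h4 : D.uu x ^ (m + m).natAbs = D.uu y ^ (m + m).natAbs := by
    rcases Int.natAbs_eq (m + m) with h | h
    · rw [h, zpow_natCast, zpow_natCast] at h2
      exact h2
    · rw [h, zpow_neg, zpow_neg, zpow_natCast, zpow_natCast, inv_inj] at h2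
      exact h2
  refine hxy (2 * (m + m).natAbs) (by have := Int.natAbs_pos.2 hm2; omega) ?_
  unfold uu at h4
  rw [div_pow, div_pow, hQ, div_left_inj' (pow_ne_zero _ (D.Q0 y.1 y.2)), ← pow_mul,
    ← pow_mul] at h4
  exact h4

section galois

variable [FiniteDimensional k S] [IsGalois k S]

theorem mem_fixing_iff (x : D.T) (g : S ≃ₐ[k] S) :
    g ∈ (IntermediateField.adjoin k ((minpoly k x.1).rootSet S)).fixingSubgroup ↔
      ∀ z ∈ MulAction.orbit (S ≃ₐ[k] S) x, g • z = z := by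
  have hne : minpoly k x.1 ≠ 0 := minpoly.ne_zero (Algebra.IsIntegral.isIntegral x.1)
  constructor
  · intro hg z hz
    apply Subtype.ext
    rw [smul_val]
    refine (IntermediateField.mem_fixingSubgroup_iff _ _).1 hg z.1 (subset_adjoin k _ ?_)
    rw [mem_rootSet_of_ne hne, ← (D.mem_orbit_iff x z).1 hz]
    exact minpoly.aeval k z.1
  · intro hg
    rw [IntermediateField.mem_fixingSubgroup_iff]
    have hle : IntermediateField.adjoin k ((minpoly k x.1).rootSet S) ≤
        fixedField (Subgroup.zpowers g) := by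
      rw [IntermediateField.adjoin_le_iff]
      intro w hw
      rw [mem_rootSet_of_ne hne] at hw
      have hwX := D.mem_carrier_of_root x w hw
      have h1 : minpoly k w = minpoly k x.1 :=
        (minpoly.eq_of_irreducible_of_monic
          (minpoly.irreducible (Algebra.IsIntegral.isIntegral x.1)) hw
          (minpoly.monic (Algebra.IsIntegral.isIntegral x.1))).symm
      have h2 := hg ⟨w, hwX⟩ ((D.mem_orbit_iff x ⟨w, hwX⟩).2 h1)
      have h3 : g w = w := congrArg Subtype.val h2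
      rw [SetLike.mem_coe, mem_fixedField_iff]
      have h4 : Subgroup.zpowers g ≤ MulAction.stabilizer (S ≃ₐ[k] S) w := by
        rw [Subgroup.zpowers_le]
        exact h3
      intro f hf
      exact h4 hf
    intro w hw
    exact (mem_fixedField_iff _ _).1 (hle hw) g (Subgroup.mem_zpowers g)


end galois

end FrobData

end Pool.Agent.Helper10.Frob2
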