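import Mathlib
import Pool.Agent.Helper10.SignedLattice
import Pool.Agent.Helper10.SignedCore
import Pool.Agent.Helper10.SignedTwo
import Pool.Agent.Helper10.SignedPrime
import Pool.Agent.Helper10.SignedFlip
import Pool.Agent.Helper10.DiscSquare

/-!
# Multiplicative relations between Weil numbers inside a Galois extension
-/

set_option autoImplicit false
set_option linter.unusedSectionVars false

namespace Pool.Agent.Helper10.FrobRel

open Polynomial Finset IntermediateField Pool.Agent.Helper10.SignedLattice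

/-- A finite Galois stable set of elements, closed under `z ↦ q / z`, such that `z` and `q / z` are
conjugate and no `z ^ 2 / q` is a root of unity. -/
structure FrobData (k S : Type*) [Field k] [Field S] [Algebra k S] (q : ℕ) where
  carrier : Finset S
  stable : ∀ σ : S ≃ₐ[k] S, ∀ z ∈ carrier, σ z ∈ carrier
  ne0 : ∀ z ∈ carrier, z ≠ 0
  q0 : (q : S) ≠ 0
  minpoly_inv : ∀ z ∈ carrier, minpoly k ((q : S) / z) = minpoly k z
  nontors : ∀ z ∈ carrier, ∀ m : ℕ, 0 < m → z ^ (2 * m) ≠ (q : S) ^ m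
  inv : ∀ z ∈ carrier, (q : S) / z ∈ carrier

namespace FrobData

variable {k S : Type*} [Field k] [Field S] [Algebra k S] {q : ℕ} (D : FrobData k S q)

/-- The elements as a type. -/
def T : Type _ := {z : S // z ∈ D.carrier}

noncomputable instance : Fintype D.T := inferInstanceAs (Fintype {z : S // z ∈ D.carrier})

noncomputable instance : DecidableEq D.T := Classical.decEq _

instance : MulAction (S ≃ₐ[k] S) D.T where
  smul σ z := ⟨σ z.1, D.stable σ z.1 z.2⟩
  one_smul _ := rfl
  mul_smul _ _ _ := rfl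

theorem smul_val (σ : S ≃ₐ[k] S) (z : D.T) : (σ • z).1 = σ z.1 := rfl

/-- The involution. -/
def iota (z : D.T) : D.T := ⟨(q : S) / z.1, D.inv z.1 z.2⟩

theorem iota_val (z : D.T) : (D.iota z).1 = (q : S) / z.1 := rfl

theorem iota_iota (z : D.T) : D.iota (D.iota z) = z := by
  apply Subtype.ext
  rw [iota_val, iota_val]
  have h1 := D.ne0 z.1 z.2
  have h2 := D.q0
  field_simp

theorem iota_smul (σ : S ≃ₐ[k] S) (z : D.T) : D.iota (σ • z) = σ • D.iota z := by
  apply Subtype.ext
  rw [iota_val, smul_val, smul_val, iota_val, map_div₀, map_natCast]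

theorem iota_ne (z : D.T) : D.iota z ≠ z := by
  intro h
  have h1 := congrArg Subtype.val h
  rw [iota_val] at h1
  have h2 := D.ne0 z.1 z.2
  refine D.nontors z.1 z.2 1 one_pos ?_
  rw [pow_one, mul_one, sq]
  rw [div_eq_iff h2] at h1
  exact h1.symm

variable [FiniteDimensional k S] [IsGalois k S]

theorem mem_orbit_iff (x y : D.T) : y ∈ MulAction.orbit (S ≃ₐ[k] S) x ↔
    minpoly k y.1 = minpoly k x.1 := by
  rw [Normal.minpoly_eq_iff_mem_orbit]
  constructor
  · rintro ⟨σ, hσ⟩
    exact ⟨σ, congrArg Subtype.val hσ⟩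
  · rintro ⟨σ, hσ⟩
    exact ⟨σ, Subtype.ext hσ⟩

theorem iota_mem_orbit (x : D.T) : D.iota x ∈ MulAction.orbit (S ≃ₐ[k] S) x :=
  (D.mem_orbit_iff x (D.iota x)).2 (D.minpoly_inv x.1 x.2)

theorem mem_carrier_of_root (x : D.T) (w : S) (hw : aeval w (minpoly k x.1) = 0) : w ∈ D.carrier := by
  have h1 : minpoly k w = minpoly k x.1 :=
    (minpoly.eq_of_irreducible_of_monic (minpoly.irreducible (Algebra.IsIntegral.isIntegral x.1)) hw
      (minpoly.monic (Algebra.IsIntegral.isIntegral x.1))).symm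
  obtain ⟨σ, hσ⟩ := (Normal.minpoly_eq_iff_mem_orbit S).1 h1
  change σ x.1 = w at hσ
  rw [← hσ]
  exact D.stable σ x.1 x.2

theorem minpoly_map (x : D.T) [Fintype (MulAction.orbit (S ≃ₐ[k] S) x)] :
    (minpoly k x.1).map (algebraMap k S) =
      ∏ i : MulAction.orbit (S ≃ₐ[k] S) x, (X - C (i.1.1 : S)) := by
  classical
  have hint : IsIntegral k x.1 := Algebra.IsIntegral.isIntegral x.1
  have hmonic : ((minpoly k x.1).map (algebraMap k S)).Monic := (minpoly.monic hint).map _
  have hsplits : ((minpoly k x.1).map (algebraMap k S)).Splits := Normal.splits inferInstance x.1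
  have hnodup : ((minpoly k x.1).map (algebraMap k S)).roots.Nodup :=
    nodup_roots (Separable.map (Algebra.IsSeparable.isSeparable k x.1))
  have hroots : ((minpoly k x.1).map (algebraMap k S)).roots =
      (Finset.univ : Finset (MulAction.orbit (S ≃ₐ[k] S) x)).val.map (fun i => (i.1.1 : S)) := by
    refine (Multiset.Nodup.ext hnodup ?_).2 ?_
    · refine Multiset.Nodup.map ?_ (Finset.univ : Finset (MulAction.orbit (S ≃ₐ[k] S) x)).nodup
      intro a b h
      exact Subtype.ext (Subtype.ext h)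
    · intro w
      rw [mem_roots hmonic.ne_zero, Multiset.mem_map, IsRoot.def, eval_map_algebraMap]
      constructor
      · intro hw
        have hwX := D.mem_carrier_of_root x w hw
        refine ⟨⟨⟨w, hwX⟩, (D.mem_orbit_iff x ⟨w, hwX⟩).2 ?_⟩, Finset.mem_univ _, rfl⟩
        exact (minpoly.eq_of_irreducible_of_monic (minpoly.irreducible hint) hw
          (minpoly.monic hint)).symm
      · rintro ⟨i, -, rfl⟩
        have h1 := (D.mem_orbit_iff x i.1).1 i.2
        rw [← h1]
        exact minpoly.aeval k i.1.1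
  rw [hsplits.eq_prod_roots_of_monic hmonic, hroots, Multiset.map_map]
  rfl

theorem card_orbit (x : D.T) :
    Nat.card (MulAction.orbit (S ≃ₐ[k] S) x) = (minpoly k x.1).natDegree := by
  have : Fintype (MulAction.orbit (S ≃ₐ[k] S) x) := Fintype.ofFinite _
  have h1 := congrArg natDegree (D.minpoly_map x)
  rw [natDegree_prod_of_monic _ _ fun j _ => monic_X_sub_C _,
    natDegree_map_eq_of_injective (algebraMap k S).injective] at h1
  simp only [natDegree_X_sub_C, sum_const, card_univ, smul_eq_mul, mul_one] at h1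
  rw [h1, Nat.card_eq_fintype_card]

/-- Criterion (a): 2-power degree and nonsquare discriminant. -/
theorem irred_a (x : D.T) (j : ℕ) (hdeg : (minpoly k x.1).natDegree = 2 ^ j)
    (hdisc : ¬ IsSquare (discr (minpoly k x.1))) :
    Irred (S ≃ₐ[k] S) D.iota (MulAction.orbit (S ≃ₐ[k] S) x) := by
  classical
  have : Fintype (MulAction.orbit (S ≃ₐ[k] S) x) := Fintype.ofFinite _
  have hint : IsIntegral k x.1 := Algebra.IsIntegral.isIntegral x.1
  have hex : ∃ σ : S ≃ₐ[k] S, Equiv.Perm.sign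
      (MulAction.toPerm σ : Equiv.Perm (MulAction.orbit (S ≃ₐ[k] S) x)) = -1 := by
    by_contra hcon
    push Not at hcon
    refine hdisc (Pool.Agent.Helper10.DiscSquare.isSquare_discr (minpoly k x.1)
      (minpoly.monic hint) (minpoly.degree_pos hint)
      (fun i : MulAction.orbit (S ≃ₐ[k] S) x => (i.1.1 : S)) (fun σ i => rfl)
      (D.minpoly_map x) fun σ => ?_)
    exact (Int.units_eq_one_or _).resolve_right (hcon σ)
  obtain ⟨σ, hσ⟩ := hex
  exact irred_two_pow D.iota_iota D.iota_smul x (D.iota_mem_orbit x) j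
    (by rw [D.card_orbit, hdeg]) σ
    (oddFlip_of_sign D.iota_iota D.iota_smul x (D.iota_mem_orbit x) σ hσ)

/-- Criterion (b): degree twice an odd prime and no quadratic subfield. -/
theorem irred_b (x : D.T) (r : ℕ) (hr : r.Prime) (hr2 : r ≠ 2)
    (hdeg : (minpoly k x.1).natDegree = 2 * r)
    (hquad : ∀ L : IntermediateField k S, L ≤ k⟮x.1⟯ → Module.finrank k L ≠ 2) :
    Irred (S ≃ₐ[k] S) D.iota (MulAction.orbit (S ≃ₐ[k] S) x) := by
  classical
  have hfact : Fact r.Prime := ⟨hr⟩
  refine irred_two_prime D.iota_iota D.iota_smul D.iota_ne x (D.iota_mem_orbit x) r hr2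
    (by rw [D.card_orbit, hdeg]) ?_
  intro Φ hΦ hΦι
  by_contra hcon
  have hdich : ∀ g : S ≃ₐ[k] S, (∃ z ∈ Φ, g • z ∈ Φ) → ∀ z ∈ Φ, g • z ∈ Φ := by
    intro g hg z hz
    by_contra h
    exact hcon ⟨g, hg, z, hz, h⟩
  have horbst : ∀ (g : S ≃ₐ[k] S) (z : D.T), g • z ∈ MulAction.orbit (S ≃ₐ[k] S) x ↔
      z ∈ MulAction.orbit (S ≃ₐ[k] S) x := smul_mem_orbit_iff' x
  -- a base point in `Φ`
  obtain ⟨z0, hz0, hz0x⟩ : ∃ z0 ∈ Φ, z0 = x ∨ z0 = D.iota x := by
    by_cases h : x ∈ Φ
    · exact ⟨x, h, Or.inl rfl⟩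
    · exact ⟨D.iota x, (hΦι x (MulAction.mem_orbit_self x)).2 h, Or.inr rfl⟩
  have hz0Y : z0 ∈ MulAction.orbit (S ≃ₐ[k] S) x := hΦ hz0
  -- the subgroup
  let H : Subgroup (S ≃ₐ[k] S) :=
    { carrier := {g | ∀ z ∈ Φ, g • z ∈ Φ}
      one_mem' := fun z hz => by rw [one_smul]; exact hz
      mul_mem' := fun {a b} ha hb z hz => by rw [mul_smul]; exact ha _ (hb z hz)
      inv_mem' := fun {a} ha => by
        refine hdich a⁻¹ ⟨a • z0, ha z0 hz0, ?_⟩
        rw [inv_smul_smul]
        exact hz0 }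
  have hH : ∀ g, g ∈ H ↔ ∀ z ∈ Φ, g • z ∈ Φ := fun _ => Iff.rfl
  -- an element outside
  obtain ⟨g0, hg0⟩ : ∃ g0 : S ≃ₐ[k] S, g0 • z0 = D.iota z0 := by
    have h1 : D.iota z0 ∈ MulAction.orbit (S ≃ₐ[k] S) z0 := D.iota_mem_orbit z0
    exact h1
  have hindex : H.index = 2 := by
    rw [Subgroup.index_eq_two_iff]
    refine ⟨g0, fun b => ?_⟩
    have hb1 : (b * g0) • z0 = D.iota (b • z0) := by rw [mul_smul, hg0, D.iota_smul]
    have hbz : b • z0 ∈ MulAction.orbit (S ≃ₐ[k] S) x := (horbst b z0).2 hz0Y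
    by_cases hb : b ∈ H
    · refine Or.inr ⟨hb, fun h => ?_⟩
      have h1 := (hH _).1 h z0 hz0
      rw [hb1] at h1
      exact (hΦι _ hbz).1 h1 ((hH b).1 hb z0 hz0)
    · refine Or.inl ⟨?_, hb⟩
      have h2 : b • z0 ∉ Φ := by
        intro h
        exact hb ((hH b).2 (hdich b ⟨z0, hz0, h⟩))
      refine (hH _).2 (hdich _ ⟨z0, hz0, ?_⟩)
      rw [hb1]
      exact (hΦι _ hbz).2 h2
  -- the quadratic field
  have hfin : Module.finrank k (fixedField H) = 2 := by
    have h1 : Module.finrank k (fixedField H) * Module.finrank (fixedField H) S =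
      Module.finrank k S := Module.finrank_mul_finrank k (fixedField H) S
    rw [IntermediateField.finrank_fixedField_eq_card, ← IsGalois.card_aut_eq_finrank k S,
      ← Subgroup.index_mul_card H, hindex] at h1
    have h2 : Nat.card H ≠ 0 := Nat.card_pos.ne'
    exact Nat.eq_of_mul_eq_mul_right (Nat.pos_of_ne_zero h2) h1
  refine hquad (fixedField H) ?_ hfin
  have hle : fixedField H ≤ k⟮z0.1⟯ := by
    rw [← IsGalois.fixedField_fixingSubgroup k⟮z0.1⟯]
    intro w hw
    rw [mem_fixedField_iff] at hw ⊢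
    intro g hg
    refine hw g ?_
    have h1 : g z0.1 = z0.1 := by
      have := (IntermediateField.mem_fixingSubgroup_iff _ _).1 hg z0.1
        (IntermediateField.mem_adjoin_simple_self k z0.1)
      exact this
    have h2 : g • z0 = z0 := Subtype.ext h1
    exact (hH g).2 (hdich g ⟨z0, hz0, by rw [h2]; exact hz0⟩)
  refine hle.trans ?_
  rcases hz0x with h | h
  · rw [h]
  · rw [h, iota_val]
    rw [IntermediateField.adjoin_simple_le_iff]
    refine div_mem ?_ (IntermediateField.mem_adjoin_simple_self k x.1)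
    exact IntermediateField.natCast_mem _ q

/-- Criterion (c): independent flips. -/
theorem irred_c (x : D.T)
    (hflip : ∀ y z : S, aeval y (minpoly k x.1) = 0 → aeval z (minpoly k x.1) = 0 → z ≠ y →
      z ≠ (q : S) / y → z ∉ IntermediateField.adjoin k
        (insert y {t | ∃ u : S, aeval u (minpoly k x.1) = 0 ∧ t = u + (q : S) / u})) :
    Irred (S ≃ₐ[k] S) D.iota (MulAction.orbit (S ≃ₐ[k] S) x) := by
  classical
  have horbroot : ∀ y ∈ MulAction.orbit (S ≃ₐ[k] S) x, aeval y.1 (minpoly k x.1) = 0 := by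
    intro y hy
    rw [← (D.mem_orbit_iff x y).1 hy]
    exact minpoly.aeval k y.1
  refine irred_flip D.iota_iota D.iota_smul D.iota_ne x ?_
  intro y hy z hz hzy hzy'
  have h1 := hflip y.1 z.1 (horbroot y hy) (horbroot z hz) (fun h => hzy (Subtype.ext h))
    (fun h => hzy' (Subtype.ext h))
  set L := IntermediateField.adjoin k
    (insert y.1 {t | ∃ u : S, aeval u (minpoly k x.1) = 0 ∧ t = u + (q : S) / u}) with hL
  rw [← IsGalois.fixedField_fixingSubgroup L, mem_fixedField_iff] at h1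
  push Not at h1
  obtain ⟨g, hg, hgz⟩ := h1
  have hfix : ∀ t ∈ L, g t = t := fun t ht =>
    (IntermediateField.mem_fixingSubgroup_iff _ _).1 hg t ht
  have hpair : ∀ w ∈ MulAction.orbit (S ≃ₐ[k] S) x, g • w = w ∨ g • w = D.iota w := by
    intro w hw
    have h2 : g (w.1 + (q : S) / w.1) = w.1 + (q : S) / w.1 :=
      hfix _ (subset_adjoin k _ (Set.mem_insert_of_mem _ ⟨w.1, horbroot w hw, rfl⟩))
    rw [map_add, map_div₀, map_natCast] at h2
    have hw0 := D.ne0 w.1 w.2
    have hgw0 : g w.1 ≠ 0 := (map_ne_zero g).2 hw0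
    have h3 : (g w.1 - w.1) * (g w.1 - (q : S) / w.1) = 0 := by
      field_simp at h2 ⊢
      linear_combination h2
    rcases mul_eq_zero.1 h3 with h | h
    · exact Or.inl (Subtype.ext (sub_eq_zero.1 h))
    · exact Or.inr (Subtype.ext (sub_eq_zero.1 h))
  refine ⟨g, ?_, ?_, hpair⟩
  · exact Subtype.ext (hfix _ (subset_adjoin k _ (Set.mem_insert _ _)))
  · exact (hpair z hz).resolve_left (fun h => hgz (congrArg Subtype.val h))

end FrobData

end Pool.Agent.Helper10.FrobRel
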