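import Mathlib
import Pool.Agent.Helper10.FrobRel

/-!
# Triviality of the group of multiplicative relations
-/

set_option autoImplicit false
set_option linter.unusedSectionVars false

namespace Pool.Agent.Helper10.FrobRel

open Polynomial Finset IntermediateField Pool.Agent.Helper10.SignedLattice

namespace FrobData

variable {k S : Type*} [Field k] [Field S] [Algebra k S] {q : ℕ} (D : FrobData k S q)

/-- `z ^ 2 / q`. -/
def uu (x : D.T) : S := x.1 ^ 2 / (q : S)

theorem uu_ne (x : D.T) : D.uu x ≠ 0 := div_ne_zero (pow_ne_zero _ (D.ne0 x.1 x.2)) D.q0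

theorem uu_iota (x : D.T) : D.uu (D.iota x) = (D.uu x)⁻¹ := by
  unfold uu
  rw [iota_val]
  have h1 := D.ne0 x.1 x.2
  have h2 := D.q0
  field_simp

theorem uu_smul (σ : S ≃ₐ[k] S) (x : D.T) : D.uu (σ • x) = σ (D.uu x) := by
  unfold uu
  rw [smul_val, map_div₀, map_pow, map_natCast]

/-- Multiplicative relations, up to torsion. -/
def relGroup : AddSubgroup (D.T → ℤ) where
  carrier := {f | (∀ x, f (D.iota x) = - f x) ∧ ∃ m : ℤ, m ≠ 0 ∧ ∏ x, D.uu x ^ (m * f x) = 1}
  zero_mem' := ⟨fun _ => by simp, 1, one_ne_zero, by simp⟩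
  add_mem' := by
    rintro a b ⟨ha, m, hm, hma⟩ ⟨hb, n, hn, hnb⟩
    refine ⟨fun x => ?_, m * n, mul_ne_zero hm hn, ?_⟩
    · simp only [Pi.add_apply, ha, hb]; ring
    · have h1 : ∀ x, D.uu x ^ (m * n * (a + b) x) =
          (D.uu x ^ (m * a x)) ^ n * (D.uu x ^ (n * b x)) ^ m := by
        intro x
        rw [← zpow_mul, ← zpow_mul, ← zpow_add₀ (D.uu_ne x), Pi.add_apply]
        congr 1
        ring
      simp_rw [h1]
      rw [Finset.prod_mul_distrib, Finset.prod_zpow, Finset.prod_zpow, hma, hnb, one_zpow,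
        one_zpow, one_mul]
  neg_mem' := by
    rintro a ⟨ha, m, hm, hma⟩
    refine ⟨fun x => ?_, m, hm, ?_⟩
    · simp only [Pi.neg_apply, ha]
    · have h1 : ∀ x, D.uu x ^ (m * (-a) x) = (D.uu x ^ (m * a x))⁻¹ := by
        intro x
        rw [← zpow_neg, Pi.neg_apply]
        congr 1
        ring
      simp_rw [h1]
      rw [Finset.prod_inv_distrib, hma, inv_one]

theorem mem_relGroup (f : D.T → ℤ) : f ∈ D.relGroup ↔ (∀ x, f (D.iota x) = - f x) ∧
    ∃ m : ℤ, m ≠ 0 ∧ ∏ x, D.uu x ^ (m * f x) = 1 := Iff.rfl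

theorem isRel_relGroup : IsRel (S ≃ₐ[k] S) D.iota D.relGroup where
  anti f hf := hf.1
  stable g f hf := by
    obtain ⟨h1, m, hm, h2⟩ := hf
    refine (D.mem_relGroup _).2 ⟨fun x => ?_, m, hm, ?_⟩
    · rw [tr_apply, tr_apply, ← D.iota_smul, h1]
    · have h3 := congrArg g h2
      rw [map_prod, map_one] at h3
      rw [← h3]
      refine Fintype.prod_equiv (MulAction.toPerm g⁻¹) _ _ fun x => ?_
      rw [MulAction.toPerm_apply, map_zpow₀, ← D.uu_smul, smul_inv_smul, tr_apply]
  sat n hn f hf := by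
    obtain ⟨h1, m, hm, h2⟩ := hf
    refine (D.mem_relGroup _).2 ⟨fun x => ?_, m * n, mul_ne_zero hm hn, ?_⟩
    · have := h1 x
      simp only [Pi.smul_apply, smul_eq_mul] at this
      apply mul_left_cancel₀ hn
      rw [this]; ring
    · rw [← h2]
      refine Finset.prod_congr rfl fun x _ => ?_
      rw [Pi.smul_apply, smul_eq_mul, mul_assoc]

theorem ee_notMem (z : D.T) : ee D.iota z ∉ D.relGroup := by
  intro h
  obtain ⟨-, m, hm, h2⟩ := (D.mem_relGroup _).1 h
  have h3 : ∀ x, D.uu x ^ (m * ee D.iota z x) =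
      (if x = z then D.uu x ^ m else 1) * (if x = D.iota z then D.uu x ^ (-m) else 1) := by
    intro x
    unfold ee
    by_cases hx1 : x = z
    · have hx2 : x ≠ D.iota z := by
        rw [hx1]
        exact (D.iota_ne z).symm
      rw [if_pos hx1, if_neg hx2, if_pos hx1, if_neg hx2]
      simp
    · by_cases hx2 : x = D.iota z
      · rw [if_neg hx1, if_pos hx2, if_neg hx1, if_pos hx2]
        simp
      · rw [if_neg hx1, if_neg hx2, if_neg hx1, if_neg hx2]
        simp
  simp_rw [h3] at h2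
  rw [Finset.prod_mul_distrib, Finset.prod_ite_eq' _ z, Finset.prod_ite_eq' _ (D.iota z),
    if_pos (Finset.mem_univ _), if_pos (Finset.mem_univ _), D.uu_iota, inv_zpow', neg_neg,
    ← zpow_add₀ (D.uu_ne z)] at h2
  have hm2 : m + m ≠ 0 := by omega
  have h4 : D.uu z ^ (m + m).natAbs = 1 := by
    rcases Int.natAbs_eq (m + m) with h | h
    · rw [h, zpow_natCast] at h2
      exact h2
    · rw [h, zpow_neg, zpow_natCast, inv_eq_one] at h2
      exact h2
  refine D.nontors z.1 z.2 (m + m).natAbs (Int.natAbs_pos.2 hm2) ?_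
  unfold uu at h4
  rw [div_pow, div_eq_one_iff_eq (pow_ne_zero _ D.q0), ← pow_mul] at h4
  exact h4

variable [FiniteDimensional k S] [IsGalois k S]

theorem mem_fixing_iff (x : D.T) (g : S ≃ₐ[k] S) :
    g ∈ (IntermediateField.adjoin k ((minpoly k x.1).rootSet S)).fixingSubgroup ↔
      ∀ z ∈ MulAction.orbit (S ≃ₐ[k] S) x, g • z = z := by
  have hne : minpoly k x.1 ≠ 0 := minpoly.ne_zero (Algebra.IsIntegral.isIntegral x.1)
  constructor
  · intro hg z hz
    apply Subtype.ext
    rw [smul_val]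
    refine (IntermediateField.mem_fixingSubgroup_iff _ _).1 hg z.1 (subset_adjoin k _ ?_)
    rw [mem_rootSet_of_ne hne, ← (D.mem_orbit_iff x z).1 hz]
    exact minpoly.aeval k z.1
  · intro hg
    rw [IntermediateField.mem_fixingSubgroup_iff]
    have hle : IntermediateField.adjoin k ((minpoly k x.1).rootSet S) ≤
        fixedField (Subgroup.zpowers g) := by
      rw [IntermediateField.adjoin_le_iff]
      intro w hw
      rw [mem_rootSet_of_ne hne] at hw
      have hwX := D.mem_carrier_of_root x w hw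
      have h1 : minpoly k w = minpoly k x.1 :=
        (minpoly.eq_of_irreducible_of_monic
          (minpoly.irreducible (Algebra.IsIntegral.isIntegral x.1)) hw
          (minpoly.monic (Algebra.IsIntegral.isIntegral x.1))).symm
      have h2 := hg ⟨w, hwX⟩ ((D.mem_orbit_iff x ⟨w, hwX⟩).2 h1)
      have h3 : g w = w := congrArg Subtype.val h2
      rw [SetLike.mem_coe, mem_fixedField_iff]
      have h4 : Subgroup.zpowers g ≤ MulAction.stabilizer (S ≃ₐ[k] S) w := by
        rw [Subgroup.zpowers_le]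
        exact h3
      intro f hf
      exact h4 hf
    intro w hw
    exact (mem_fixedField_iff _ _).1 (hle hw) g (Subgroup.mem_zpowers g)

/-- The three criteria. -/
def Crit (h : k[X]) (q : ℕ) (x : S) : Prop :=
  (∃ j, h.natDegree = 2 ^ j ∧ ¬ IsSquare (discr h)) ∨
  (∃ r, r.Prime ∧ r ≠ 2 ∧ h.natDegree = 2 * r ∧
    ∀ L : IntermediateField k S, L ≤ k⟮x⟯ → Module.finrank k L ≠ 2) ∨
  (∀ y z : S, aeval y h = 0 → aeval z h = 0 → z ≠ y → z ≠ (q : S) / y →
    z ∉ IntermediateField.adjoin k (insert y {t | ∃ u : S, aeval u h = 0 ∧ t = u + (q : S) / u}))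

/-- **Triviality of relations.** -/
theorem relGroup_eq_bot
    (hcrit : ∀ x : D.T, Crit (minpoly k x.1) q x.1)
    (hdist : ∀ x y : D.T, (minpoly k x.1).natDegree = (minpoly k y.1).natDegree →
      IntermediateField.adjoin k ((minpoly k x.1).rootSet S) =
        IntermediateField.adjoin k ((minpoly k y.1).rootSet S) → minpoly k x.1 = minpoly k y.1) :
    D.relGroup = ⊥ := by
  by_contra hne
  have hirr : ∀ x : D.T, Irred (S ≃ₐ[k] S) D.iota (MulAction.orbit (S ≃ₐ[k] S) x) := by
    intro x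
    rcases hcrit x with ⟨j, hj, hd⟩ | ⟨r, hr, hr2, hdeg, hL⟩ | h
    · exact D.irred_a x j hj hd
    · exact D.irred_b x r hr hr2 hdeg hL
    · exact D.irred_c x h
  obtain ⟨z, hz⟩ := exists_ee_mem (G := S ≃ₐ[k] S) D.iota_iota D.iota_smul D.iota_ne
    D.iota_mem_orbit hirr (fun x y hcard hker => by
      rw [D.card_orbit, D.card_orbit] at hcard
      rw [D.mem_orbit_iff]
      refine (hdist x y hcard ?_).symm
      rw [← IsGalois.fixedField_fixingSubgroup
          (IntermediateField.adjoin k ((minpoly k x.1).rootSet S)),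
        ← IsGalois.fixedField_fixingSubgroup
          (IntermediateField.adjoin k ((minpoly k y.1).rootSet S))]
      congr 1
      ext g
      rw [D.mem_fixing_iff, D.mem_fixing_iff]
      exact hker g) D.isRel_relGroup hne
  exact D.ee_notMem z hz

end FrobData

end Pool.Agent.Helper10.FrobRel
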