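import Mathlib

/-!
# Conditions on the factors of the characteristic polynomial of Frobenius
-/

set_option autoImplicit false

namespace Pool.Agent.Helper10.Neat

open Polynomial ComplexConjugate

variable {k : Type*} [Field k] [Algebra k ℝ]

/-- `z` is supersingular: `z / |z|` is a root of unity. -/
def IsSS (z : ℂ) : Prop := ∃ m : ℕ, 0 < m ∧ z ^ m = (‖z‖ : ℂ) ^ m

/-- The splitting field of `h` in `ℂ`. -/
noncomputable abbrev SF (h : k[X]) : IntermediateField k ℂ :=
  IntermediateField.adjoin k (h.rootSet ℂ)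

/-- `h` is of irreducible type:
(A) the degree of `h` is a power of `2` and the discriminant of `h` is not a square in `k`; or
(B) the degree of `h` is twice an odd prime and the field generated over `k` by a root of `h`
contains no field of degree `2` over `k`; or
(C) no root `z` of `h` lies in the field generated over `k` by a root `y` different from `z` and
from the complex conjugate of `z`, and all the `u + conj u`, `u` a root of `h`. -/
def IsIrrType (h : k[X]) : Prop :=
  ((∃ j : ℕ, h.natDegree = 2 ^ j) ∧ ¬ IsSquare h.discr) ∨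
  ((∃ r : ℕ, r.Prime ∧ r ≠ 2 ∧ h.natDegree = 2 * r) ∧
    ∀ z : ℂ, aeval z h = 0 → ∀ L : IntermediateField k ℂ,
      L ≤ IntermediateField.adjoin k {z} → Module.finrank k L ≠ 2) ∨
  (∀ y z : ℂ, aeval y h = 0 → aeval z h = 0 → z ≠ y → z ≠ conj y →
    z ∉ IntermediateField.adjoin k
      (insert y {t : ℂ | ∃ u : ℂ, aeval u h = 0 ∧ t = u + conj u}))

/-- `n` is a slope function of `h`: `n z = v z - v (conj z)` for the roots `z` of `h`, where `v` is
a homomorphism from the multiplicative group of the splitting field of `h` to the reals (such as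
the logarithm of an absolute value). -/
def IsSlope (h : k[X]) (n : ℂ → ℤ) : Prop :=
  ∃ v : ℂ → ℝ, (∀ x ∈ SF h, ∀ y ∈ SF h, x ≠ 0 → y ≠ 0 → v (x * y) = v x + v y) ∧
    ∀ z : ℂ, aeval z h = 0 → (n z : ℝ) = v z - v (conj z)

/-- `Φ` consists of one root of `h` from each pair of complex conjugate roots. -/
def IsHalfSystem (h : k[X]) (Φ : Finset ℂ) : Prop :=
  (∀ z ∈ Φ, aeval z h = 0) ∧ ∀ z : ℂ, aeval z h = 0 → (conj z ∈ Φ ↔ z ∉ Φ)

/-- `h` is of slope type: for some slope function `n`,
(a) the degree of `h` is `2 r ^ a`, `r` a prime, and no half-system `Φ` has `r ∣ ∑ n` over `Φ`; or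
(b) `n` is nonzero on exactly one pair of complex conjugate roots; or
(c) the automorphisms of `ℂ` over `k` act doubly transitively on the pairs of complex conjugate
roots, the sum of `n` over a half-system is odd and some value of `n` is even. -/
def IsSlopeType (h : k[X]) : Prop :=
  ∃ n : ℂ → ℤ, IsSlope h n ∧
    ((∃ r a : ℕ, r.Prime ∧ h.natDegree = 2 * r ^ a ∧
        ∀ Φ : Finset ℂ, IsHalfSystem h Φ → ¬ (r : ℤ) ∣ ∑ z ∈ Φ, n z) ∨
      (∃ z : ℂ, aeval z h = 0 ∧ n z ≠ 0 ∧
        ∀ y : ℂ, aeval y h = 0 → n y ≠ 0 → y = z ∨ y = conj z) ∨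
      ((∀ x y x' y' : ℂ, aeval x h = 0 → aeval y h = 0 → aeval x' h = 0 → aeval y' h = 0 →
          y ≠ x → y ≠ conj x → y' ≠ x' → y' ≠ conj x' →
          ∃ σ : ℂ ≃ₐ[k] ℂ, (σ x = x' ∨ σ x = conj x') ∧ (σ y = y' ∨ σ y = conj y')) ∧
        (∃ Φ : Finset ℂ, IsHalfSystem h Φ ∧ Odd (∑ z ∈ Φ, n z)) ∧
        ∃ z : ℂ, aeval z h = 0 ∧ Even (n z)))

/-- `h` is of large type: the degree of `h` is less than `4 b` for an odd prime `b` dividing the
degree of the splitting field of `h` over `k`, no quotient of different roots is a root of unity,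
and either the field generated over `k` by a root of `h` contains no field of degree `2` over `k`,
or for some slope function `n` no half-system `Φ` has `∑ n = 0` over `Φ`. -/
def IsLargeType (h : k[X]) : Prop :=
  ∃ b : ℕ, b.Prime ∧ b ≠ 2 ∧ h.natDegree < 4 * b ∧ b ∣ Module.finrank k (SF h) ∧
    (∀ y z : ℂ, aeval y h = 0 → aeval z h = 0 → y ≠ z → ∀ m : ℕ, 0 < m → y ^ m ≠ z ^ m) ∧
    ((∀ z : ℂ, aeval z h = 0 → ∀ L : IntermediateField k ℂ,
        L ≤ IntermediateField.adjoin k {z} → Module.finrank k L ≠ 2) ∨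
      ∃ n : ℂ → ℤ, IsSlope h n ∧ ∀ Φ : Finset ℂ, IsHalfSystem h Φ → ∑ z ∈ Φ, n z ≠ 0)

/-- A criterion for the factors `h` and `h'` to be independent: the intersection of the splitting
fields is contained in `ℝ`; or `h` is of irreducible type, and has larger degree than `h'` or a
splitting field that is not contained in the splitting field of `h'`. -/
def IsIndep (h h' : k[X]) : Prop :=
  (∀ z ∈ SF h, z ∈ SF h' → conj z = z) ∨
  (IsIrrType h ∧ (h'.natDegree < h.natDegree ∨ ¬ SF h ≤ SF h'))

end Pool.Agent.Helper10.Neat
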