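import Mathlib
import Pool.Agent.Helper10.SignedLattice
import Pool.Agent.Helper10.SignedCore
import Pool.Agent.Helper10.SignedTwo

/-!
# Vanishing of relation lattices orthogonal to a slope vector
-/

set_option autoImplicit false
set_option linter.unusedSectionVars false

namespace Pool.Agent.Helper10.SignedLattice

open Finset

section padic

variable {G X : Type*} [Group G] [Finite G] [Fintype X] [DecidableEq X] [MulAction G X]

/-- `Φ` contains exactly one point of each pair. -/
def IsHalf (ι : X → X) (Φ : Finset X) : Prop := ∀ x, ι x ∈ Φ ↔ x ∉ Φ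

theorem exists_isHalf {ι : X → X} (hι : ∀ x, ι (ι x) = x) (hfix : ∀ x, ι x ≠ x) :
    ∃ Φ : Finset X, IsHalf ι Φ := by
  let e : X ≃ Fin (Fintype.card X) := Fintype.equivFin X
  refine ⟨Finset.univ.filter fun z => e z < e (ι z), fun x => ?_⟩
  simp only [Finset.mem_filter, Finset.mem_univ, true_and, hι, not_lt]
  constructor
  · exact fun h => h.le
  · intro h
    exact lt_of_le_of_ne h (fun h2 => hfix x (e.injective h2))

theorem sum_eq_two_half {ι : X → X} (hι : ∀ x, ι (ι x) = x) {Φ : Finset X} (hΦ : IsHalf ι Φ)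
    (F : X → ℤ) (hF : ∀ x, F (ι x) = F x) : ∑ x, F x = 2 * ∑ x ∈ Φ, F x := by
  have h1 : ∑ x, F x = ∑ x ∈ Φ, F x + ∑ x ∈ Φᶜ, F x := (Finset.sum_add_sum_compl Φ F).symm
  have h3 : ∑ x ∈ Φᶜ, F x = ∑ x ∈ Φ, F x := by
    refine Finset.sum_bij' (fun x _ => ι x) (fun x _ => ι x) ?_ ?_ ?_ ?_ ?_
    · intro x hx
      exact (hΦ x).2 (Finset.mem_compl.1 hx)
    · intro x hx
      rw [Finset.mem_compl]
      intro h
      exact (hΦ x).1 h hx
    · intro x _; exact hι x
    · intro x _; exact hι x
    · intro x _; exact (hF x).symm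
  rw [h1, h3]
  ring

/-- An orbit of odd size of a subgroup does not meet its image under `ι`. -/
theorem iota_notMem_of_odd {ι : X → X} (hι : ∀ x, ι (ι x) = x)
    (hc : ∀ (g : G) x, ι (g • x) = g • ι x) (hfix : ∀ x, ι x ≠ x) (H : Subgroup G) (x0 : X)
    (hodd : Odd (Nat.card (MulAction.orbit H x0))) :
    ∀ x ∈ MulAction.orbit H x0, ι x ∉ MulAction.orbit H x0 := by
  classical
  intro x hx hιx
  have hst : ∀ z ∈ MulAction.orbit H x0, ι z ∈ MulAction.orbit H x0 := by
    intro z hz
    rw [← MulAction.orbit_eq_iff.2 hx] at hz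
    obtain ⟨g, hg⟩ := hz
    have h1 : (g : G) • x = z := hg
    have h2 : ι z = g • ι x := by
      rw [← h1, hc]
      rfl
    rw [h2]
    exact (smul_mem_orbit_iff' (G := H) x0 g (ι x)).2 hιx
  let Φ : Finset X := Finset.univ.filter fun x => x ∈ MulAction.orbit H x0
  have hmem : ∀ x, x ∈ Φ ↔ x ∈ MulAction.orbit H x0 := fun x => by simp [Φ]
  have hcard : Φ.card = Nat.card (MulAction.orbit H x0) := by
    rw [Nat.card_coe_set_eq, ← Set.ncard_coe_finset]
    congr 1
    ext x
    simp [Φ]
  have h2 : ∑ x ∈ Φ, (1 : ZMod 2) = 0 := by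
    refine Finset.sum_involution (fun a _ => ι a) (fun a _ => ?_) (fun a _ _ => hfix a)
      (fun a ha => (hmem _).2 (hst a ((hmem a).1 ha))) (fun a _ => hι a)
    rfl
  rw [Finset.sum_const, hcard, nsmul_eq_mul, mul_one] at h2
  have h3 := (ZMod.natCast_eq_zero_iff_even).1 h2
  exact (Nat.not_odd_iff_even.2 h3) hodd

/-- **Prime power criterion.**  `|X| = 2 r ^ a`, and no half-system has slope sum divisible
by `r`. -/
theorem rel_eq_bot_of_prime_pow [MulAction.IsPretransitive G X] {ι : X → X}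
    (hι : ∀ x, ι (ι x) = x) (hc : ∀ (g : G) x, ι (g • x) = g • ι x) (hfix : ∀ x, ι x ≠ x)
    (r a : ℕ) [hr : Fact r.Prime] (hcard : Nat.card X = 2 * r ^ a)
    (n : X → ℤ) (hn : ∀ x, n (ι x) = - n x)
    (hhalf : ∀ Φ : Finset X, IsHalf ι Φ → ¬ (r : ℤ) ∣ ∑ x ∈ Φ, n x)
    {R : AddSubgroup (X → ℤ)} (hR : IsRel G ι R) (horth : ∀ f ∈ R, ∑ x, f x * n x = 0) :
    R = ⊥ := by
  classical
  by_contra hR0
  obtain ⟨P⟩ : Nonempty (Sylow r G) := inferInstance
  obtain ⟨y, hyR, hinv, x1, hx1⟩ := exists_fixed_mod hR hR0 r (P : Subgroup G) P.isPGroup'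
  have hyι : ∀ x, y (ι x) = - y x := hR.anti y hyR
  have horbX : MulAction.orbit G x1 = Set.univ := MulAction.orbit_eq_univ G x1
  have hcardX : Nat.card (MulAction.orbit G x1) = 2 * r ^ a := by
    rw [horbX, Nat.card_coe_set_eq, Set.ncard_univ, hcard]
  have hdvd := pow_factorization_dvd_orbit r P x1
  rw [hcardX] at hdvd
  have hcst : ∀ x ∈ MulAction.orbit P x1, ((y x : ℤ) : ZMod r) = (y x1 : ZMod r) := by
    rintro _ ⟨g, rfl⟩
    have h1 := hinv (g : G) g.2 ((g : G) • x1)
    rw [inv_smul_smul] at h1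
    exact h1.symm
  -- for every half-system on which `y` is constant mod `r`, a contradiction
  have key : ∀ Φ : Finset X, IsHalf ι Φ → (∀ x ∈ Φ, ((y x : ℤ) : ZMod r) = (y x1 : ZMod r)) →
      False := by
    intro Φ hΦ hconst
    have h1 := horth y hyR
    rw [sum_eq_two_half hι hΦ (fun x => y x * n x) (fun x => by rw [hyι, hn]; ring)] at h1
    have h2 : ∑ x ∈ Φ, y x * n x = 0 := by omega
    have h3 : ((∑ x ∈ Φ, y x * n x : ℤ) : ZMod r) =
        (y x1 : ZMod r) * ((∑ x ∈ Φ, n x : ℤ) : ZMod r) := by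
      rw [Int.cast_sum, Int.cast_sum, Finset.mul_sum]
      refine Finset.sum_congr rfl fun x hx => ?_
      rw [Int.cast_mul, hconst x hx]
    rw [h2, Int.cast_zero] at h3
    have h4 := (mul_eq_zero.1 h3.symm).resolve_left hx1
    rw [ZMod.intCast_zmod_eq_zero_iff_dvd] at h4
    exact hhalf Φ hΦ h4
  by_cases hr2 : r = 2
  · -- transitive case
    subst hr2
    have hfac : (2 * 2 ^ a).factorization 2 = a + 1 := by
      rw [← pow_succ', Nat.Prime.factorization_pow Nat.prime_two, Finsupp.single_eq_same]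
    rw [hfac, Nat.card_coe_set_eq] at hdvd
    have hfull : MulAction.orbit P x1 = Set.univ := by
      refine Set.eq_of_subset_of_ncard_le (Set.subset_univ _) ?_ (Set.toFinite _)
      rw [Set.ncard_univ, hcard, ← pow_succ']
      refine Nat.le_of_dvd ?_ hdvd
      exact (Set.ncard_pos (Set.toFinite _)).2 ⟨x1, MulAction.mem_orbit_self x1⟩
    obtain ⟨Φ, hΦ⟩ := exists_isHalf hι hfix
    refine key Φ hΦ fun x _ => hcst x ?_
    rw [hfull]
    exact Set.mem_univ x
  · have hfac : (2 * r ^ a).factorization r = a := by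
      rw [Nat.factorization_mul two_ne_zero (pow_ne_zero _ hr.out.ne_zero), Finsupp.add_apply,
        Nat.Prime.factorization_pow hr.out, Finsupp.single_eq_same,
        Nat.factorization_eq_zero_of_not_dvd, zero_add]
      intro h
      exact hr2 ((Nat.prime_dvd_prime_iff_eq hr.out Nat.prime_two).1 h)
    rw [hfac] at hdvd
    have hr3 : 3 ≤ r := by
      have := hr.out.two_le
      omega
    obtain ⟨b, hb⟩ := P.isPGroup'.card_orbit x1
    have hle : Nat.card (MulAction.orbit P x1) ≤ 2 * r ^ a := by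
      rw [Nat.card_coe_set_eq, ← hcard, ← Set.ncard_univ]
      exact Set.ncard_le_ncard (Set.subset_univ _) (Set.toFinite _)
    have hba : b = a := by
      rw [hb] at hdvd hle
      have h1 : a ≤ b := (Nat.pow_dvd_pow_iff_le_right (by omega)).1 hdvd
      have h2 : b < a + 1 := by
        by_contra h
        have h3 : r ^ (a + 1) ≤ r ^ b := Nat.pow_le_pow_right (by omega) (by omega)
        rw [pow_succ] at h3
        have h4 : 0 < r ^ a := pow_pos (by omega) a
        nlinarith
      omega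
    rw [hba] at hb
    have hodd : Odd (Nat.card (MulAction.orbit P x1)) := by
      rw [hb]
      exact (hr.out.odd_of_ne_two hr2).pow
    have hno := iota_notMem_of_odd hι hc hfix (P : Subgroup G) x1 hodd
    let Φ : Finset X := Finset.univ.filter fun x => x ∈ MulAction.orbit P x1
    have hmem : ∀ x, x ∈ Φ ↔ x ∈ MulAction.orbit P x1 := fun x => by simp [Φ]
    have hΦcard : Φ.card = r ^ a := by
      rw [← hb, Nat.card_coe_set_eq, ← Set.ncard_coe_finset]
      congr 1
      ext x
      simp [Φ]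
    have hΦ : IsHalf ι Φ := by
      have hdisj : Disjoint Φ (Φ.image ι) := by
        rw [Finset.disjoint_left]
        intro z hz hz2
        obtain ⟨t, ht, rfl⟩ := Finset.mem_image.1 hz2
        exact hno t ((hmem t).1 ht) ((hmem _).1 hz)
      have hc2 : (Φ ∪ Φ.image ι) = Finset.univ := by
        rw [← Finset.card_eq_iff_eq_univ, Finset.card_union_of_disjoint hdisj,
          Finset.card_image_of_injective _ (fun a b h => by rw [← hι a, h, hι]), hΦcard,
          ← Nat.card_eq_fintype_card, hcard]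
        ring
      intro x
      constructor
      · intro h h2
        exact hno x ((hmem x).1 h2) ((hmem _).1 h)
      · intro h
        have h2 : x ∈ Φ ∪ Φ.image ι := by rw [hc2]; exact Finset.mem_univ x
        rcases Finset.mem_union.1 h2 with h3 | h3
        · exact absurd h3 h
        · obtain ⟨t, ht, rfl⟩ := Finset.mem_image.1 h3
          rw [hι]
          exact ht
    exact key Φ hΦ fun x hx => hcst x ((hmem x).1 hx)

/-- **One moving pair.** -/
theorem rel_eq_bot_of_single [MulAction.IsPretransitive G X] {ι : X → X}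
    (hι : ∀ x, ι (ι x) = x) (hfix : ∀ x, ι x ≠ x)
    (n : X → ℤ) (hn : ∀ x, n (ι x) = - n x) (x0 : X) (hx0 : n x0 ≠ 0)
    (hz : ∀ x, x ≠ x0 → x ≠ ι x0 → n x = 0)
    {R : AddSubgroup (X → ℤ)} (hR : IsRel G ι R) (horth : ∀ f ∈ R, ∑ x, f x * n x = 0) :
    R = ⊥ := by
  rw [eq_bot_iff]
  intro f hf
  rw [AddSubgroup.mem_bot]
  have key : ∀ f ∈ R, f x0 = 0 := by
    intro f hf
    have h1 := horth f hf
    have h2 : ∑ x, f x * n x = f x0 * n x0 + f (ι x0) * n (ι x0) := by
      rw [← Finset.sum_pair (f := fun x => f x * n x) (hfix x0).symm]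
      refine (Finset.sum_subset (Finset.subset_univ _) fun x _ hx => ?_).symm
      simp only [Finset.mem_insert, Finset.mem_singleton, not_or] at hx
      rw [hz x hx.1 hx.2, mul_zero]
    rw [h2, hR.anti f hf, hn] at h1
    have h3 : 2 * (f x0 * n x0) = 0 := by linear_combination h1
    have h4 : f x0 * n x0 = 0 := by omega
    exact (mul_eq_zero.1 h4).resolve_right hx0
  funext x
  obtain ⟨g, hg⟩ := MulAction.exists_smul_eq G x x0
  have h1 := key _ (hR.stable g f hf)
  rw [tr_apply, ← hg, inv_smul_smul] at h1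
  exact h1

end padic

end Pool.Agent.Helper10.SignedLattice
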