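import Mathlib
import Pool.Agent.Helper10.SignedLattice
import Pool.Agent.Helper10.SignedCore
import Pool.Agent.Helper10.SignedPadic

/-!
# Signed permutation lattices: groups of order divisible by a large prime
-/

set_option autoImplicit false
set_option linter.unusedSectionVars false

namespace Pool.Agent.Helper10.SignedLattice

open Finset

section conv

/-- Cyclic convolution. -/
theorem conv_zmod (b : ℕ) [hb : Fact b.Prime] (a c : ZMod b → ℤ) (ha : ∑ i, a i = 0)
    (h : ∀ j, ∑ i, a (i - j) * c i = 0) : (∀ i, a i = 0) ∨ ∀ i j, c i = c j := by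
  have hb0 : NeZero b := ⟨hb.out.ne_zero⟩
  have hb1 : 1 < b := hb.out.one_lt
  obtain ⟨ζ, hζ⟩ : ∃ ζ : ℂ, IsPrimitiveRoot ζ b := ⟨_, Complex.isPrimitiveRoot_exp b hb.out.ne_zero⟩
  have hζ' : IsPrimitiveRoot ζ⁻¹ b := hζ.inv
  -- powers indexed by `ZMod b`
  have hpow : ∀ i j : ZMod b, ζ ^ (i + j).val = ζ ^ i.val * ζ ^ j.val := by
    intro i j
    rw [ZMod.val_add, ← pow_add]
    conv_rhs => rw [← Nat.mod_add_div (i.val + j.val) b]
    rw [pow_add, pow_mul, hζ.pow_eq_one, one_pow, mul_one]
  -- the equivalence with `Fin b`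
  have hkey : ∀ (ξ : ℂ), IsPrimitiveRoot ξ b → ∀ u : ZMod b → ℤ,
      ∑ i, (u i : ℂ) * ξ ^ i.val = 0 → ∀ i j, u i = u j := by
    intro ξ hξ u hu
    let e : Fin b ≃ ZMod b := (ZMod.finEquiv b).toEquiv
    have hval : ∀ i : Fin b, (e i).val = i.val := by
      intro i
      cases b with
      | zero => exact absurd rfl hb.out.ne_zero
      | succ m => rfl
    have h1 : ∑ i : Fin b, ((fun i => u (e i)) i : ℂ) * ξ ^ i.val = 0 := by
      rw [← hu]
      refine Fintype.sum_equiv e _ _ fun i => ?_
      rw [hval]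
    have h2 := (hξ.sum_eq_zero_iff_forall_eq_int hb.out (fun i => u (e i))).1 h1
    intro i j
    have := h2 (e.symm i) (e.symm j)
    simpa using this
  have hprod : (∑ i : ZMod b, (a i : ℂ) * ζ ^ i.val) * (∑ i : ZMod b, (c i : ℂ) * ζ⁻¹ ^ i.val) = 0 := by
    have hinv : ∀ i : ZMod b, ζ⁻¹ ^ i.val = ζ ^ (-i).val := by
      intro i
      have h1 := hpow i (-i)
      rw [add_neg_cancel, ZMod.val_zero, pow_zero] at h1
      rw [inv_pow]
      exact inv_eq_of_mul_eq_one_right h1.symm
    simp_rw [hinv]
    rw [Finset.sum_mul_sum]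
    have h1 : ∀ i j : ZMod b, (a i : ℂ) * ζ ^ i.val * ((c j : ℂ) * ζ ^ (-j).val) =
        (a i * c j : ℂ) * ζ ^ (i - j).val := by
      intro i j
      rw [sub_eq_add_neg, hpow]
      ring
    simp_rw [h1]
    rw [Finset.sum_comm]
    have h2 : ∀ j : ZMod b, ∑ i, (a i * c j : ℂ) * ζ ^ (i - j).val =
        ∑ t, (a (t + j) * c j : ℂ) * ζ ^ t.val := by
      intro j
      refine Fintype.sum_equiv (Equiv.subRight j) _ _ fun i => ?_
      simp
    simp_rw [h2]
    rw [Finset.sum_comm]
    refine Finset.sum_eq_zero fun t _ => ?_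
    rw [← Finset.sum_mul]
    have h3 : ∑ j, (a (t + j) * c j : ℂ) = 0 := by
      have h4 := h (-t)
      have h5 : ∑ j, a (t + j) * c j = 0 := by
        rw [← h4]
        refine Finset.sum_congr rfl fun j _ => ?_
        rw [sub_neg_eq_add, add_comm]
      exact_mod_cast h5
    rw [h3, zero_mul]
  rcases mul_eq_zero.1 hprod with h1 | h1
  · left
    have h2 := hkey ζ hζ a h1
    intro i
    have h3 : ∑ j : ZMod b, a j = b * a i := by
      rw [Finset.sum_congr rfl (fun j _ => h2 j i), Finset.sum_const, Finset.card_univ, ZMod.card,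
        nsmul_eq_mul]
    rw [ha] at h3
    have hb' : (b : ℤ) ≠ 0 := by exact_mod_cast hb.out.ne_zero
    exact (mul_eq_zero.1 h3.symm).resolve_left hb'
  · exact Or.inr (hkey ζ⁻¹ hζ' c h1)

end conv

section sep

variable {G X : Type*} [Group G] [Fintype X] [MulAction G X]

/-- An antisymmetric function outside of `R` is detected by an antisymmetric function orthogonal
to `R`. -/
theorem exists_sep {ι : X → X} (hι : ∀ x, ι (ι x) = x)
    {U : AddSubgroup (X → ℤ)} (hU : IsRel G ι U)
    (f0 : X → ℤ) (hf0 : ∀ x, f0 (ι x) = - f0 x) (hf0U : f0 ∉ U) :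
    ∃ w : X → ℤ, (∀ x, w (ι x) = - w x) ∧ (∀ u ∈ U, ∑ x, u x * w x = 0) ∧
      ∑ x, f0 x * w x ≠ 0 := by
  classical
  let cst : (X → ℤ) → (X → ℚ) := fun f x => (f x : ℚ)
  let p : Submodule ℚ (X → ℚ) := Submodule.span ℚ (cst '' (U : Set (X → ℤ)))
  have hp : ∀ v ∈ p, ∃ n : ℤ, n ≠ 0 ∧ ∃ u ∈ U, cst u = (n : ℚ) • v := by
    intro v hv
    induction hv using Submodule.span_induction with
    | mem x hx =>
      obtain ⟨u, hu, rfl⟩ := hx
      exact ⟨1, one_ne_zero, u, hu, by simp⟩
    | zero => exact ⟨1, one_ne_zero, 0, U.zero_mem, by funext x; simp [cst]⟩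
    | add x y _ _ hx hy =>
      obtain ⟨n, hn, u, hu, hux⟩ := hx
      obtain ⟨m, hm, v, hv, hvy⟩ := hy
      refine ⟨n * m, mul_ne_zero hn hm, m • u + n • v,
        U.add_mem (U.zsmul_mem hu m) (U.zsmul_mem hv n), ?_⟩
      funext z
      have h1 := congrFun hux z
      have h2 := congrFun hvy z
      simp only [cst, Pi.smul_apply, smul_eq_mul] at h1 h2
      simp only [cst, Pi.smul_apply, Pi.add_apply, smul_eq_mul]
      push_cast
      rw [h1, h2]
      ring
    | smul a x _ hx =>
      obtain ⟨n, hn, u, hu, hux⟩ := hx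
      refine ⟨n * a.den, mul_ne_zero hn (by exact_mod_cast a.den_nz), a.num • u,
        U.zsmul_mem hu _, ?_⟩
      funext z
      have h1 := congrFun hux z
      simp only [cst, Pi.smul_apply, smul_eq_mul] at h1
      simp only [cst, Pi.smul_apply, smul_eq_mul]
      push_cast
      rw [h1]
      have h2 : (a.num : ℚ) = a.den * a := by
        rw [mul_comm]; exact (Rat.mul_den_eq_num a).symm
      rw [h2]
      ring
  have hf0p : cst f0 ∉ p := by
    intro hmem
    obtain ⟨n, hn, u, hu, hux⟩ := hp _ hmem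
    apply hf0U
    refine hU.sat n hn f0 ?_
    have : n • f0 = u := by
      funext z
      have h1 := congrFun hux z
      simp only [cst, Pi.smul_apply, smul_eq_mul] at h1
      simp only [Pi.smul_apply, smul_eq_mul]
      exact_mod_cast h1.symm
    rw [this]; exact hu
  obtain ⟨φ, hφ0, hφp⟩ := Submodule.exists_le_ker_of_notMem hf0p
  -- the vector of the functional
  let c : X → ℚ := fun x => φ (Pi.single x 1)
  have hφ : ∀ v : X → ℚ, φ v = ∑ x, v x * c x := by
    intro v
    conv_lhs => rw [← Finset.univ_sum_single v]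
    rw [map_sum]
    refine Finset.sum_congr rfl fun x _ => ?_
    have : (Pi.single x (v x) : X → ℚ) = v x • Pi.single x 1 := by
      rw [← Pi.single_smul, smul_eq_mul, mul_one]
    rw [this, map_smul, smul_eq_mul]
  let d : X → ℚ := fun x => c x - c (ι x)
  let N : ℕ := ∏ x, (d x).den
  have hN : N ≠ 0 := Finset.prod_ne_zero_iff.2 fun x _ => (d x).den_nz
  have hint : ∀ x, ∃ m : ℤ, (m : ℚ) = N * d x := by
    intro x
    have h1 : (d x).den ∣ N := Finset.dvd_prod_of_mem _ (Finset.mem_univ x)
    obtain ⟨t, ht⟩ := h1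
    refine ⟨t * (d x).num, ?_⟩
    rw [ht]
    push_cast
    have h2 : ((d x).num : ℚ) = d x * (d x).den := (Rat.mul_den_eq_num (d x)).symm
    rw [h2]; ring
  choose w hw using hint
  have hsum : ∀ f : X → ℤ, (∀ x, f (ι x) = - f x) →
      ((∑ x, f x * w x : ℤ) : ℚ) = N * (2 * φ (cst f)) := by
    intro f hf
    push_cast
    have h1 : ∀ x, (f x : ℚ) * (w x : ℚ) = N * (f x * c x - f x * c (ι x)) := by
      intro x
      rw [hw]
      simp only [d]; ring
    simp_rw [h1]
    rw [← Finset.mul_sum, Finset.sum_sub_distrib]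
    have h2 : ∑ x, (f x : ℚ) * c (ι x) = - ∑ x, (f x : ℚ) * c x := by
      rw [← Finset.sum_neg_distrib]
      have hι' : Function.Involutive ι := hι
      refine Fintype.sum_equiv (Function.Involutive.toPerm ι hι') _ _ fun x => ?_
      rw [Function.Involutive.coe_toPerm, hf x]
      push_cast
      ring
    rw [h2, hφ]
    simp only [cst]
    ring
  refine ⟨w, fun x => ?_, fun u hu => ?_, fun h => ?_⟩
  · have h1 : ((w (ι x) : ℤ) : ℚ) = ((- w x : ℤ) : ℚ) := by
      push_cast
      rw [hw, hw]
      simp only [d, hι]; ring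
    exact_mod_cast h1
  · have h1 := hsum u (hU.anti u hu)
    have h2 : φ (cst u) = 0 := hφp (Submodule.subset_span ⟨u, hu, rfl⟩)
    rw [h2, mul_zero, mul_zero] at h1
    exact_mod_cast h1
  · have h1 := hsum f0 hf0
    rw [h, Int.cast_zero] at h1
    have hN' : (N : ℚ) ≠ 0 := by exact_mod_cast hN
    have h2 : φ (cst f0) = 0 := by
      have := (mul_eq_zero.1 h1.symm).resolve_left hN'
      linarith
    exact hφ0 h2

end sep

section big

variable {G X : Type*} [Group G] [Finite G] [Fintype X] [DecidableEq X] [MulAction G X]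

/-- **Large prime criterion.** -/
theorem rel_eq_bot_of_big [MulAction.IsPretransitive G X] {ι : X → X}
    (hι : ∀ x, ι (ι x) = x) (hc : ∀ (g : G) x, ι (g • x) = g • ι x) (hfix : ∀ x, ι x ≠ x)
    (b : ℕ) [hb : Fact b.Prime] (hb2 : b ≠ 2) (hcard : Fintype.card X < 4 * b)
    (g : G) (hg1 : ∀ x : X, g ^ b • x = x) (hg2 : ∃ x : X, g • x ≠ x)
    {R : AddSubgroup (X → ℤ)} (hR : IsRel G ι R)
    (hsep : ∀ x y : X, x ≠ y → ee ι x - ee ι y ∉ R)
    (hs : ∀ s ∈ R, (∀ x, s x = 1 ∨ s x = -1) → (∀ k : G, tr k s = s ∨ tr k s = -s) → False) :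
    R = ⊥ := by
  classical
  have hb0 : NeZero b := ⟨hb.out.ne_zero⟩
  -- orbits of `g`
  have hgpow : ∀ (m : ℕ) (x : X), g ^ m • x = g ^ (m % b) • x := by
    intro m x
    conv_lhs => rw [← Nat.mod_add_div m b, pow_add, mul_smul, pow_mul]
    congr 1
    have : ∀ j : ℕ, (g ^ b) ^ j • x = x := by
      intro j
      induction j with
      | zero => simp
      | succ j ih => rw [pow_succ, mul_smul, hg1, ih]
    exact this _
  let P : X → ZMod b → X := fun x i => g ^ i.val • x
  have hP0 : ∀ x, P x 0 = x := fun x => by simp [P]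
  have hPm : ∀ x (m : ℕ) i, g ^ m • P x i = P x (i + m) := by
    intro x m i
    simp only [P]
    rw [← mul_smul, ← pow_add, hgpow, ZMod.val_add, ZMod.val_natCast, Nat.add_mod_mod,
      Nat.add_comm]
  have hPinj : ∀ x, g • x ≠ x → Function.Injective (P x) := by
    intro x hx
    have hper : Function.minimalPeriod (g • ·) x = b := by
      refine Function.minimalPeriod_eq_prime ?_ hx
      have h1 : (fun y : X => g • y)^[b] x = g ^ b • x := by
        rw [smul_iterate]
      change (fun y : X => g • y)^[b] x = x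
      rw [h1, hg1]
    intro i j hij
    simp only [P] at hij
    have h1 : ∀ m : ℕ, (fun y : X => g • y)^[m] x = g ^ m • x := fun m => by rw [smul_iterate]
    rw [← h1, ← h1] at hij
    have h2 := (Function.iterate_injOn_Iio_minimalPeriod (f := fun y : X => g • y) (x := x))
      (by rw [Set.mem_Iio, hper]; exact ZMod.val_lt i)
      (by rw [Set.mem_Iio, hper]; exact ZMod.val_lt j) hij
    exact ZMod.val_injective b h2
  have hPι : ∀ x i, ι (P x i) = P (ι x) i := fun x i => hc _ _
  -- the orbit and its image are disjoint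
  have hPιne : ∀ x, g • x ≠ x → ∀ i j, ι (P x i) ≠ P x j := by
    intro x hx i j h
    have h1 : ι (P x i) = g ^ (j - i).val • P x i := by
      rw [hPm, h]
      congr 1
      rw [ZMod.natCast_val, ZMod.cast_id]
      ring
    have h2 : P x i = P x (i + (j - i) + (j - i)) := by
      have h3 := hι (P x i)
      rw [h1, hc, h1, hPm x (j - i).val i, hPm x (j - i).val, ZMod.natCast_val,
        ZMod.cast_id] at h3
      exact h3.symm
    have h3 := hPinj x hx h2
    have h4 : (2 : ZMod b) * (j - i) = 0 := by linear_combination -h3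
    have h5 : (2 : ZMod b) ≠ 0 := by
      intro h5
      have h6 : ((2 : ℕ) : ZMod b) = 0 := by exact_mod_cast h5
      rw [ZMod.natCast_eq_zero_iff] at h6
      exact hb2 ((Nat.prime_dvd_prime_iff_eq hb.out Nat.prime_two).1 h6)
    have h6 := (mul_eq_zero.1 h4).resolve_left h5
    rw [h6, ZMod.val_zero, pow_zero, one_smul] at h1
    exact hfix _ h1
  have hιinj : Function.Injective ι := fun a b h => by rw [← hι a, h, hι]
  -- two injective families of `2 b` elements meet
  have hmeet : ∀ u v : ZMod b × Bool → X, Function.Injective u → Function.Injective v →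
      ∃ p p', u p = v p' := by
    intro u v hu hv
    by_contra hcon
    push Not at hcon
    have hinj : Function.Injective (Sum.elim u v) := by
      rw [Sum.elim_injective]
      exact ⟨hu, hv, hcon⟩
    have h1 := Fintype.card_le_of_injective _ hinj
    simp only [Fintype.card_sum, Fintype.card_prod, ZMod.card, Fintype.card_bool] at h1
    omega
  let Q : X → ZMod b × Bool → X := fun x p => if p.2 then P x p.1 else ι (P x p.1)
  have hQinj : ∀ x, g • x ≠ x → Function.Injective (Q x) := by
    rintro x hx ⟨i, ε⟩ ⟨j, δ⟩ h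
    cases ε <;> cases δ <;> simp only [Q, if_true, if_false, Bool.false_eq_true] at h
    · rw [hPinj x hx (hιinj h)]
    · exact absurd h (hPιne x hx i j)
    · exact absurd h.symm (hPιne x hx j i)
    · rw [hPinj x hx h]
  obtain ⟨x1, hx1⟩ := hg2
  -- everything outside is fixed
  have hout : ∀ z, (∀ p, z ≠ Q x1 p) → g • z = z := by
    intro z hz
    by_contra hne
    obtain ⟨⟨i, ε⟩, ⟨j, δ⟩, h⟩ := hmeet (Q z) (Q x1) (hQinj z hne) (hQinj x1 hx1)
    -- `z` lies in the family of `x1`
    have h1 : ∃ p, z = Q x1 p := by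
      have h2 : ∃ δ' : Bool, P z i = Q x1 (j, δ') := by
        cases ε <;> cases δ <;> simp only [Q, if_true, if_false, Bool.false_eq_true] at h
        · exact ⟨true, by simp only [Q, if_true]; exact hιinj h⟩
        · exact ⟨false, by
            simp only [Q, Bool.false_eq_true, if_false]
            rw [← hι (P z i), h]⟩
        · exact ⟨false, by simp only [Q, Bool.false_eq_true, if_false]; exact h⟩
        · exact ⟨true, by simp only [Q, if_true]; exact h⟩
      obtain ⟨δ', h3⟩ := h2
      have h4 : z = g ^ (-i).val • P z i := by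
        rw [hPm, ZMod.natCast_val, ZMod.cast_id, add_neg_cancel, hP0]
      refine ⟨(j + (-i).val, δ'), ?_⟩
      rw [h4, h3]
      cases δ' <;> simp only [Q, if_true, if_false, Bool.false_eq_true]
      · rw [← hc, hPm]
      · rw [hPm]
    obtain ⟨p, hp⟩ := h1
    exact hz p hp
  -- invariance
  have hinv : ∀ f ∈ R, ∀ i, f (P x1 i) = f x1 := by
    intro f hf
    let a : ZMod b → ℤ := fun i => f (P x1 i) - f (P x1 (i - 1))
    have hasum : ∑ i, a i = 0 := by
      simp only [a]
      rw [Finset.sum_sub_distrib, sub_eq_zero]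
      exact (Fintype.sum_equiv (Equiv.subRight 1) _ _ fun i => rfl).symm
    -- the orthogonal function
    obtain ⟨w, hwanti, hworth, hw0⟩ := exists_sep hι hR (ee ι (P x1 0) - ee ι (P x1 1))
      (fun x => by simp only [Pi.sub_apply, ee_anti hι]; ring)
      (hsep _ _ (fun h => by
        have := hPinj x1 hx1 h
        exact absurd this zero_ne_one))
    have hw1 : w (P x1 0) ≠ w (P x1 1) := by
      intro h
      apply hw0
      have h1 : ∀ x : X, ∑ z, ee ι x z * w z = 2 * w x := by
        intro x
        unfold ee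
        simp only [sub_mul, ite_mul, one_mul, zero_mul, Finset.sum_sub_distrib,
          Finset.sum_ite_eq', Finset.mem_univ, if_true, hwanti]
        ring
      simp only [Pi.sub_apply, sub_mul, Finset.sum_sub_distrib, h1, h, sub_self]
    have hconv : ∀ j, ∑ i, a (i - j) * w (P x1 i) = 0 := by
      intro j
      have hg' : ∀ z : X, tr (g ^ j.val) (f - tr g f) z = f ((g ^ j.val)⁻¹ • z) -
          f (g⁻¹ • ((g ^ j.val)⁻¹ • z)) := fun z => rfl
      have h1 := hworth _ (hR.stable (g ^ j.val) _ (R.sub_mem hf (hR.stable g f hf)))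
      -- restriction of the sum to the family
      have h2 : ∀ z, (∀ p, z ≠ Q x1 p) → tr (g ^ j.val) (f - tr g f) z * w z = 0 := by
        intro z hz
        have h3 := hout z hz
        have h4 : ∀ m : ℕ, g ^ m • z = z := by
          intro m
          induction m with
          | zero => simp
          | succ m ih => rw [pow_succ, mul_smul, h3, ih]
        have h5 : (g ^ j.val)⁻¹ • z = z := by rw [inv_smul_eq_iff, h4]
        have h6 : g⁻¹ • z = z := by rw [inv_smul_eq_iff, h3]
        rw [hg', h5, h6, sub_self, zero_mul]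
      have h3 : ∑ z, tr (g ^ j.val) (f - tr g f) z * w z =
          ∑ p : ZMod b × Bool, tr (g ^ j.val) (f - tr g f) (Q x1 p) * w (Q x1 p) := by
        rw [← Finset.sum_image (s := (Finset.univ : Finset (ZMod b × Bool))) (g := Q x1)
          (f := fun z => tr (g ^ j.val) (f - tr g f) z * w z)
          (fun p _ p' _ h => hQinj x1 hx1 h)]
        refine (Finset.sum_subset (Finset.subset_univ _) fun z _ hz => ?_).symm
        refine h2 z fun p hp => hz ?_
        rw [hp]
        exact Finset.mem_image_of_mem _ (Finset.mem_univ p)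
      rw [h3, Fintype.sum_prod_type] at h1
      have hfanti := hR.anti f hf
      have hgj : ∀ i, (g ^ j.val)⁻¹ • P x1 i = P x1 (i - j) := by
        intro i
        rw [inv_smul_eq_iff, hPm, ZMod.natCast_val, ZMod.cast_id, sub_add_cancel]
      have hg1' : ∀ i, g⁻¹ • P x1 i = P x1 (i - 1) := by
        intro i
        rw [inv_smul_eq_iff]
        have := hPm x1 1 (i - 1)
        rw [pow_one, Nat.cast_one, sub_add_cancel] at this
        exact this.symm
      have h4 : ∀ i : ZMod b, ∑ ε : Bool, tr (g ^ j.val) (f - tr g f) (Q x1 (i, ε)) *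
          w (Q x1 (i, ε)) = 2 * (a (i - j) * w (P x1 i)) := by
        intro i
        rw [Fintype.sum_bool]
        simp only [Q, if_true, Bool.false_eq_true, if_false]
        rw [hg', hg', hgj, hg1', ← hc, ← hc, hgj, hg1', hfanti, hfanti, hwanti]
        simp only [a]
        ring
      simp_rw [h4] at h1
      rw [← Finset.mul_sum] at h1
      omega
    have ha0 := (conv_zmod b a (fun i => w (P x1 i)) hasum hconv).resolve_right
      (fun h => hw1 (h 0 1))
    have hstep : ∀ m : ℕ, f (P x1 (m : ZMod b)) = f x1 := by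
      intro m
      induction m with
      | zero => rw [Nat.cast_zero, hP0]
      | succ m ih =>
        have h1 := ha0 ((m + 1 : ℕ) : ZMod b)
        simp only [a] at h1
        rw [Nat.cast_succ, add_sub_cancel_right, ih] at h1
        rw [Nat.cast_succ]
        omega
    intro i
    have := hstep i.val
    rwa [ZMod.natCast_val, ZMod.cast_id] at this
  -- the absolute value is constant
  have habs : ∀ f ∈ R, ∀ x x' : X, |f x| = |f x'| := by
    intro f hf x x'
    obtain ⟨k, hk⟩ := MulAction.exists_smul_eq G x1 x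
    obtain ⟨k', hk'⟩ := MulAction.exists_smul_eq G x1 x'
    have h1 : ∀ (k : G) (p : ZMod b × Bool), |f (k • Q x1 p)| = |f (k • x1)| := by
      rintro k ⟨i, ε⟩
      have h2 := hinv (tr k⁻¹ f) (hR.stable _ f hf) i
      rw [tr_apply, tr_apply, inv_inv] at h2
      cases ε
      · simp only [Q, Bool.false_eq_true, if_false]
        rw [← hc, hR.anti f hf, abs_neg, h2]
      · simp only [Q, if_true]
        rw [h2]
    obtain ⟨p, p', hpp⟩ := hmeet (fun p => k • Q x1 p) (fun p => k' • Q x1 p)
      (fun p p' h => hQinj x1 hx1 (smul_left_cancel k h))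
      (fun p p' h => hQinj x1 hx1 (smul_left_cancel k' h))
    change k • Q x1 p = k' • Q x1 p' at hpp
    rw [← hk, ← hk', ← h1 k p, ← h1 k' p', hpp]
  -- conclusion
  by_contra hR0
  obtain ⟨f, hfR, hf0⟩ : ∃ f, f ∈ R ∧ f ≠ 0 := by
    obtain ⟨a, ha⟩ := AddSubgroup.ne_bot_iff_exists_ne_zero.1 hR0
    exact ⟨a.1, a.2, fun h0 => ha (Subtype.ext h0)⟩
  obtain ⟨z0, hz0⟩ := Function.ne_iff.1 hf0
  rw [Pi.zero_apply] at hz0
  have hfne : ∀ x, f x ≠ 0 := by
    intro x h
    have := habs f hfR z0 x
    rw [h, abs_zero, abs_eq_zero] at this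
    exact hz0 this
  let s : X → ℤ := fun x => Int.sign (f x)
  have hsR : s ∈ R := by
    refine hR.sat |f z0| (abs_ne_zero.2 hz0) s ?_
    have : |f z0| • s = f := by
      funext x
      simp only [s, Pi.smul_apply, smul_eq_mul]
      rw [habs f hfR z0 x, mul_comm, Int.sign_mul_abs]
    rw [this]
    exact hfR
  have hs1 : ∀ x, s x = 1 ∨ s x = -1 := by
    intro x
    rcases lt_or_gt_of_ne (hfne x) with h | h
    · exact Or.inr (Int.sign_eq_neg_one_of_neg h)
    · exact Or.inl (Int.sign_eq_one_of_pos h)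
  refine hs s hsR hs1 fun k => ?_
  have hkR := hR.stable k s hsR
  have hk1 : tr k s z0 = 1 ∨ tr k s z0 = -1 := hs1 _
  have hzero : ∀ u ∈ R, u z0 = 0 → u = 0 := by
    intro u hu h
    funext x
    have := habs u hu z0 x
    rw [h, abs_zero] at this
    exact abs_eq_zero.1 this.symm
  by_cases h : tr k s z0 = s z0
  · left
    have := hzero _ (R.sub_mem hkR hsR) (by rw [Pi.sub_apply, h, sub_self])
    exact sub_eq_zero.1 this
  · right
    have h2 : tr k s z0 = - s z0 := by
      rcases hk1 with h3 | h3 <;> rcases hs1 z0 with h4 | h4 <;> omega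
    have := hzero _ (R.add_mem hkR hsR) (by rw [Pi.add_apply, h2, neg_add_cancel])
    exact eq_neg_of_add_eq_zero_left this

end big

end Pool.Agent.Helper10.SignedLattice
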