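import Mathlib
import Pool.Agent.Helper10.SignedLattice
import Pool.Agent.Helper10.SignedCore
import Pool.Agent.Helper10.SignedPadic

/-!
# Signed permutation lattices: actions which are doubly transitive on the pairs
-/

set_option autoImplicit false
set_option linter.unusedSectionVars false

namespace Pool.Agent.Helper10.SignedLattice

open Finset

section double

variable {G X : Type*} [Group G] [Finite G] [Fintype X] [DecidableEq X] [MulAction G X]

theorem rel_eq_bot_of_double [MulAction.IsPretransitive G X] {ι : X → X}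
    (hι : ∀ x, ι (ι x) = x)
    (h2 : ∀ x y y' : X, y ≠ x → y ≠ ι x → y' ≠ x → y' ≠ ι x →
      ∃ g : G, g • x = x ∧ (g • y = y' ∨ g • y = ι y'))
    (hc : ∀ (g : G) x, ι (g • x) = g • ι x)
    (n : X → ℤ) (hn : ∀ x, n (ι x) = - n x)
    (Φ : Finset X) (hΦ : IsHalf ι Φ) (hodd : Odd (∑ x ∈ Φ, n x)) (x0 : X) (hx0 : Even (n x0))
    {R : AddSubgroup (X → ℤ)} (hR : IsRel G ι R) (horth : ∀ f ∈ R, ∑ x, f x * n x = 0) :
    R = ⊥ := by
  classical
  have : Fintype G := Fintype.ofFinite G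
  by_contra hR0
  obtain ⟨f, hfR, hf0⟩ : ∃ f, f ∈ R ∧ f ≠ 0 := by
    obtain ⟨a, ha⟩ := AddSubgroup.ne_bot_iff_exists_ne_zero.1 hR0
    exact ⟨a.1, a.2, fun h0 => ha (Subtype.ext h0)⟩
  obtain ⟨z, hz⟩ := Function.ne_iff.1 hf0
  rw [Pi.zero_apply] at hz
  -- the invariants of the stabilizer
  let R' : AddSubgroup (X → ℤ) :=
    { carrier := {f | f ∈ R ∧ ∀ g : G, g • x0 = x0 → tr g f = f}
      zero_mem' := ⟨R.zero_mem, fun _ _ => rfl⟩
      add_mem' := by
        rintro a b ⟨ha, ha'⟩ ⟨hb, hb'⟩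
        exact ⟨R.add_mem ha hb, fun g hg => by rw [tr_add, ha' g hg, hb' g hg]⟩
      neg_mem' := by
        rintro a ⟨ha, ha'⟩
        exact ⟨R.neg_mem ha, fun g hg => by rw [tr_neg, ha' g hg]⟩ }
  have hR'mem : ∀ f, f ∈ R' ↔ f ∈ R ∧ ∀ g : G, g • x0 = x0 → tr g f = f := fun _ => Iff.rfl
  have hR' : IsRel (MulAction.stabilizer G x0) ι R' := by
    refine ⟨fun f hf => hR.anti f hf.1, fun g f hf => ?_, fun m hm f hf => ?_⟩
    · have h1 : tr g f = f := hf.2 (g : G) g.2
      rw [h1]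
      exact hf
    · obtain ⟨h1, h3⟩ := (hR'mem _).1 hf
      refine (hR'mem _).2 ⟨hR.sat m hm f h1, fun g hg => ?_⟩
      have h4 := h3 g hg
      rw [tr_smul] at h4
      exact smul_right_injective _ hm h4
  have hR'0 : R' ≠ ⊥ := by
    obtain ⟨g0, hg0⟩ := MulAction.exists_smul_eq G z x0
    let f' := tr g0 f
    have hf' : f' x0 = f z := by
      simp only [f', tr_apply, ← hg0, inv_smul_smul]
    let y : X → ℤ := ∑ g : MulAction.stabilizer G x0, tr (g : G) f'
    have hyR : y ∈ R := R.sum_mem fun g _ => hR.stable _ _ (hR.stable _ _ hfR)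
    have hy0 : y x0 = Fintype.card (MulAction.stabilizer G x0) * f z := by
      simp only [y, Finset.sum_apply, tr_apply]
      rw [Finset.sum_congr rfl (g := fun _ => f z), Finset.sum_const, Finset.card_univ,
        nsmul_eq_mul]
      intro g _
      have : (g : G)⁻¹ • x0 = x0 := by
        rw [inv_smul_eq_iff]
        exact g.2.symm
      rw [this, hf']
    have hy : y ∈ R' := by
      refine (hR'mem _).2 ⟨hyR, fun g hg => ?_⟩
      funext w
      simp only [y, tr_apply, Finset.sum_apply]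
      refine Fintype.sum_equiv (Equiv.mulLeft (⟨g, hg⟩ : MulAction.stabilizer G x0)) _ _ ?_
      intro h
      have : ((Equiv.mulLeft (⟨g, hg⟩ : MulAction.stabilizer G x0)) h : G) = g * h := rfl
      rw [this, mul_inv_rev, mul_smul]
    intro hbot
    rw [hbot, AddSubgroup.mem_bot] at hy
    rw [hy, Pi.zero_apply] at hy0
    have h1 : (Fintype.card (MulAction.stabilizer G x0) : ℤ) ≠ 0 := by
      exact_mod_cast Fintype.card_ne_zero
    exact (mul_ne_zero h1 hz) hy0.symm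
  obtain ⟨y, hyR', z0, hz0⟩ := exists_not_dvd hR' hR'0 2 Nat.prime_two
  obtain ⟨hyR, hyinv⟩ := (hR'mem _).1 hyR'
  have hyι : ∀ x, y (ι x) = - y x := hR.anti y hyR
  have hneg : ∀ a : ℤ, (((-a : ℤ)) : ZMod 2) = (a : ZMod 2) := fun a => by
    rw [Int.cast_neg, CharTwo.neg_eq]
  have hpar : ∀ z z', z ≠ x0 → z ≠ ι x0 → z' ≠ x0 → z' ≠ ι x0 →
      ((y z : ℤ) : ZMod 2) = (y z' : ZMod 2) := by
    intro z z' h1 h3 h4 h5
    obtain ⟨g, hg, hgz⟩ := h2 x0 z z' h1 h3 h4 h5
    have h6 := congrFun (hyinv g hg) (g • z)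
    rw [tr_apply, inv_smul_smul] at h6
    rcases hgz with h | h
    · rw [h6, h]
    · rw [h6, h, hyι, hneg]
  have hsum : ∀ f ∈ R, ∑ x ∈ Φ, ((f x : ℤ) : ZMod 2) * ((n x : ℤ) : ZMod 2) = 0 := by
    intro f hf
    have h1 := horth f hf
    rw [sum_eq_two_half hι hΦ (fun x => f x * n x) (fun x => by
      rw [hR.anti f hf, hn]; ring)] at h1
    have h3 : ∑ x ∈ Φ, f x * n x = 0 := by omega
    have h4 := congrArg (fun a : ℤ => (a : ZMod 2)) h3
    push_cast at h4
    exact h4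
  have hodd' : ∑ x ∈ Φ, ((n x : ℤ) : ZMod 2) = 1 := by
    have h1 := (ZMod.intCast_eq_one_iff_odd).2 hodd
    push_cast at h1
    exact h1
  have hx0' : ((n x0 : ℤ) : ZMod 2) = 0 := (ZMod.intCast_eq_zero_iff_even).2 hx0
  have hx0'' : ((n (ι x0) : ℤ) : ZMod 2) = 0 := by rw [hn, hneg, hx0']
  have h01 : ∀ a : ZMod 2, a ≠ 0 → a = 1 := by decide
  -- the values outside are even
  have hout : ∀ z, z ≠ x0 → z ≠ ι x0 → ((y z : ℤ) : ZMod 2) = 0 := by
    intro z1 h1 h3
    by_contra hne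
    have h4 := h01 _ hne
    have h5 : ∑ x ∈ Φ, ((y x : ℤ) : ZMod 2) * ((n x : ℤ) : ZMod 2) =
        ∑ x ∈ Φ, ((n x : ℤ) : ZMod 2) := by
      refine Finset.sum_congr rfl fun x _ => ?_
      by_cases h6 : x = x0
      · rw [h6, hx0', mul_zero]
      by_cases h7 : x = ι x0
      · rw [h7, hx0'', mul_zero]
      · rw [← hpar z1 x h1 h3 h6 h7, h4, one_mul]
    rw [hsum y hyR, hodd'] at h5
    exact absurd h5 (by decide)
  have hyx0 : ((y x0 : ℤ) : ZMod 2) = 1 := by
    apply h01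
    intro h
    have h1 : ((y z0 : ℤ) : ZMod 2) = 0 := by
      by_cases h6 : z0 = x0
      · rw [h6, h]
      by_cases h7 : z0 = ι x0
      · rw [h7, hyι, hneg, h]
      · exact hout z0 h6 h7
    rw [ZMod.intCast_zmod_eq_zero_iff_dvd] at h1
    exact hz0 h1
  -- the other point
  obtain ⟨x1, hx1Φ, hx1⟩ : ∃ x1 ∈ Φ, ((n x1 : ℤ) : ZMod 2) = 1 := by
    by_contra hcon
    push Not at hcon
    have h1 : ∑ x ∈ Φ, ((n x : ℤ) : ZMod 2) = 0 := by
      refine Finset.sum_eq_zero fun x hx => ?_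
      by_contra h
      exact hcon x hx (h01 _ h)
    rw [hodd'] at h1
    exact absurd h1 (by decide)
  obtain ⟨g1, hg1⟩ := MulAction.exists_smul_eq G x0 x1
  have h1 := hsum (tr g1 y) (hR.stable g1 y hyR)
  have h3 : ∑ x ∈ Φ, ((tr g1 y x : ℤ) : ZMod 2) * ((n x : ℤ) : ZMod 2) = 1 := by
    rw [Finset.sum_eq_single x1]
    · rw [tr_apply, ← hg1, inv_smul_smul, hyx0, hg1, hx1, one_mul]
    · intro x hx hxx1
      have h4 : g1⁻¹ • x ≠ x0 := by
        intro h
        rw [inv_smul_eq_iff, hg1] at h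
        exact hxx1 h
      have h5 : g1⁻¹ • x ≠ ι x0 := by
        intro h
        rw [inv_smul_eq_iff, ← hc, hg1] at h
        rw [h] at hx
        exact ((hΦ x1).1 hx) hx1Φ
      rw [tr_apply, hout _ h4 h5, zero_mul]
    · intro h
      exact absurd hx1Φ h
  rw [h3] at h1
  exact absurd h1 (by decide)

end double

end Pool.Agent.Helper10.SignedLattice
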