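import Mathlib
import Pool.Agent.Helper10.SignedLattice
import Pool.Agent.Helper10.SignedCore

/-!
# Signed permutation lattices: relations between several orbits
-/

set_option autoImplicit false
set_option linter.unusedSectionVars false

namespace Pool.Agent.Helper10.SignedLattice

open Finset

section split

variable {G X : Type*} [Group G] [Finite X] [DecidableEq X] [MulAction G X]

/-- The orbits of `x` and `y` have no common constituent, by one of two criteria (the second one
is not symmetric). -/
def DisjOrb (G : Type*) {X : Type*} [Group G] [MulAction G X] (ι : X → X) (x y : X) : Prop :=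
  (∃ a b : G, (∀ z ∈ MulAction.orbit G x, a • z = z) ∧ (∀ z ∈ MulAction.orbit G y, b • z = z) ∧
    ∀ z ∈ MulAction.orbit G x, (a * b) • z = ι z) ∨
  (Irred G ι (MulAction.orbit G x) ∧
    (Nat.card (MulAction.orbit G y) < Nat.card (MulAction.orbit G x) ∨
      ∃ g : G, (∀ z ∈ MulAction.orbit G y, g • z = z) ∧ ∃ z ∈ MulAction.orbit G x, g • z ≠ z))

/-- **Splitting theorem.** -/
theorem rel_eq_bot_of_disj {ι : X → X} (hι : ∀ x, ι (ι x) = x)
    (hc : ∀ (g : G) x, ι (g • x) = g • ι x) (hfix : ∀ x, ι x ≠ x)
    (horb : ∀ x, ι x ∈ MulAction.orbit G x)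
    {R : AddSubgroup (X → ℤ)} (hR : IsRel G ι R)
    (hneat : ∀ x : X, supIn R (MulAction.orbit G x) = ⊥)
    (hdisj : ∀ x y : X, y ∉ MulAction.orbit G x → DisjOrb G ι x y ∨ DisjOrb G ι y x) :
    R = ⊥ := by
  classical
  by_contra hR0
  have horbst : ∀ (x : X) (g : G) (z : X), g • z ∈ MulAction.orbit G x ↔
      z ∈ MulAction.orbit G x := by
    intro x g z
    constructor
    · rintro ⟨h, hh⟩
      exact ⟨g⁻¹ * h, by
        change (g⁻¹ * h) • x = z
        change h • x = g • z at hh
        rw [mul_smul, hh, inv_smul_smul]⟩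
    · rintro ⟨h, hh⟩
      exact ⟨g * h, by
        change (g * h) • x = g • z
        change h • x = z at hh
        rw [mul_smul, hh]⟩
  have horbι : ∀ x z, ι z ∈ MulAction.orbit G x ↔ z ∈ MulAction.orbit G x := by
    intro x z
    have key : ∀ z, z ∈ MulAction.orbit G x → ι z ∈ MulAction.orbit G x := by
      intro z hz
      rw [← MulAction.orbit_eq_iff.2 hz]
      exact horb z
    exact ⟨fun h => by have := key _ h; rwa [hι] at this, key z⟩
  -- minimal stable set
  have hex : ∃ n : ℕ, ∃ Y : Set X, Y.ncard = n ∧ (∀ (g : G), ∀ x : X, g • x ∈ Y ↔ x ∈ Y) ∧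
      supIn R Y ≠ ⊥ := by
    refine ⟨_, Set.univ, rfl, fun _ _ => by simp, fun hbot => hR0 ?_⟩
    rw [eq_bot_iff] at hbot ⊢
    intro f hf
    exact hbot ⟨hf, fun x hx => absurd (Set.mem_univ x) hx⟩
  obtain ⟨Y, hYn, hYst, hYR⟩ := Nat.find_spec hex
  have hmin : ∀ Y' : Set X, (∀ (g : G), ∀ x : X, g • x ∈ Y' ↔ x ∈ Y') → Y'.ncard < Y.ncard →
      ∀ f ∈ R, (∀ x ∉ Y', f x = 0) → f = 0 := by
    intro Y' hst hlt f hf hf0
    by_contra hne
    rw [hYn] at hlt
    refine Nat.find_min hex hlt ⟨Y', rfl, hst, ?_⟩
    intro hbot
    have : f ∈ supIn R Y' := ⟨hf, hf0⟩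
    rw [hbot] at this
    exact hne this
  have hsub : ∀ x ∈ Y, (Y \ MulAction.orbit G x).ncard < Y.ncard := by
    intro x hx
    exact Set.ncard_lt_ncard ⟨Set.sdiff_subset, fun h => (h hx).2 (MulAction.mem_orbit_self x)⟩
  have hsubst : ∀ x ∈ Y, ∀ (g : G), ∀ z, g • z ∈ Y \ MulAction.orbit G x ↔
      z ∈ Y \ MulAction.orbit G x := by
    intro x _ g z
    rw [Set.mem_sdiff, Set.mem_sdiff, hYst, horbst]
  obtain ⟨f0, hf0R, hf00⟩ : ∃ f0, f0 ∈ supIn R Y ∧ f0 ≠ 0 := by
    obtain ⟨a, ha⟩ := AddSubgroup.ne_bot_iff_exists_ne_zero.1 hYR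
    exact ⟨a.1, a.2, fun h0 => ha (Subtype.ext h0)⟩
  have vanish : ∀ x ∈ Y, ∀ f ∈ supIn R Y, (∀ z ∈ MulAction.orbit G x, f z = 0) → f = 0 := by
    intro x hx f hf hf0
    refine hmin _ (hsubst x hx) (hsub x hx) _ hf.1 ?_
    intro z hz
    by_cases hzY : z ∈ Y
    · refine hf0 z ?_
      by_contra h
      exact hz ⟨hzY, h⟩
    · exact hf.2 z hzY
  have hinv : ∀ y ∈ Y, ∀ g : G, (∀ z ∈ MulAction.orbit G y, g • z = z) →
      ∀ f ∈ supIn R Y, ∀ z, f (g⁻¹ • z) = f z := by
    intro y hy n hn f hf z
    have h1 : f - tr n f = 0 := by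
      refine vanish y hy _ ((supIn R Y).sub_mem hf ((hR.supIn Y hYst).stable n f hf)) ?_
      intro z hzx
      rw [Pi.sub_apply, tr_apply]
      have : n⁻¹ • z = z := by
        conv_lhs => rw [← hn z hzx]
        rw [inv_smul_smul]
      rw [this, sub_self]
    have := congrFun h1 z
    rw [Pi.sub_apply, tr_apply, Pi.zero_apply] at this
    omega
  -- the comparison lemma
  have main : ∀ x ∈ Y, ∀ y ∈ Y, y ∉ MulAction.orbit G x → DisjOrb G ι x y → False := by
    intro x hx y hy hyx hd
    rcases hd with ⟨a, b, ha, hb, hab⟩ | ⟨hirr, hd⟩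
    · -- common conjugation
      apply hf00
      refine vanish x hx f0 hf0R fun z hz => ?_
      have h1 := hinv y hy b hb f0 hf0R
      -- `f0 (ι z) = f0 z`
      have h2 : f0 ((a * b) • z) = f0 (a • b • z) := by rw [mul_smul]
      have hbz : b • z ∈ MulAction.orbit G x := (horbst x b z).2 hz
      rw [ha _ hbz] at h2
      have h3 : f0 (b • z) = f0 z := by
        have := h1 (b • z)
        rw [inv_smul_smul] at this
        exact this.symm
      rw [h3, hab z hz, hR.anti f0 hf0R.1] at h2
      omega
    · have lift : ∀ z ∈ MulAction.orbit G x,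
          ∃ m : ℤ, m ≠ 0 ∧ ∃ f ∈ supIn R Y, ∀ t ∈ MulAction.orbit G x, m * ee ι z t = f t := by
        intro z hz
        have hYrel := hR.supIn Y hYst
        have hU := isRel_restr hc hYrel (MulAction.orbit G x) (horbst x)
        have hU0 : restr ι (supIn R Y) (MulAction.orbit G x) ≠ ⊥ := by
          have hnz : ∃ z ∈ MulAction.orbit G x, f0 z ≠ 0 := by
            by_contra hcon
            push Not at hcon
            exact hf00 (vanish x hx f0 hf0R hcon)
          obtain ⟨z, hz, hz0⟩ := hnz
          let b : X → ℤ := fun t => if t ∈ MulAction.orbit G x then f0 t else 0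
          have hb : b ∈ restr ι (supIn R Y) (MulAction.orbit G x) := by
            refine ⟨fun t => ?_, fun t ht => if_neg ht, 1, one_ne_zero, f0, hf0R, fun t ht => ?_⟩
            · simp only [b, horbι, hR.anti _ hf0R.1]
              split_ifs <;> simp
            · simp only [b, if_pos ht, one_mul]
          intro hbot
          rw [hbot, AddSubgroup.mem_bot] at hb
          have := congrFun hb z
          simp only [b, if_pos hz, Pi.zero_apply] at this
          exact hz0 this
        have hmem : ee ι z ∈ restr ι (supIn R Y) (MulAction.orbit G x) := by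
          refine hirr _ hU (fun f hf => hf.2.1) hU0 _ (ee_anti hι z) ?_
          intro t ht
          unfold ee
          have h1 : t ≠ z := by rintro rfl; exact ht hz
          have h2 : t ≠ ι z := by rintro rfl; exact ht ((horbι x z).2 hz)
          rw [if_neg h1, if_neg h2, sub_zero]
        obtain ⟨-, -, m, hm, f, hf, hfe⟩ := hmem
        exact ⟨m, hm, f, hf, hfe⟩
      rcases hd with hcard | ⟨g, hg, z, hz, hgz⟩
      · -- comparison of the sizes of the orbits
        have : Fintype X := Fintype.ofFinite X
        let e : X ≃ Fin (Fintype.card X) := Fintype.equivFin X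
        let D : X → Finset X := fun x =>
          Finset.univ.filter fun z => z ∈ MulAction.orbit G x ∧ e z < e (ι z)
        have hmemD : ∀ x z, z ∈ D x ↔ z ∈ MulAction.orbit G x ∧ e z < e (ι z) :=
          fun x z => by simp [D]
        have hDι : ∀ x, ∀ z ∈ MulAction.orbit G x, z ∉ D x → ι z ∈ D x := by
          intro x z hz hzD
          rw [hmemD] at hzD ⊢
          refine ⟨(horbι x z).2 hz, ?_⟩
          rw [hι]
          have h1 : ¬ (e z < e (ι z)) := fun h => hzD ⟨hz, h⟩
          have h2 : e z ≠ e (ι z) := fun h => hfix z (e.injective h).symm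
          exact lt_of_le_of_ne (not_lt.1 h1) h2.symm
        have hDι' : ∀ x, ∀ z ∈ D x, ι z ∉ D x := by
          intro x z hz h
          rw [hmemD] at hz h
          rw [hι] at h
          exact absurd hz.2 (not_lt.2 h.2.le)
        have hDcard : ∀ x, Nat.card (MulAction.orbit G x) = 2 * (D x).card := by
          intro x
          have hdisj : Disjoint (D x) ((D x).image ι) := by
            rw [Finset.disjoint_left]
            intro z hz hz2
            obtain ⟨t, ht, rfl⟩ := Finset.mem_image.1 hz2
            exact hDι' x t ht hz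
          have h1 : ((D x ∪ (D x).image ι : Finset X) : Set X) = MulAction.orbit G x := by
            ext z
            rw [Finset.mem_coe, Finset.mem_union]
            constructor
            · rintro (h | h)
              · exact ((hmemD x z).1 h).1
              · obtain ⟨t, ht, rfl⟩ := Finset.mem_image.1 h
                exact (horbι x t).2 ((hmemD x t).1 ht).1
            · intro h
              by_cases hzD : z ∈ D x
              · exact Or.inl hzD
              · exact Or.inr (Finset.mem_image.2 ⟨ι z, hDι x z h hzD, hι z⟩)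
          rw [Nat.card_coe_set_eq, ← h1, Set.ncard_coe_finset, Finset.card_union_of_disjoint hdisj,
            Finset.card_image_of_injective _ (fun a b h => by rw [← hι a, h, hι])]
          ring
        choose! m hm f hf hfe using lift
        let v : D x → (D y → ℤ) := fun z t => f z t
        have hli : LinearIndependent ℤ v := by
          rw [Fintype.linearIndependent_iff]
          intro g hg z0
          let F : X → ℤ := ∑ z : D x, g z • f z
          have hFR : F ∈ supIn R Y := (supIn R Y).sum_mem fun z _ =>
            (supIn R Y).zsmul_mem (hf z ((hmemD x z).1 z.2).1) _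
          have hFD : ∀ t ∈ D y, F t = 0 := by
            intro t ht
            have := congrFun hg ⟨t, ht⟩
            simpa [F, v, Finset.sum_apply] using this
          have hF0 : F = 0 := by
            refine vanish y hy F hFR fun t ht => ?_
            by_cases htD : t ∈ D y
            · exact hFD t htD
            · have h1 := hFD _ (hDι y t ht htD)
              rw [hR.anti F hFR.1] at h1
              omega
          have h1 : F z0 = g z0 * m z0 := by
            have h2 : F z0 = ∑ z : D x, g z * (f z) z0 := by simp [F, Finset.sum_apply]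
            rw [h2, Finset.sum_eq_single z0]
            · rw [← hfe z0 ((hmemD x z0).1 z0.2).1 z0 ((hmemD x z0).1 z0.2).1, ee_self hfix,
                mul_one]
            · intro z _ hz
              rw [← hfe z ((hmemD x z).1 z.2).1 z0 ((hmemD x z0).1 z0.2).1]
              have h3 : (z0 : X) ≠ z := fun h => hz (Subtype.ext h.symm)
              have h4 : (z0 : X) ≠ ι z := by
                intro h
                exact hDι' x z z.2 (h ▸ z0.2)
              unfold ee
              rw [if_neg h3, if_neg h4]
              ring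
            · intro h
              exact absurd (Finset.mem_univ _) h
          rw [hF0, Pi.zero_apply] at h1
          exact (mul_eq_zero.1 h1.symm).resolve_right (hm z0 ((hmemD x z0).1 z0.2).1)
        have hle := hli.fintype_card_le_finrank
        have hle2 : (D x).card ≤ (D y).card := by simpa using hle
        rw [hDcard, hDcard] at hcard
        omega
      · obtain ⟨m, hm, f, hf, hfe⟩ := lift z hz
        have h1 := hfe z hz
        have h2 := hfe (g⁻¹ • z) ((horbst x g⁻¹ z).2 hz)
        rw [hinv y hy g hg f hf z, ← h1] at h2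
        have h3 := mul_left_cancel₀ hm h2
        rw [ee_self hfix] at h3
        have h4 := eq_of_ee_eq_one _ _ h3
        apply hgz
        conv_lhs => rw [← h4]
        rw [smul_inv_smul]
  -- conclusion
  obtain ⟨y, hy⟩ := Function.ne_iff.1 hf00
  have hyY : y ∈ Y := by
    by_contra h
    exact hy (hf0R.2 y h)
  have hYO : Y ⊆ MulAction.orbit G y := by
    intro x hx
    by_contra hxy
    have hyx : y ∉ MulAction.orbit G x := by
      rwa [MulAction.mem_orbit_symm]
    rcases hdisj x y hyx with h | h
    · exact main x hx y hyY hyx h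
    · exact main y hyY x hx hxy h
  have h1 : f0 ∈ supIn R (MulAction.orbit G y) :=
    ⟨hf0R.1, fun x hx => hf0R.2 x fun h => hx (hYO h)⟩
  rw [hneat y, AddSubgroup.mem_bot] at h1
  exact hf00 h1

end split

section single

variable {G X : Type*} [Group G] [Finite X] [DecidableEq X] [MulAction G X]

/-- If the orbit of `x` is irreducible and `R` does not contain a basic function, then `R` has no
nonzero element supported on the orbit. -/
theorem supIn_eq_bot_of_irred {ι : X → X} (hι : ∀ x, ι (ι x) = x)
    (hc : ∀ (g : G) x, ι (g • x) = g • ι x)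
    (x : X) (horb : ι x ∈ MulAction.orbit G x)
    {R : AddSubgroup (X → ℤ)} (hR : IsRel G ι R) (hirr : Irred G ι (MulAction.orbit G x))
    (hx : ee ι x ∉ R) : supIn R (MulAction.orbit G x) = ⊥ := by
  by_contra hne
  have horbst : ∀ (g : G) (z : X), g • z ∈ MulAction.orbit G x ↔
      z ∈ MulAction.orbit G x := by
    intro g z
    constructor
    · rintro ⟨h, hh⟩
      exact ⟨g⁻¹ * h, by
        change (g⁻¹ * h) • x = z
        change h • x = g • z at hh
        rw [mul_smul, hh, inv_smul_smul]⟩
    · rintro ⟨h, hh⟩
      exact ⟨g * h, by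
        change (g * h) • x = g • z
        change h • x = z at hh
        rw [mul_smul, hh]⟩
  refine hx (hirr (supIn R (MulAction.orbit G x)) (hR.supIn _ horbst) (fun f hf => hf.2) hne
    (ee ι x) (ee_anti hι x) ?_).1
  intro t ht
  unfold ee
  have h1 : t ≠ x := by rintro rfl; exact ht (MulAction.mem_orbit_self _)
  have h2 : t ≠ ι x := by rintro rfl; exact ht horb
  rw [if_neg h1, if_neg h2, sub_zero]

/-- The relations supported on an orbit, as functions on the orbit. -/
def onOrbit (R : AddSubgroup (X → ℤ)) (x : X) [DecidablePred (· ∈ MulAction.orbit G x)] :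
    AddSubgroup (MulAction.orbit G x → ℤ) where
  carrier := {f | (fun z => if h : z ∈ MulAction.orbit G x then f ⟨z, h⟩ else 0) ∈ R}
  zero_mem' := by
    have : (fun z => if h : z ∈ MulAction.orbit G x then
        (0 : MulAction.orbit G x → ℤ) ⟨z, h⟩ else 0) = (0 : X → ℤ) := by
      funext z
      split_ifs <;> rfl
    simp only [Set.mem_setOf_eq, this]
    exact R.zero_mem
  add_mem' := by
    intro a b ha hb
    simp only [Set.mem_setOf_eq] at ha hb ⊢
    convert R.add_mem ha hb using 1
    funext z
    simp only [Pi.add_apply]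
    split_ifs <;> simp
  neg_mem' := by
    intro a ha
    simp only [Set.mem_setOf_eq] at ha ⊢
    convert R.neg_mem ha using 1
    funext z
    simp only [Pi.neg_apply]
    split_ifs <;> simp

theorem mem_onOrbit (R : AddSubgroup (X → ℤ)) (x : X)
    [DecidablePred (· ∈ MulAction.orbit G x)] (f : MulAction.orbit G x → ℤ) :
    f ∈ onOrbit (G := G) R x ↔
      (fun z => if h : z ∈ MulAction.orbit G x then f ⟨z, h⟩ else 0) ∈ R := Iff.rfl

theorem isRel_onOrbit {ι : X → X} {R : AddSubgroup (X → ℤ)} (hR : IsRel G ι R) (x : X)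
    [DecidablePred (· ∈ MulAction.orbit G x)]
    (ι' : MulAction.orbit G x → MulAction.orbit G x) (hι' : ∀ z, (ι' z : X) = ι z) :
    IsRel G ι' (onOrbit (G := G) R x) where
  anti f hf z := by
    have h1 := hR.anti _ ((mem_onOrbit R x f).1 hf) z.1
    rw [← hι'] at h1
    simpa using h1
  stable g f hf := by
    rw [mem_onOrbit] at hf ⊢
    have h1 := hR.stable g _ hf
    convert h1 using 1
    funext z
    rw [tr_apply]
    by_cases hz : z ∈ MulAction.orbit G x
    · have hz' : g⁻¹ • z ∈ MulAction.orbit G x := by
        obtain ⟨h, hh⟩ := hz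
        exact ⟨g⁻¹ * h, by
          change (g⁻¹ * h) • x = g⁻¹ • z
          change h • x = z at hh
          rw [mul_smul, hh]⟩
      rw [dif_pos hz, dif_pos hz']
      rfl
    · have hz' : g⁻¹ • z ∉ MulAction.orbit G x := by
        rintro ⟨h, hh⟩
        refine hz ⟨g * h, ?_⟩
        change (g * h) • x = z
        change h • x = g⁻¹ • z at hh
        rw [mul_smul, hh, smul_inv_smul]
      rw [dif_neg hz, dif_neg hz']
  sat n hn f hf := by
    rw [mem_onOrbit] at hf ⊢
    refine hR.sat n hn _ ?_
    convert hf using 1
    funext z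
    simp only [Pi.smul_apply]
    split_ifs <;> simp

theorem supIn_eq_bot_of_onOrbit {R : AddSubgroup (X → ℤ)} (x : X)
    [DecidablePred (· ∈ MulAction.orbit G x)] (h : onOrbit (G := G) R x = ⊥) :
    supIn R (MulAction.orbit G x) = ⊥ := by
  rw [eq_bot_iff]
  intro f hf
  rw [AddSubgroup.mem_bot]
  have h1 : (fun z : MulAction.orbit G x => f z) ∈ onOrbit (G := G) R x := by
    rw [mem_onOrbit]
    convert hf.1 using 1
    funext z
    by_cases hz : z ∈ MulAction.orbit G x
    · rw [dif_pos hz]
    · rw [dif_neg hz, hf.2 z hz]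
  rw [h, AddSubgroup.mem_bot] at h1
  funext z
  by_cases hz : z ∈ MulAction.orbit G x
  · exact congrFun h1 ⟨z, hz⟩
  · exact hf.2 z hz

end single

end Pool.Agent.Helper10.SignedLattice
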