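import Mathlib
import Pool.Agent.Helper10.NeatDefs
import Pool.Agent.Helper10.Frob2

/-!
# The Frobenius data of a polynomial with several weights
-/

set_option autoImplicit false
set_option linter.unusedSectionVars false

namespace Pool.Agent.Helper10.WeilTwo

open Polynomial Finset Pool.Agent.Helper10.Frob2 ComplexConjugate Pool.Agent.Helper10.Neat

variable {k : Type*} [Field k] [Algebra k ℝ]

theorem aeval_conj' (h : k[X]) (z : ℂ) : aeval (conj z) h = conj (aeval z h) := by
  have h1 : ∀ w : ℂ, aeval w h = aeval w (h.map (algebraMap k ℝ)) := fun w =>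
    (aeval_map_algebraMap ℝ w h).symm
  rw [h1, h1, aeval_conj]

theorem root_conj (h : k[X]) (z : ℂ) (hz : aeval z h = 0) : aeval (conj z) h = 0 := by
  rw [aeval_conj', hz, map_zero]

theorem conj_eq_div {Q : ℕ} {z : ℂ} (hz : ‖z‖ ^ 2 = Q) (hq : 0 < Q) : conj z = (Q : ℂ) / z := by
  have hz0 : z ≠ 0 := by
    rintro rfl
    rw [norm_zero] at hz
    have : (Q : ℝ) ≠ 0 := by exact_mod_cast hq.ne'
    apply this
    rw [← hz]; norm_num
  rw [eq_div_iff hz0, mul_comm, Complex.mul_conj, Complex.normSq_eq_norm_sq, hz]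
  push_cast
  rfl

/-- The square of the absolute value, as a natural number. -/
noncomputable def Qn (z : ℂ) : ℕ := ⌊‖z‖ ^ 2⌋₊

theorem Qn_eq {Q : ℕ} {z : ℂ} (hz : ‖z‖ ^ 2 = Q) : Qn z = Q := by
  unfold Qn
  rw [hz, Nat.floor_natCast]

theorem Qn_conj (z : ℂ) : Qn (conj z) = Qn z := by
  unfold Qn
  rw [Complex.norm_conj]

theorem isSS_iff {z : ℂ} (hz : ‖z‖ ^ 2 = Qn z) :
    IsSS z ↔ ∃ m : ℕ, 0 < m ∧ z ^ (2 * m) = (Qn z : ℂ) ^ m := by
  have hz' : (‖z‖ : ℂ) ^ 2 = (Qn z : ℂ) := by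
    have := congrArg (fun t : ℝ => (t : ℂ)) hz
    push_cast at this
    exact this
  constructor
  · rintro ⟨m, hm, h⟩
    refine ⟨m, hm, ?_⟩
    rw [mul_comm 2 m, pow_mul, h, ← pow_mul, mul_comm m 2, pow_mul, hz']
  · rintro ⟨m, hm, h⟩
    refine ⟨2 * m, by omega, ?_⟩
    rw [h, pow_mul, hz']

/-- The condition on the absolute values of the roots. -/
def Pure (P : k[X]) : Prop := ∀ h : k[X], h.Monic → Irreducible h → h ∣ P →
  ∃ Q : ℕ, 0 < Q ∧ ∀ z : ℂ, aeval z h = 0 → ‖z‖ ^ 2 = Q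

theorem isIntegral_of_root {P : k[X]} (hP : P ≠ 0) {z : ℂ} (hz : aeval z P = 0) :
    IsIntegral k z := by
  rw [← isAlgebraic_iff_isIntegral]
  exact ⟨P, hP, hz⟩

section setup

variable {P : k[X]} (hP : P ≠ 0) (hW : Pure P)

include hP hW

theorem norm_sq_root {z : ℂ} (hz : aeval z P = 0) : ‖z‖ ^ 2 = Qn z ∧ 0 < Qn z := by
  have hint := isIntegral_of_root hP hz
  obtain ⟨Q, hQ, h⟩ := hW (minpoly k z) (minpoly.monic hint) (minpoly.irreducible hint)
    (minpoly.dvd k z hz)
  have h1 := h z (minpoly.aeval k z)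
  rw [Qn_eq h1]
  exact ⟨h1, hQ⟩

theorem ne_zero_root {z : ℂ} (hz : aeval z P = 0) : z ≠ 0 := by
  rintro rfl
  obtain ⟨h1, h2⟩ := norm_sq_root hP hW hz
  rw [norm_zero] at h1
  have h3 : ((Qn (0 : ℂ) : ℕ) : ℝ) ≠ 0 := by exact_mod_cast h2.ne'
  apply h3
  rw [← h1]; norm_num

theorem conj_root {z : ℂ} (hz : aeval z P = 0) : conj z = (Qn z : ℂ) / z :=
  conj_eq_div (norm_sq_root hP hW hz).1 (norm_sq_root hP hW hz).2

theorem Qn_of_minpoly_eq {z w : ℂ} (hz : aeval z P = 0) (h : minpoly k w = minpoly k z) :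
    Qn w = Qn z := by
  have hint := isIntegral_of_root hP hz
  obtain ⟨Q, hQ, h3⟩ := hW (minpoly k z) (minpoly.monic hint) (minpoly.irreducible hint)
    (minpoly.dvd k z hz)
  have h1 := h3 z (minpoly.aeval k z)
  have h2 := h3 w (by rw [← h]; exact minpoly.aeval k w)
  rw [Qn_eq h1, Qn_eq h2]

end setup

theorem isSplittingField_SF (P : k[X]) : IsSplittingField k (SF P) P :=
  IntermediateField.adjoin_rootSet_isSplittingField (IsAlgClosed.splits _)

theorem finiteDimensional_SF (P : k[X]) : FiniteDimensional k (SF P) :=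
  haveI := isSplittingField_SF P
  IsSplittingField.finiteDimensional (SF P) P

theorem isGalois_SF (P : k[X]) : IsGalois k (SF P) := by
  have := isSplittingField_SF P
  have := finiteDimensional_SF P
  have : CharZero k := (algebraMap k ℝ).charZero
  have : Normal k (SF P) := Normal.of_isSplittingField P
  exact IsGalois.mk

theorem aeval_coe {P : k[X]} (h : k[X]) (z : SF P) :
    ((aeval z h : SF P) : ℂ) = aeval (z : ℂ) h := by
  rw [← IntermediateField.coe_val, ← aeval_algHom_apply]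

theorem aeval_coe_eq_zero {P : k[X]} (h : k[X]) (z : SF P) :
    aeval z h = 0 ↔ aeval (z : ℂ) h = 0 := by
  rw [← aeval_coe]
  exact (ZeroMemClass.coe_eq_zero).symm

theorem minpoly_coe {P : k[X]} (z : SF P) : minpoly k (z : ℂ) = minpoly k z := by
  have : (z : ℂ) = (SF P).val z := rfl
  rw [this]
  exact minpoly.algHom_eq (SF P).val (SF P).val.injective z

open Classical in
/-- The set of non-supersingular roots. -/
noncomputable def frobData (P : k[X]) (hP : P ≠ 0) (hW : Pure P) : FrobData k (SF P) where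
  carrier := ((P.map (algebraMap k (SF P))).roots.toFinset).filter fun z => ¬ IsSS (z : ℂ)
  Q z := Qn (z : ℂ)
  stable σ z hz := by
    have hPm : P.map (algebraMap k (SF P)) ≠ 0 :=
      (Polynomial.map_ne_zero_iff (algebraMap k (SF P)).injective).2 hP
    rw [Finset.mem_filter, Multiset.mem_toFinset, mem_roots hPm, IsRoot.def,
      eval_map_algebraMap] at hz ⊢
    have hz1 : aeval (z : ℂ) P = 0 := (aeval_coe_eq_zero P z).1 hz.1
    have hσ : aeval (σ z) P = 0 := by
      rw [← AlgEquiv.coe_toAlgHom, aeval_algHom_apply, hz.1, map_zero]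
    have hσ1 : aeval ((σ z : SF P) : ℂ) P = 0 := (aeval_coe_eq_zero P _).1 hσ
    refine ⟨hσ, fun h => hz.2 ?_⟩
    rw [isSS_iff (norm_sq_root hP hW hσ1).1] at h
    rw [isSS_iff (norm_sq_root hP hW hz1).1]
    obtain ⟨m, hm, h1⟩ := h
    have hQ : Qn ((σ z : SF P) : ℂ) = Qn (z : ℂ) := by
      refine Qn_of_minpoly_eq hP hW hz1 ?_
      rw [minpoly_coe, minpoly_coe]
      exact minpoly.algEquiv_eq σ z
    refine ⟨m, hm, ?_⟩
    rw [hQ] at h1
    have h2 : (σ z) ^ (2 * m) = (Qn (z : ℂ) : SF P) ^ m := by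
      apply Subtype.ext
      push_cast
      exact h1
    have h3 : σ (z ^ (2 * m)) = σ ((Qn (z : ℂ) : SF P) ^ m) := by
      rw [map_pow, map_pow, map_natCast]
      exact h2
    have h4 := congrArg (fun w : SF P => (w : ℂ)) (σ.injective h3)
    push_cast at h4
    exact h4
  ne0 z hz := by
    have hPm : P.map (algebraMap k (SF P)) ≠ 0 :=
      (Polynomial.map_ne_zero_iff (algebraMap k (SF P)).injective).2 hP
    rw [Finset.mem_filter, Multiset.mem_toFinset, mem_roots hPm, IsRoot.def,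
      eval_map_algebraMap, aeval_coe_eq_zero] at hz
    intro h
    apply ne_zero_root hP hW hz.1
    rw [h]; rfl
  Q0 z hz := by
    have hPm : P.map (algebraMap k (SF P)) ≠ 0 :=
      (Polynomial.map_ne_zero_iff (algebraMap k (SF P)).injective).2 hP
    rw [Finset.mem_filter, Multiset.mem_toFinset, mem_roots hPm, IsRoot.def,
      eval_map_algebraMap, aeval_coe_eq_zero] at hz
    have : CharZero (SF P) := (algebraMap (SF P) ℂ).charZero
    exact_mod_cast (norm_sq_root hP hW hz.1).2.ne'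
  Qstable σ z hz := by
    have hPm : P.map (algebraMap k (SF P)) ≠ 0 :=
      (Polynomial.map_ne_zero_iff (algebraMap k (SF P)).injective).2 hP
    rw [Finset.mem_filter, Multiset.mem_toFinset, mem_roots hPm, IsRoot.def,
      eval_map_algebraMap, aeval_coe_eq_zero] at hz
    refine Qn_of_minpoly_eq hP hW hz.1 ?_
    rw [minpoly_coe, minpoly_coe]
    exact minpoly.algEquiv_eq σ z
  Qinv z hz := by
    have hPm : P.map (algebraMap k (SF P)) ≠ 0 :=
      (Polynomial.map_ne_zero_iff (algebraMap k (SF P)).injective).2 hP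
    rw [Finset.mem_filter, Multiset.mem_toFinset, mem_roots hPm, IsRoot.def,
      eval_map_algebraMap, aeval_coe_eq_zero] at hz
    push_cast
    rw [← conj_root hP hW hz.1, Qn_conj]
  minpoly_inv z hz := by
    have hPm : P.map (algebraMap k (SF P)) ≠ 0 :=
      (Polynomial.map_ne_zero_iff (algebraMap k (SF P)).injective).2 hP
    rw [Finset.mem_filter, Multiset.mem_toFinset, mem_roots hPm, IsRoot.def,
      eval_map_algebraMap] at hz
    have := finiteDimensional_SF P
    have hint : IsIntegral k z := Algebra.IsIntegral.isIntegral z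
    refine (minpoly.eq_of_irreducible_of_monic (minpoly.irreducible hint) ?_
      (minpoly.monic hint)).symm
    rw [aeval_coe_eq_zero]
    push_cast
    rw [← conj_root hP hW ((aeval_coe_eq_zero P z).1 hz.1)]
    exact root_conj _ _ ((aeval_coe_eq_zero _ z).1 (minpoly.aeval k z))
  nontors z hz m hm h := by
    have hPm : P.map (algebraMap k (SF P)) ≠ 0 :=
      (Polynomial.map_ne_zero_iff (algebraMap k (SF P)).injective).2 hP
    rw [Finset.mem_filter, Multiset.mem_toFinset, mem_roots hPm, IsRoot.def,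
      eval_map_algebraMap, aeval_coe_eq_zero] at hz
    refine hz.2 ((isSS_iff (norm_sq_root hP hW hz.1).1).2 ⟨m, hm, ?_⟩)
    have h4 := congrArg (fun w : SF P => (w : ℂ)) h
    push_cast at h4
    exact h4
  inv z hz := by
    have hPm : P.map (algebraMap k (SF P)) ≠ 0 :=
      (Polynomial.map_ne_zero_iff (algebraMap k (SF P)).injective).2 hP
    rw [Finset.mem_filter, Multiset.mem_toFinset, mem_roots hPm, IsRoot.def,
      eval_map_algebraMap, aeval_coe_eq_zero] at hz ⊢
    push_cast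
    rw [← conj_root hP hW hz.1]
    refine ⟨root_conj _ _ hz.1, fun h => hz.2 ?_⟩
    obtain ⟨m, hm, h1⟩ := h
    refine ⟨m, hm, ?_⟩
    rw [Complex.norm_conj, ← map_pow] at h1
    have h2 := congrArg (starRingEnd ℂ) h1
    rw [Complex.conj_conj, map_pow, Complex.conj_ofReal] at h2
    exact h2

theorem mem_carrier_iff {P : k[X]} (hP : P ≠ 0) (hW : Pure P) (z : SF P) :
    z ∈ (frobData P hP hW).carrier ↔ aeval (z : ℂ) P = 0 ∧ ¬ IsSS (z : ℂ) := by
  classical
  have hPm : P.map (algebraMap k (SF P)) ≠ 0 :=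
    (Polynomial.map_ne_zero_iff (algebraMap k (SF P)).injective).2 hP
  change z ∈ ((P.map (algebraMap k (SF P))).roots.toFinset).filter
    (fun z : SF P => ¬ IsSS (z : ℂ)) ↔ _
  rw [Finset.mem_filter, Multiset.mem_toFinset, mem_roots hPm, IsRoot.def, eval_map_algebraMap,
    aeval_coe_eq_zero]

section basic

variable {P : k[X]} (hP : P ≠ 0) (hW : Pure P)

theorem root_T (x : (frobData P hP hW).T) : aeval (x.1 : ℂ) P = 0 :=
  ((mem_carrier_iff hP hW x.1).1 x.2).1

theorem nss_T (x : (frobData P hP hW).T) : ¬ IsSS (x.1 : ℂ) :=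
  ((mem_carrier_iff hP hW x.1).1 x.2).2

theorem iota_coe (x : (frobData P hP hW).T) :
    (((frobData P hP hW).iota x).1 : ℂ) = conj (x.1 : ℂ) := by
  rw [FrobData.iota_val, conj_root hP hW (root_T hP hW x)]
  push_cast
  rfl

theorem uu_coe (x : (frobData P hP hW).T) :
    ((frobData P hP hW).uu x : ℂ) = (x.1 : ℂ) / conj (x.1 : ℂ) := by
  have h1 := conj_root hP hW (root_T hP hW x)
  have h0 := ne_zero_root hP hW (root_T hP hW x)
  rw [h1]
  have h2 : ((frobData P hP hW).uu x : ℂ) = (x.1 : ℂ) ^ 2 / (Qn (x.1 : ℂ) : ℂ) := by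
    change ((x.1 ^ 2 / ((frobData P hP hW).Q x.1 : SF P) : SF P) : ℂ) = _
    push_cast
    rfl
  rw [h2]
  have h3 : ((Qn (x.1 : ℂ) : ℕ) : ℂ) ≠ 0 := by
    exact_mod_cast (norm_sq_root hP hW (root_T hP hW x)).2.ne'
  field_simp

theorem exists_T {z : ℂ} (hz : aeval z P = 0) (hss : ¬ IsSS z) :
    ∃ x : (frobData P hP hW).T, (x.1 : ℂ) = z := by
  have hwS : z ∈ SF P :=
    IntermediateField.subset_adjoin k _ ((mem_rootSet_of_ne hP).2 hz)
  exact ⟨⟨⟨z, hwS⟩, (mem_carrier_iff hP hW ⟨z, hwS⟩).2 ⟨hz, hss⟩⟩, rfl⟩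

theorem T_ext {x y : (frobData P hP hW).T} (h : (x.1 : ℂ) = (y.1 : ℂ)) : x = y :=
  Subtype.ext (Subtype.ext h)

end basic

end Pool.Agent.Helper10.WeilTwo
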