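import Mathlib
import Pool.Agent.Helper10.WeilTwo
import Pool.Agent.Helper10.SignedSplit
import Pool.Agent.Helper10.SignedPadic
import Pool.Agent.Helper10.SignedDouble
import Pool.Agent.Helper10.SignedBig

/-!
# Neat polynomials
-/

set_option autoImplicit false
set_option linter.unusedSectionVars false

namespace Pool.Agent.Helper10.NeatCore

open Polynomial Finset Pool.Agent.Helper10.Frob2 ComplexConjugate Pool.Agent.Helper10.Neat
  Pool.Agent.Helper10.WeilTwo Pool.Agent.Helper10.SignedLattice

variable {k : Type*} [Field k] [Algebra k ℝ]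

section extend

variable {P : k[X]} (hP : P ≠ 0) (hW : Pure P)

open Classical in
/-- Extension by zero to the complex numbers. -/
noncomputable def ext (f : (frobData P hP hW).T → ℤ) (z : ℂ) : ℤ :=
  if h : ∃ y : (frobData P hP hW).T, (y.1 : ℂ) = z then f h.choose else 0

theorem ext_coe (f : (frobData P hP hW).T → ℤ) (y : (frobData P hP hW).T) :
    ext hP hW f (y.1 : ℂ) = f y := by
  classical
  have h : ∃ y' : (frobData P hP hW).T, (y'.1 : ℂ) = (y.1 : ℂ) := ⟨y, rfl⟩
  unfold ext
  rw [dif_pos h, T_ext hP hW h.choose_spec]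

theorem ext_of_not (f : (frobData P hP hW).T → ℤ) (z : ℂ)
    (h : ¬ ∃ y : (frobData P hP hW).T, (y.1 : ℂ) = z) : ext hP hW f z = 0 := dif_neg h

/-- Transfer of products. -/
theorem prod_coe (f : (frobData P hP hW).T → ℤ) (m : ℤ) (I : Finset ℂ)
    (hI : ∀ y : (frobData P hP hW).T, f y ≠ 0 → (y.1 : ℂ) ∈ I) :
    ((∏ y, (frobData P hP hW).uu y ^ (m * f y) : SF P) : ℂ) =
      ∏ z ∈ I, (z / conj z) ^ (m * ext hP hW f z) := by
  classical
  have h1 : ((∏ y, (frobData P hP hW).uu y ^ (m * f y) : SF P) : ℂ) =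
      ∏ y : (frobData P hP hW).T, ((y.1 : ℂ) / conj (y.1 : ℂ)) ^ (m * ext hP hW f (y.1 : ℂ)) := by
    have h2 := map_prod (algebraMap (SF P) ℂ) (fun y => (frobData P hP hW).uu y ^ (m * f y))
      Finset.univ
    refine h2.trans (Finset.prod_congr rfl fun y _ => ?_)
    rw [map_zpow₀, ext_coe, ← uu_coe]
    rfl
  rw [h1, ← Finset.prod_image (s := (Finset.univ : Finset (frobData P hP hW).T))
    (g := fun y => (y.1 : ℂ)) (f := fun z => (z / conj z) ^ (m * ext hP hW f z))
    (fun a _ b _ h => T_ext hP hW h)]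
  have e1 : ∏ z ∈ Finset.univ.image (fun y : (frobData P hP hW).T => (y.1 : ℂ)),
      (z / conj z) ^ (m * ext hP hW f z) =
      ∏ z ∈ Finset.univ.image (fun y : (frobData P hP hW).T => (y.1 : ℂ)) ∪ I,
        (z / conj z) ^ (m * ext hP hW f z) := by
    refine Finset.prod_subset Finset.subset_union_left fun z _ hz => ?_
    rw [ext_of_not, mul_zero, zpow_zero]
    rintro ⟨y, rfl⟩
    exact hz (Finset.mem_image_of_mem _ (Finset.mem_univ y))
  have e2 : ∏ z ∈ I, (z / conj z) ^ (m * ext hP hW f z) =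
      ∏ z ∈ Finset.univ.image (fun y : (frobData P hP hW).T => (y.1 : ℂ)) ∪ I,
        (z / conj z) ^ (m * ext hP hW f z) := by
    refine Finset.prod_subset Finset.subset_union_right fun z hz hzI => ?_
    rcases Finset.mem_union.1 hz with h | h
    · obtain ⟨y, -, rfl⟩ := Finset.mem_image.1 h
      have h0 : f y = 0 := by
        by_contra hne
        exact hzI (hI y hne)
      rw [ext_coe, h0, mul_zero, zpow_zero]
    · exact absurd h hzI
  rw [e1, e2]

end extend

open Classical in
/-- No nontrivial multiplicative relation between the roots of `h`. -/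
def IsNeat (h : k[X]) : Prop :=
  ∀ f : ℂ → ℤ, (∀ z, aeval z h = 0 → f (conj z) = - f z) →
    (∃ m : ℤ, m ≠ 0 ∧ ∏ z ∈ (h.aroots ℂ).toFinset, (z / conj z) ^ (m * f z) = 1) →
    ∀ z, aeval z h = 0 → f z = 0

/-- The relations supported on the roots of one factor vanish if the factor is neat. -/
theorem supIn_bot_of_neat {P : k[X]} (hP : P ≠ 0) (hW : Pure P) (x : (frobData P hP hW).T)
    (hneat : IsNeat (minpoly k x.1)) :
    supIn (frobData P hP hW).relGroup (MulAction.orbit (SF P ≃ₐ[k] SF P) x) = ⊥ := by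
  classical
  have := finiteDimensional_SF P
  have := isGalois_SF P
  rw [eq_bot_iff]
  rintro f ⟨hf, hsupp⟩
  rw [AddSubgroup.mem_bot]
  obtain ⟨hanti, m, hm, hprod⟩ := ((frobData P hP hW).mem_relGroup f).1 hf
  have hint : IsIntegral k x.1 := Algebra.IsIntegral.isIntegral x.1
  have hne : minpoly k x.1 ≠ 0 := minpoly.ne_zero hint
  have hroot : ∀ y : (frobData P hP hW).T, y ∈ MulAction.orbit (SF P ≃ₐ[k] SF P) x ↔
      aeval (y.1 : ℂ) (minpoly k x.1) = 0 := by
    intro y
    rw [(frobData P hP hW).mem_orbit_iff]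
    constructor
    · intro h
      rw [← h, ← aeval_coe_eq_zero]
      exact minpoly.aeval k y.1
    · intro h
      rw [← aeval_coe_eq_zero] at h
      exact (minpoly.eq_of_irreducible_of_monic (minpoly.irreducible hint) h
        (minpoly.monic hint)).symm
  have hgoal := hneat (ext hP hW f) (fun z hz => ?_) ⟨m, hm, ?_⟩
  · funext y
    by_cases hy : y ∈ MulAction.orbit (SF P ≃ₐ[k] SF P) x
    · have := hgoal (y.1 : ℂ) ((hroot y).1 hy)
      rwa [ext_coe] at this
    · exact hsupp y hy
  · by_cases hz' : ∃ y : (frobData P hP hW).T, (y.1 : ℂ) = z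
    · obtain ⟨y, rfl⟩ := hz'
      rw [← iota_coe, ext_coe, ext_coe, hanti]
    · rw [ext_of_not hP hW f z hz', ext_of_not hP hW f (conj z), neg_zero]
      rintro ⟨y, hy⟩
      apply hz'
      refine ⟨(frobData P hP hW).iota y, ?_⟩
      rw [iota_coe, hy, Complex.conj_conj]
  · rw [← prod_coe hP hW f m ((minpoly k x.1).aroots ℂ).toFinset, hprod]
    · rfl
    · intro y hy
      have hyo : y ∈ MulAction.orbit (SF P ≃ₐ[k] SF P) x := by
        by_contra h
        exact hy (hsupp y h)
      rw [Multiset.mem_toFinset, mem_aroots]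
      exact ⟨hne, (hroot y).1 hyo⟩

/-- Neatness from the group of relations. -/
theorem neat_of_relGroup {h : k[X]} (hh : h ≠ 0) (hW : Pure h)
    (hnss : ∀ z : ℂ, aeval z h = 0 → ¬ IsSS z) (hbot : (frobData h hh hW).relGroup = ⊥) :
    IsNeat h := by
  classical
  intro f hf ⟨m, hm, hprod⟩ z hz
  let g : (frobData h hh hW).T → ℤ := fun y => f (y.1 : ℂ)
  have hext : ∀ w, aeval w h = 0 → ext hh hW g w = f w := by
    intro w hw
    obtain ⟨y, rfl⟩ := exists_T hh hW hw (hnss w hw)
    rw [ext_coe]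
  have hg : g ∈ (frobData h hh hW).relGroup := by
    refine ((frobData h hh hW).mem_relGroup g).2 ⟨fun y => ?_, m, hm, ?_⟩
    · simp only [g, iota_coe]
      exact hf _ (root_T hh hW y)
    · have hinj : Function.Injective (fun w : SF h => (w : ℂ)) := Subtype.coe_injective
      apply hinj
      change ((∏ y, (frobData h hh hW).uu y ^ (m * g y) : SF h) : ℂ) = ((1 : SF h) : ℂ)
      rw [prod_coe hh hW g m (h.aroots ℂ).toFinset]
      · change _ = (1 : ℂ)
        refine Eq.trans ?_ hprod
        refine Finset.prod_congr rfl fun w hw => ?_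
        rw [Multiset.mem_toFinset, mem_aroots] at hw
        rw [hext w hw.2]
      · intro y _
        rw [Multiset.mem_toFinset, mem_aroots]
        exact ⟨hh, root_T hh hW y⟩
  rw [hbot, AddSubgroup.mem_bot] at hg
  obtain ⟨y, rfl⟩ := exists_T hh hW hz (hnss z hz)
  exact congrFun hg y

end Pool.Agent.Helper10.NeatCore
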