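import Mathlib
import Pool.Agent.Helper10.NeatCore

/-!
# Criteria for neatness
-/

set_option autoImplicit false
set_option linter.unusedSectionVars false

namespace Pool.Agent.Helper10.NeatCrit

open Polynomial Finset Pool.Agent.Helper10.Frob2 ComplexConjugate Pool.Agent.Helper10.Neat
  Pool.Agent.Helper10.WeilTwo Pool.Agent.Helper10.SignedLattice Pool.Agent.Helper10.NeatCore

variable {k : Type*} [Field k] [Algebra k ℝ]

section val

variable {K : IntermediateField k ℂ} {v : ℂ → ℝ}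
  (hv : ∀ x ∈ K, ∀ y ∈ K, x ≠ 0 → y ≠ 0 → v (x * y) = v x + v y)

include hv

theorem val_one : v 1 = 0 := by
  have := hv 1 K.one_mem 1 K.one_mem one_ne_zero one_ne_zero
  rw [mul_one] at this
  linarith

theorem val_inv {x : ℂ} (hx : x ∈ K) (hx0 : x ≠ 0) : v x⁻¹ = - v x := by
  have := hv x hx x⁻¹ (K.inv_mem hx) hx0 (inv_ne_zero hx0)
  rw [mul_inv_cancel₀ hx0, val_one hv] at this
  linarith

theorem val_div {x y : ℂ} (hx : x ∈ K) (hx0 : x ≠ 0) (hy : y ∈ K) (hy0 : y ≠ 0) :
    v (x / y) = v x - v y := by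
  rw [div_eq_mul_inv, hv x hx y⁻¹ (K.inv_mem hy) hx0 (inv_ne_zero hy0), val_inv hv hy hy0]
  ring

theorem val_pow {x : ℂ} (hx : x ∈ K) (hx0 : x ≠ 0) (m : ℕ) : v (x ^ m) = m * v x := by
  induction m with
  | zero => rw [pow_zero, val_one hv, Nat.cast_zero, zero_mul]
  | succ m ih =>
    rw [pow_succ, hv _ (pow_mem hx m) x hx (pow_ne_zero _ hx0) hx0, ih]
    push_cast
    ring

theorem val_zpow {x : ℂ} (hx : x ∈ K) (hx0 : x ≠ 0) (m : ℤ) : v (x ^ m) = m * v x := by
  cases m with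
  | ofNat m =>
    rw [Int.ofNat_eq_natCast, zpow_natCast, val_pow hv hx hx0]
    push_cast
    rfl
  | negSucc m =>
    rw [zpow_negSucc, val_inv hv (pow_mem hx _) (pow_ne_zero _ hx0), val_pow hv hx hx0]
    push_cast
    ring

theorem val_prod {α : Type*} (s : Finset α) (a : α → ℂ) (e : α → ℤ)
    (ha : ∀ i ∈ s, a i ∈ K ∧ a i ≠ 0) : v (∏ i ∈ s, a i ^ e i) = ∑ i ∈ s, e i * v (a i) := by
  classical
  induction s using Finset.induction_on with
  | empty => rw [Finset.prod_empty, Finset.sum_empty, val_one hv]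
  | insert i s hi ih =>
    have h1 := ha i (Finset.mem_insert_self i s)
    have h2 : ∀ j ∈ s, a j ∈ K ∧ a j ≠ 0 := fun j hj => ha j (Finset.mem_insert_of_mem hj)
    rw [Finset.prod_insert hi, Finset.sum_insert hi,
      hv _ (K.pow_mem h1.1 _) _ (prod_mem fun j hj => K.pow_mem (h2 j hj).1 _)
        (zpow_ne_zero _ h1.2) (Finset.prod_ne_zero_iff.2 fun j hj => zpow_ne_zero _ (h2 j hj).2),
      val_zpow hv h1.1 h1.2, ih h2]

end val

section one

variable {h : k[X]} (hm : h.Monic) (hi : Irreducible h) (hW : Pure h)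
  (hnss : ∀ z : ℂ, aeval z h = 0 → ¬ IsSS z)

include hm in
theorem minpoly_T (x : (frobData h hi.ne_zero hW).T) : minpoly k x.1 = h := by
  refine (minpoly.eq_of_irreducible_of_monic hi ?_ hm).symm
  rw [aeval_coe_eq_zero]
  exact root_T _ _ x

include hm in
theorem pretrans : MulAction.IsPretransitive (SF h ≃ₐ[k] SF h) (frobData h hi.ne_zero hW).T := by
  have := finiteDimensional_SF h
  have := isGalois_SF h
  refine ⟨fun x y => ?_⟩
  have h1 : y ∈ MulAction.orbit (SF h ≃ₐ[k] SF h) x := by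
    rw [(frobData h hi.ne_zero hW).mem_orbit_iff, minpoly_T hm hi hW, minpoly_T hm hi hW]
  exact h1

include hnss in
theorem nonempty_T : Nonempty (frobData h hi.ne_zero hW).T := by
  obtain ⟨z, hz⟩ := IsAlgClosed.exists_aeval_eq_zero ℂ h
    (Polynomial.degree_pos_of_irreducible hi).ne'
  obtain ⟨x, -⟩ := exists_T hi.ne_zero hW hz (hnss z hz)
  exact ⟨x⟩

include hm hnss in
theorem card_T : Nat.card (frobData h hi.ne_zero hW).T = h.natDegree := by
  have := finiteDimensional_SF h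
  have := isGalois_SF h
  have := pretrans hm hi hW
  obtain ⟨x⟩ := nonempty_T hi hW hnss
  have h1 := (frobData h hi.ne_zero hW).card_orbit x
  rw [minpoly_T hm hi hW, MulAction.orbit_eq_univ, Nat.card_univ] at h1
  exact h1

theorem slope_anti {n : ℂ → ℤ} (hn : IsSlope h n) {z : ℂ} (hz : aeval z h = 0) :
    n (conj z) = - n z := by
  obtain ⟨v, -, hv2⟩ := hn
  have h1 := hv2 z hz
  have h2 := hv2 (conj z) (root_conj h z hz)
  rw [Complex.conj_conj] at h2
  have h3 : ((n (conj z) : ℤ) : ℝ) = ((- n z : ℤ) : ℝ) := by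
    push_cast
    rw [h1, h2]
    ring
  exact_mod_cast h3

theorem slope_orth {n : ℂ → ℤ} (hn : IsSlope h n) :
    ∀ f ∈ (frobData h hi.ne_zero hW).relGroup, ∑ y, f y * n (y.1 : ℂ) = 0 := by
  intro f hf
  obtain ⟨v, hv, hv2⟩ := hn
  obtain ⟨-, m, hm0, hprod⟩ := ((frobData h hi.ne_zero hW).mem_relGroup f).1 hf
  have h1 : ((∏ y, (frobData h hi.ne_zero hW).uu y ^ (m * f y) : SF h) : ℂ) = ((1 : SF h) : ℂ) :=
    congrArg (fun w : SF h => (w : ℂ)) hprod
  have h2 := map_prod (algebraMap (SF h) ℂ)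
    (fun y => (frobData h hi.ne_zero hW).uu y ^ (m * f y)) Finset.univ
  have h3 : ∏ y : (frobData h hi.ne_zero hW).T, ((y.1 : ℂ) / conj (y.1 : ℂ)) ^ (m * f y) = 1 := by
    refine Eq.trans ?_ (h2.symm.trans h1)
    refine Finset.prod_congr rfl fun y _ => ?_
    rw [map_zpow₀, ← uu_coe]
    rfl
  have hmemK : ∀ y : (frobData h hi.ne_zero hW).T, (y.1 : ℂ) ∈ SF h ∧ (y.1 : ℂ) ≠ 0 ∧
      conj (y.1 : ℂ) ∈ SF h ∧ conj (y.1 : ℂ) ≠ 0 := by
    intro y
    refine ⟨y.1.2, ne_zero_root hi.ne_zero hW (root_T _ _ y), ?_, ?_⟩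
    · rw [← iota_coe]
      exact ((frobData h hi.ne_zero hW).iota y).1.2
    · exact (map_ne_zero (starRingEnd ℂ)).2 (ne_zero_root hi.ne_zero hW (root_T _ _ y))
  have h4 := val_prod hv (Finset.univ : Finset (frobData h hi.ne_zero hW).T)
    (fun y => (y.1 : ℂ) / conj (y.1 : ℂ)) (fun y => m * f y)
    (fun y _ => ⟨(SF h).div_mem (hmemK y).1 (hmemK y).2.2.1,
      div_ne_zero (hmemK y).2.1 (hmemK y).2.2.2⟩)
  rw [h3, val_one hv] at h4
  have h5 : ∀ y : (frobData h hi.ne_zero hW).T,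
      ((m * f y : ℤ) : ℝ) * v ((y.1 : ℂ) / conj (y.1 : ℂ)) =
        ((m * (f y * n (y.1 : ℂ)) : ℤ) : ℝ) := by
    intro y
    rw [val_div hv (hmemK y).1 (hmemK y).2.1 (hmemK y).2.2.1 (hmemK y).2.2.2,
      ← hv2 _ (root_T _ _ y)]
    push_cast
    ring
  rw [Finset.sum_congr rfl fun y _ => h5 y, ← Int.cast_sum, ← Finset.mul_sum] at h4
  have h6 : m * ∑ y, f y * n (y.1 : ℂ) = 0 := by exact_mod_cast h4.symm
  exact (mul_eq_zero.1 h6).resolve_left hm0

include hnss in
theorem half_image (Φ : Finset (frobData h hi.ne_zero hW).T)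
    (hΦ : IsHalf (frobData h hi.ne_zero hW).iota Φ) :
    ∃ Ψ : Finset ℂ, IsHalfSystem h Ψ ∧ ∀ n : ℂ → ℤ, ∑ z ∈ Ψ, n z = ∑ y ∈ Φ, n (y.1 : ℂ) := by
  classical
  refine ⟨Φ.image fun y => (y.1 : ℂ), ⟨?_, ?_⟩, fun n => ?_⟩
  · intro z hz
    obtain ⟨y, -, rfl⟩ := Finset.mem_image.1 hz
    exact root_T _ _ y
  · intro z hz
    obtain ⟨y, rfl⟩ := exists_T hi.ne_zero hW hz (hnss z hz)
    have key : ∀ y : (frobData h hi.ne_zero hW).T,
        (y.1 : ℂ) ∈ Φ.image (fun y => (y.1 : ℂ)) ↔ y ∈ Φ := by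
      intro y
      constructor
      · intro h1
        obtain ⟨y', hy', he⟩ := Finset.mem_image.1 h1
        rwa [T_ext _ _ he] at hy'
      · exact fun h1 => Finset.mem_image_of_mem _ h1
    rw [← iota_coe, key, key]
    exact hΦ y
  · rw [Finset.sum_image fun a _ b _ h => T_ext _ _ h]

include hnss in
theorem half_preimage (Φ : Finset ℂ) (hΦ : IsHalfSystem h Φ) :
    ∃ Ψ : Finset (frobData h hi.ne_zero hW).T, IsHalf (frobData h hi.ne_zero hW).iota Ψ ∧
      ∀ n : ℂ → ℤ, ∑ y ∈ Ψ, n (y.1 : ℂ) = ∑ z ∈ Φ, n z := by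
  classical
  refine ⟨Finset.univ.filter fun y => (y.1 : ℂ) ∈ Φ, ?_, fun n => ?_⟩
  · intro y
    rw [Finset.mem_filter, Finset.mem_filter, iota_coe]
    simp only [Finset.mem_univ, true_and]
    exact hΦ.2 _ (root_T _ _ y)
  · rw [← Finset.sum_image (g := fun y : (frobData h hi.ne_zero hW).T => (y.1 : ℂ)) (f := n)
      (fun a _ b _ h => T_ext _ _ h)]
    congr 1
    ext z
    rw [Finset.mem_image]
    constructor
    · rintro ⟨y, hy, rfl⟩
      exact (Finset.mem_filter.1 hy).2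
    · intro hz
      obtain ⟨y, rfl⟩ := exists_T hi.ne_zero hW (hΦ.1 z hz) (hnss z (hΦ.1 z hz))
      exact ⟨y, Finset.mem_filter.2 ⟨Finset.mem_univ _, hz⟩, rfl⟩

include hm hi hW hnss in
/-- Slope criteria. -/
theorem neat_of_slopeType (hs : IsSlopeType h) : IsNeat h := by
  classical
  have := finiteDimensional_SF h
  have := isGalois_SF h
  have := pretrans hm hi hW
  obtain ⟨x0⟩ := nonempty_T hi hW hnss
  obtain ⟨n, hn, hs⟩ := hs
  set D := frobData h hi.ne_zero hW with hD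
  have horth := slope_orth hi hW hn
  have hanti : ∀ y : D.T, n ((D.iota y).1 : ℂ) = - n (y.1 : ℂ) := by
    intro y
    rw [iota_coe]
    exact slope_anti hn (root_T _ _ y)
  refine neat_of_relGroup hi.ne_zero hW hnss ?_
  rcases hs with ⟨r, a, hr, hdeg, hΦ⟩ | ⟨z, hz, hnz, hz0⟩ | ⟨hdt, ⟨Φ, hΦ, hodd⟩, z, hz, hev⟩
  · have hfact : Fact r.Prime := ⟨hr⟩
    refine rel_eq_bot_of_prime_pow D.iota_iota D.iota_smul D.iota_ne r a
      (by rw [card_T hm hi hW hnss, hdeg]) (fun y => n (y.1 : ℂ)) hanti ?_ D.isRel_relGroup horth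
    intro Ψ hΨ hdvd
    obtain ⟨Φ, hΦ1, hΦ2⟩ := half_image hi hW hnss Ψ hΨ
    refine hΦ Φ hΦ1 ?_
    rw [hΦ2]
    exact hdvd
  · obtain ⟨y, rfl⟩ := exists_T hi.ne_zero hW hz (hnss z hz)
    refine rel_eq_bot_of_single D.iota_iota D.iota_ne (fun y => n (y.1 : ℂ)) hanti y hnz ?_
      D.isRel_relGroup horth
    intro y' h1 h2
    by_contra h3
    rcases hz0 (y'.1 : ℂ) (root_T _ _ y') h3 with h4 | h4
    · exact h1 (T_ext _ _ h4)
    · refine h2 (T_ext _ _ ?_)
      rw [h4, iota_coe]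
  · obtain ⟨Ψ, hΨ1, hΨ2⟩ := half_preimage hi hW hnss Φ hΦ
    obtain ⟨y, rfl⟩ := exists_T hi.ne_zero hW hz (hnss z hz)
    refine rel_eq_bot_of_double D.iota_iota ?_ D.iota_smul (fun y => n (y.1 : ℂ)) hanti Ψ hΨ1
      (by rw [hΨ2]; exact hodd) y hev D.isRel_relGroup horth
    intro x y y' h1 h2 h3 h4
    obtain ⟨σ, hσx, hσy⟩ := hdt (x.1 : ℂ) (y.1 : ℂ) (x.1 : ℂ) (y'.1 : ℂ) (root_T _ _ x)
      (root_T _ _ y) (root_T _ _ x) (root_T _ _ y') (fun h => h1 (T_ext _ _ h))
      (fun h => h2 (T_ext _ _ (by rw [h, iota_coe]))) (fun h => h3 (T_ext _ _ h))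
      (fun h => h4 (T_ext _ _ (by rw [h, iota_coe])))
    have key : ∀ τ : ℂ ≃ₐ[k] ℂ, τ (x.1 : ℂ) = x.1 →
        (τ (y.1 : ℂ) = y'.1 ∨ τ (y.1 : ℂ) = conj (y'.1 : ℂ)) →
        ∃ g : SF h ≃ₐ[k] SF h, g • x = x ∧ (g • y = y' ∨ g • y = D.iota y') := by
      intro τ hτx hτy
      refine ⟨τ.restrictNormal (SF h), T_ext _ _ ?_, ?_⟩
      · rw [FrobData.smul_val, AlgEquiv.restrictNormal_apply, hτx]
      · rcases hτy with h5 | h5
        · left
          refine T_ext _ _ ?_
          rw [FrobData.smul_val, AlgEquiv.restrictNormal_apply, h5]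
        · right
          refine T_ext _ _ ?_
          rw [FrobData.smul_val, AlgEquiv.restrictNormal_apply, h5, iota_coe]
    rcases hσx with h5 | h5
    · exact key σ h5 hσy
    · let c : ℂ ≃ₐ[k] ℂ := Complex.conjAe.restrictScalars k
      have hc : ∀ w, c w = conj w := fun w => rfl
      refine key (σ.trans c) ?_ ?_
      · rw [AlgEquiv.trans_apply, h5, hc, Complex.conj_conj]
      · rw [AlgEquiv.trans_apply, hc]
        rcases hσy with h6 | h6
        · right; rw [h6]
        · left; rw [h6, Complex.conj_conj]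

include hm hi hW hnss in
/-- The large prime criterion. -/
theorem neat_of_largeType (hs : IsLargeType h) : IsNeat h := by
  classical
  have := finiteDimensional_SF h
  have := isGalois_SF h
  have := pretrans hm hi hW
  obtain ⟨x0⟩ := nonempty_T hi hW hnss
  obtain ⟨b, hb, hb2, hdeg, hdvd, hratio, halt⟩ := hs
  have hfact : Fact b.Prime := ⟨hb⟩
  set D := frobData h hi.ne_zero hW with hD
  refine neat_of_relGroup hi.ne_zero hW hnss ?_
  have hcardG : b ∣ Nat.card (SF h ≃ₐ[k] SF h) := by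
    rw [IsGalois.card_aut_eq_finrank]
    exact hdvd
  obtain ⟨g, hg⟩ := exists_prime_orderOf_dvd_card' b hcardG
  have hg1 : g ^ b = 1 := by
    rw [← hg]
    exact pow_orderOf_eq_one g
  have hgne : g ≠ 1 := by
    rintro rfl
    rw [orderOf_one] at hg
    exact hb.one_lt.ne hg
  have hmove : ∃ x : D.T, g • x ≠ x := by
    by_contra hcon
    push Not at hcon
    apply hgne
    have hle : SF h ≤ IntermediateField.map (SF h).val
        (IntermediateField.fixedField (Subgroup.zpowers g)) := by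
      rw [IntermediateField.adjoin_le_iff]
      intro w hw
      rw [mem_rootSet] at hw
      obtain ⟨x, rfl⟩ := exists_T hi.ne_zero hW hw.2 (hnss w hw.2)
      refine ⟨x.1, ?_, rfl⟩
      change x.1 ∈ IntermediateField.fixedField (Subgroup.zpowers g)
      rw [IntermediateField.mem_fixedField_iff]
      have h4 : Subgroup.zpowers g ≤ MulAction.stabilizer (SF h ≃ₐ[k] SF h) x.1 := by
        rw [Subgroup.zpowers_le]
        exact congrArg Subtype.val (hcon x)
      intro f hf
      exact h4 hf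
    ext w
    obtain ⟨w', hw', he⟩ := hle w.2
    have h5 : w' = w := Subtype.ext he
    have hw'' : w' ∈ IntermediateField.fixedField (Subgroup.zpowers g) := hw'
    have h6 := (IntermediateField.mem_fixedField_iff _ _).1 hw'' g (Subgroup.mem_zpowers g)
    rw [h5] at h6
    rw [h6]
    rfl
  refine rel_eq_bot_of_big D.iota_iota D.iota_smul D.iota_ne b hb2
    (by rw [← Nat.card_eq_fintype_card, card_T hm hi hW hnss]; exact hdeg) g
    (fun x => by rw [hg1, one_smul]) hmove D.isRel_relGroup ?_ ?_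
  · intro x y hxy
    refine D.ee_sub_notMem x y ?_ fun m hm0 heq => ?_
    · refine D.Q_orbit y x ?_
      rw [MulAction.orbit_eq_univ]
      exact Set.mem_univ _
    · refine hratio (x.1 : ℂ) (y.1 : ℂ) (root_T _ _ x) (root_T _ _ y)
        (fun he => hxy (T_ext _ _ he)) m hm0 ?_
      have := congrArg (fun w : SF h => (w : ℂ)) heq
      push_cast at this
      exact this
  · intro s hs hs1 hstab
    have hsι : ∀ x, s (D.iota x) = - s x := D.isRel_relGroup.anti s hs
    rcases halt with hquad | ⟨n, hn, hΦ⟩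
    · -- a quadratic subfield
      obtain ⟨g', ⟨z, hz, hgz⟩, z', hz', hgz'⟩ := D.exists_mix x0 (fun L hL hfin => by
          refine hquad (x0.1 : ℂ) (root_T _ _ x0) (L.map (SF h).val) ?_ ?_
          · have h1 := IntermediateField.map_mono (SF h).val hL
            rw [IntermediateField.adjoin_map, Set.image_singleton] at h1
            exact h1
          · rw [← hfin]
            exact (LinearEquiv.finrank_eq (L.equivMap (SF h).val).toLinearEquiv).symm)
        {x | s x = 1} (fun x _ => by rw [MulAction.orbit_eq_univ]; exact Set.mem_univ _)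
        (fun x _ => by
          change s (D.iota x) = 1 ↔ ¬ s x = 1
          rw [hsι]
          rcases hs1 x with h1 | h1 <;> rw [h1] <;> norm_num)
      have hz : s z = 1 := hz
      have hgz : s (g' • z) = 1 := hgz
      have hz' : s z' = 1 := hz'
      have hgz' : ¬ s (g' • z') = 1 := hgz'
      rcases hstab g'⁻¹ with h1 | h1
      · have h2 := congrFun h1 z'
        rw [tr_apply, inv_inv] at h2
        exact hgz' (by rw [h2, hz'])
      · have h2 := congrFun h1 z
        rw [tr_apply, inv_inv, Pi.neg_apply, hz, hgz] at h2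
        omega
    · -- slopes
      have horth := slope_orth hi hW hn s hs
      let Ψ : Finset D.T := Finset.univ.filter fun x => s x = 1
      have hΨ : IsHalf D.iota Ψ := by
        intro x
        simp only [Ψ, Finset.mem_filter, Finset.mem_univ, true_and]
        rw [hsι]
        rcases hs1 x with h1 | h1 <;> rw [h1] <;> norm_num
      rw [sum_eq_two_half D.iota_iota hΨ (fun x => s x * n (x.1 : ℂ)) (fun x => by
        rw [hsι, iota_coe, slope_anti hn (root_T _ _ x)]; ring)] at horth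
      have h1 : ∑ x ∈ Ψ, n (x.1 : ℂ) = 0 := by
        have h2 : ∑ x ∈ Ψ, s x * n (x.1 : ℂ) = ∑ x ∈ Ψ, n (x.1 : ℂ) := by
          refine Finset.sum_congr rfl fun x hx => ?_
          have : s x = 1 := (Finset.mem_filter.1 hx).2
          rw [this, one_mul]
        rw [h2] at horth
        omega
      obtain ⟨Φ, hΦ1, hΦ2⟩ := half_image hi hW hnss Ψ hΨ
      refine hΦ Φ hΦ1 ?_
      rw [hΦ2, h1]

end one

end Pool.Agent.Helper10.NeatCrit
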