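import Mathlib
import Pool.Agent.Helper10.NeatCrit

/-!
# Triviality of relations for products of neat factors
-/

set_option autoImplicit false
set_option linter.unusedSectionVars false

namespace Pool.Agent.Helper10.NeatMain

open Polynomial Finset Pool.Agent.Helper10.Frob2 ComplexConjugate Pool.Agent.Helper10.Neat
  Pool.Agent.Helper10.WeilTwo Pool.Agent.Helper10.SignedLattice Pool.Agent.Helper10.NeatCore
  Pool.Agent.Helper10.NeatCrit

variable {k : Type*} [Field k] [Algebra k ℝ]

section setup

variable {P : k[X]} (hP : P ≠ 0) (hW : Pure P)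

theorem pure_of_dvd {h : k[X]} (hW : Pure P) (hdvd : h ∣ P) : Pure h :=
  fun h' hm hi hd => hW h' hm hi (hd.trans hdvd)

theorem int_T (x : (frobData P hP hW).T) : IsIntegral k x.1 :=
  haveI := finiteDimensional_SF P
  Algebra.IsIntegral.isIntegral x.1

theorem dvd_T (x : (frobData P hP hW).T) : minpoly k x.1 ∣ P :=
  minpoly.dvd k x.1 ((aeval_coe_eq_zero P x.1).2 (root_T hP hW x))

theorem splits_T (x : (frobData P hP hW).T) :
    ((minpoly k x.1).map (algebraMap k (SF P))).Splits := by
  have := finiteDimensional_SF P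
  have := isGalois_SF P
  exact Normal.splits inferInstance x.1

theorem image_T (x : (frobData P hP hW).T) :
    (SF P).val '' ((minpoly k x.1).rootSet (SF P)) = (minpoly k x.1).rootSet ℂ :=
  (splits_T hP hW x).image_rootSet _

theorem root_lift (x : (frobData P hP hW).T) (z : ℂ) (hz : aeval z (minpoly k x.1) = 0) :
    ∃ w : SF P, (w : ℂ) = z ∧ aeval w (minpoly k x.1) = 0 := by
  have hne : minpoly k x.1 ≠ 0 := minpoly.ne_zero (int_T hP hW x)
  have h1 : z ∈ (minpoly k x.1).rootSet ℂ := (mem_rootSet_of_ne hne).2 hz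
  rw [← image_T hP hW x] at h1
  obtain ⟨w, hw, hwz⟩ := h1
  exact ⟨w, hwz, (mem_rootSet_of_ne hne).1 hw⟩

theorem nss_minpoly (x : (frobData P hP hW).T) (z : ℂ) (hz : aeval z (minpoly k x.1) = 0) :
    ¬ IsSS z := by
  have := finiteDimensional_SF P
  have := isGalois_SF P
  obtain ⟨w, rfl, hw⟩ := root_lift hP hW x z hz
  have h1 := (frobData P hP hW).mem_carrier_of_root x w hw
  exact ((mem_carrier_iff hP hW w).1 h1).2

/-- The splitting field of the minimal polynomial, inside `SF P` and inside `ℂ`. -/
theorem map_K (x : (frobData P hP hW).T) :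
    (IntermediateField.adjoin k ((minpoly k x.1).rootSet (SF P))).map (SF P).val =
      SF (minpoly k x.1) := by
  rw [IntermediateField.adjoin_map, image_T hP hW x]

theorem Qx_eq (x : (frobData P hP hW).T) (z : ℂ) (hz : aeval z (minpoly k x.1) = 0) :
    conj z = ((frobData P hP hW).Q x.1 : ℂ) / z := by
  have hzP : aeval z P = 0 := by
    obtain ⟨g, hg⟩ := dvd_T hP hW x
    rw [hg, map_mul, hz, zero_mul]
  rw [conj_root hP hW hzP]
  have h1 : Qn z = Qn (x.1 : ℂ) := by
    refine Qn_of_minpoly_eq hP hW (root_T hP hW x) ?_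
    rw [minpoly_coe]
    exact (minpoly.eq_of_irreducible_of_monic (minpoly.irreducible (int_T hP hW x)) hz
      (minpoly.monic (int_T hP hW x))).symm
  rw [h1]
  rfl

theorem irred_of_irrType (x : (frobData P hP hW).T) (hx : IsIrrType (minpoly k x.1)) :
    Irred (SF P ≃ₐ[k] SF P) (frobData P hP hW).iota
      (MulAction.orbit (SF P ≃ₐ[k] SF P) x) := by
  have := finiteDimensional_SF P
  have := isGalois_SF P
  let D := frobData P hP hW
  rcases hx with ⟨⟨j, hj⟩, hd⟩ | ⟨⟨r, hr, hr2, hdeg⟩, hL⟩ | hC
  · exact D.irred_a x j hj hd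
  · refine D.irred_b x r hr hr2 hdeg fun L hLx hfin => ?_
    refine hL (x.1 : ℂ) ((aeval_coe_eq_zero _ x.1).1 (minpoly.aeval k x.1))
      (L.map (SF P).val) ?_ ?_
    · have h1 := IntermediateField.map_mono (SF P).val hLx
      rw [IntermediateField.adjoin_map, Set.image_singleton] at h1
      exact h1
    · rw [← hfin]
      exact (LinearEquiv.finrank_eq (L.equivMap (SF P).val).toLinearEquiv).symm
  · refine D.irred_c x fun y z hy hz hzy hzy' hmem2 => ?_
    have hyC := (aeval_coe_eq_zero (minpoly k x.1) y).1 hy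
    have hconj : ∀ u : SF P, aeval u (minpoly k x.1) = 0 →
        conj (u : ℂ) = (((D.Q x.1 : SF P) / u : SF P) : ℂ) := by
      intro u hu
      rw [Qx_eq hP hW x (u : ℂ) ((aeval_coe_eq_zero _ u).1 hu)]
      push_cast
      rfl
    refine hC (y : ℂ) (z : ℂ) hyC ((aeval_coe_eq_zero _ z).1 hz)
      (fun h => hzy (Subtype.ext h)) (fun h => hzy' (Subtype.ext (by rw [h, hconj y hy]))) ?_
    have h1 : (z : ℂ) ∈ (IntermediateField.adjoin k (insert y {t : SF P | ∃ u : SF P,
        aeval u (minpoly k x.1) = 0 ∧ t = u + (D.Q x.1 : SF P) / u})).map (SF P).val :=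
      ⟨z, hmem2, rfl⟩
    rw [IntermediateField.adjoin_map] at h1
    refine IntermediateField.adjoin.mono k _ _ ?_ h1
    rintro _ ⟨t, ht, rfl⟩
    rcases Set.mem_insert_iff.1 ht with rfl | ⟨u, hu, rfl⟩
    · exact Set.mem_insert _ _
    · refine Set.mem_insert_of_mem _ ⟨(u : ℂ), (aeval_coe_eq_zero _ u).1 hu, ?_⟩
      rw [hconj u hu, IntermediateField.coe_val]
      push_cast
      rfl

theorem le_of_map_le {K K' : IntermediateField k (SF P)}
    (h : K.map (SF P).val ≤ K'.map (SF P).val) : K ≤ K' := by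
  intro w hw
  obtain ⟨w', hw', he⟩ := h ⟨w, hw, rfl⟩
  have : w' = w := Subtype.ext he
  rw [← this]
  exact hw'

theorem disjOrb_of_indep (x y : (frobData P hP hW).T)
    (h : IsIndep (minpoly k x.1) (minpoly k y.1)) :
    DisjOrb (SF P ≃ₐ[k] SF P) (frobData P hP hW).iota x y := by
  have := finiteDimensional_SF P
  have := isGalois_SF P
  let D := frobData P hP hW
  set Kx := IntermediateField.adjoin k ((minpoly k x.1).rootSet (SF P)) with hKx
  set Ky := IntermediateField.adjoin k ((minpoly k y.1).rootSet (SF P)) with hKy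
  rcases h with h | ⟨hirr, h⟩
  · left
    let c : ℂ ≃ₐ[k] ℂ := Complex.conjAe.restrictScalars k
    let c' : SF P ≃ₐ[k] SF P := c.restrictNormal (SF P)
    have hc' : ∀ w : SF P, ((c' w : SF P) : ℂ) = conj (w : ℂ) := by
      intro w
      rw [AlgEquiv.restrictNormal_apply]
      rfl
    have hsplx := IntermediateField.adjoin_rootSet_isSplittingField (splits_T hP hW x)
    have hnormx : Normal k Kx := Normal.of_isSplittingField (minpoly k x.1)
    have hk0 : CharZero k := (algebraMap k ℝ).charZero
    have hgalx : IsGalois k Kx := IsGalois.mk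
    have hNx : Kx.fixingSubgroup.Normal := IsGalois.fixingSubgroup_normal_of_isGalois _
    have hmem : c' ∈ Kx.fixingSubgroup ⊔ Ky.fixingSubgroup := by
      rw [← IntermediateField.fixingSubgroup_fixedField
        (Kx.fixingSubgroup ⊔ Ky.fixingSubgroup), IntermediateField.mem_fixingSubgroup_iff]
      intro w hw
      rw [IntermediateField.mem_fixedField_iff] at hw
      have hwx : w ∈ Kx := by
        rw [← IsGalois.fixedField_fixingSubgroup Kx, IntermediateField.mem_fixedField_iff]
        exact fun f hf => hw f (Subgroup.mem_sup_left hf)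
      have hwy : w ∈ Ky := by
        rw [← IsGalois.fixedField_fixingSubgroup Ky, IntermediateField.mem_fixedField_iff]
        exact fun f hf => hw f (Subgroup.mem_sup_right hf)
      have h1 : (w : ℂ) ∈ SF (minpoly k x.1) := by
        rw [← map_K hP hW x]
        exact ⟨w, hwx, rfl⟩
      have h2 : (w : ℂ) ∈ SF (minpoly k y.1) := by
        rw [← map_K hP hW y]
        exact ⟨w, hwy, rfl⟩
      apply Subtype.ext
      rw [hc']
      exact h _ h1 h2
    obtain ⟨a, ha, b, hb, hab⟩ := Subgroup.mem_sup_of_normal_left.1 hmem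
    refine ⟨a, b, (D.mem_fixing_iff x a).1 ha, (D.mem_fixing_iff y b).1 hb, fun z _ => ?_⟩
    rw [hab]
    refine T_ext hP hW ?_
    rw [FrobData.smul_val, hc', iota_coe]
  · right
    refine ⟨irred_of_irrType hP hW x hirr, ?_⟩
    rcases h with h | h
    · left
      rw [D.card_orbit, D.card_orbit]
      exact h
    · right
      have hle : ¬ Kx ≤ Ky := by
        intro hle
        apply h
        rw [← map_K hP hW x, ← map_K hP hW y]
        exact IntermediateField.map_mono _ hle
      rw [SetLike.not_le_iff_exists] at hle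
      obtain ⟨w, hwx, hwy⟩ := hle
      rw [← IsGalois.fixedField_fixingSubgroup Ky, IntermediateField.mem_fixedField_iff] at hwy
      push Not at hwy
      obtain ⟨g, hg, hgw⟩ := hwy
      refine ⟨g, (D.mem_fixing_iff y g).1 hg, ?_⟩
      by_contra hcon
      push Not at hcon
      have h1 := (D.mem_fixing_iff x g).2 hcon
      exact hgw ((IntermediateField.mem_fixingSubgroup_iff _ _).1 h1 w hwx)

/-- **Triviality of relations.** -/
theorem relGroup_eq_bot
    (hneat : ∀ h : k[X], h.Monic → Irreducible h → h ∣ P →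
      (∀ z : ℂ, aeval z h = 0 → ¬ IsSS z) → IsIrrType h ∨ IsSlopeType h ∨ IsLargeType h)
    (hdisj : ∀ h h' : k[X], h.Monic → Irreducible h → h ∣ P →
      (∀ z : ℂ, aeval z h = 0 → ¬ IsSS z) → h'.Monic → Irreducible h' → h' ∣ P →
      (∀ z : ℂ, aeval z h' = 0 → ¬ IsSS z) → h ≠ h' → IsIndep h h' ∨ IsIndep h' h) :
    (frobData P hP hW).relGroup = ⊥ := by
  classical
  have := finiteDimensional_SF P
  have := isGalois_SF P
  set D := frobData P hP hW with hD
  refine rel_eq_bot_of_disj (G := SF P ≃ₐ[k] SF P) D.iota_iota D.iota_smul D.iota_ne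
    D.iota_mem_orbit D.isRel_relGroup (fun x => ?_) (fun x y hxy => ?_)
  · have hmon := minpoly.monic (int_T hP hW x)
    have hirr := minpoly.irreducible (int_T hP hW x)
    have hdvd := dvd_T hP hW x
    have hnss := nss_minpoly hP hW x
    rcases hneat _ hmon hirr hdvd hnss with h1 | h1 | h1
    · exact supIn_eq_bot_of_irred D.iota_iota D.iota_smul x (D.iota_mem_orbit x)
        D.isRel_relGroup (irred_of_irrType hP hW x h1) (D.ee_notMem x)
    · exact supIn_bot_of_neat hP hW x
        (neat_of_slopeType hmon hirr (pure_of_dvd hW hdvd) hnss h1)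
    · exact supIn_bot_of_neat hP hW x
        (neat_of_largeType hmon hirr (pure_of_dvd hW hdvd) hnss h1)
  · have hne : minpoly k x.1 ≠ minpoly k y.1 := by
      intro h
      exact hxy ((D.mem_orbit_iff x y).2 h.symm)
    rcases hdisj _ _ (minpoly.monic (int_T hP hW x)) (minpoly.irreducible (int_T hP hW x))
      (dvd_T hP hW x) (nss_minpoly hP hW x) (minpoly.monic (int_T hP hW y))
      (minpoly.irreducible (int_T hP hW y)) (dvd_T hP hW y) (nss_minpoly hP hW y) hne with h1 | h1
    · exact Or.inl (disjOrb_of_indep hP hW x y h1)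
    · exact Or.inr (disjOrb_of_indep hP hW y x h1)

end setup

end Pool.Agent.Helper10.NeatMain
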