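import Mathlib
import Pool.Agent.Helper10.NeatMain

/-!
# Multisets of roots
-/

set_option autoImplicit false
set_option linter.unusedSectionVars false

namespace Pool.Agent.Helper10.NeatCount

open Polynomial Finset Pool.Agent.Helper10.Frob2 ComplexConjugate Pool.Agent.Helper10.Neat
  Pool.Agent.Helper10.WeilTwo Pool.Agent.Helper10.SignedLattice Pool.Agent.Helper10.NeatCore
  Pool.Agent.Helper10.NeatCrit

variable {k : Type*} [Field k] [Algebra k ℝ]

/-- **Symmetry of counts.**  If the `N`-th powers of the roots in a multiset have positive real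
product, then the multiset contains `z` and its conjugate equally often, for all
non-supersingular roots `z`. -/
theorem count_eq {P : k[X]} (hP : P ≠ 0) (hW : Pure P)
    (hbot : (frobData P hP hW).relGroup = ⊥)
    (N : ℕ) (hN : 0 < N) (hss : ∀ z : ℂ, aeval z P = 0 → IsSS z → z ^ N = (‖z‖ : ℂ) ^ N)
    (s : Multiset ℂ) (hs : ∀ z ∈ s, aeval z P = 0)
    (hprod : s.prod ^ N = (‖s.prod‖ : ℂ) ^ N) (z : ℂ) (hz : aeval z P = 0) (hnss : ¬ IsSS z) :
    s.count z = s.count (conj z) := by
  classical
  set D := frobData P hP hW with hD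
  let g : ℂ → ℂ := fun w => (w / conj w) ^ N
  have hs0 : ∀ w ∈ s, w ≠ 0 := fun w hw => ne_zero_root hP hW (hs w hw)
  have hsp0 : s.prod ≠ 0 := by
    intro h
    rw [Multiset.prod_eq_zero_iff] at h
    exact hs0 0 h rfl
  have hg1 : (s.map g).prod = 1 := by
    have h1 : (s.map g).prod = ((s.map (fun w => w / conj w)).prod) ^ N :=
      Multiset.prod_map_pow
    have h2 : (s.map (fun w => w / conj w)).prod = s.prod / conj s.prod := by
      rw [Multiset.prod_map_div, Multiset.map_id', map_multiset_prod]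
    rw [h1, h2, div_pow]
    have h3 : (conj s.prod) ^ N = s.prod ^ N := by
      rw [← map_pow, hprod, map_pow, Complex.conj_ofReal]
    rw [h3, div_self (pow_ne_zero _ hsp0)]
  rw [Finset.prod_multiset_map_count] at hg1
  let I : Finset ℂ := Finset.univ.image (fun x : D.T => (x.1 : ℂ))
  have hprodT : ∏ x : D.T, g (x.1 : ℂ) ^ s.count (x.1 : ℂ) = 1 := by
    rw [← hg1, ← Finset.prod_image (s := (Finset.univ : Finset D.T))
      (g := fun x : D.T => (x.1 : ℂ)) (f := fun w => g w ^ s.count w)
      (fun a _ b _ h => Subtype.ext (Subtype.ext h))]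
    have e1 : ∏ w ∈ I, g w ^ s.count w = ∏ w ∈ s.toFinset ∪ I, g w ^ s.count w := by
      refine Finset.prod_subset Finset.subset_union_right fun w hw hwI => ?_
      have hws : w ∈ s := by
        rcases Finset.mem_union.1 hw with h | h
        · exact Multiset.mem_toFinset.1 h
        · exact absurd h hwI
      have hwroot := hs w hws
      have hwss : IsSS w := by
        by_contra hn
        obtain ⟨x, hx⟩ := exists_T hP hW hwroot hn
        exact hwI (Finset.mem_image.2 ⟨x, Finset.mem_univ _, hx⟩)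
      have h1 : g w = 1 := by
        simp only [g]
        have h2 := hss w hwroot hwss
        have h3 : (conj w) ^ N = w ^ N := by
          rw [← map_pow, h2, map_pow, Complex.conj_ofReal]
        rw [div_pow, h3, div_self (pow_ne_zero _ (hs0 w hws))]
      rw [h1, one_pow]
    have e2 : ∏ w ∈ s.toFinset, g w ^ s.count w = ∏ w ∈ s.toFinset ∪ I, g w ^ s.count w := by
      refine Finset.prod_subset Finset.subset_union_left fun w _ hwI => ?_
      rw [Multiset.mem_toFinset] at hwI
      rw [Multiset.count_eq_zero_of_notMem hwI, pow_zero]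
    rw [e2]
    exact e1
  -- the relation
  let f : D.T → ℤ := fun x => (s.count (x.1 : ℂ) : ℤ) - s.count ((D.iota x).1 : ℂ)
  have hf : f ∈ D.relGroup := by
    refine (D.mem_relGroup f).2 ⟨fun x => ?_, (N : ℤ), by exact_mod_cast hN.ne', ?_⟩
    · simp only [f, D.iota_iota]
      ring
    · have hinj : Function.Injective (fun w : SF P => (w : ℂ)) := Subtype.coe_injective
      apply hinj
      have hcoe : ((∏ x, D.uu x ^ ((N : ℤ) * f x) : SF P) : ℂ) =
          ∏ x : D.T, ((x.1 : ℂ) / conj (x.1 : ℂ)) ^ ((N : ℤ) * f x) := by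
        have h1 := map_prod (algebraMap (SF P) ℂ) (fun x => D.uu x ^ ((N : ℤ) * f x)) Finset.univ
        refine h1.trans (Finset.prod_congr rfl fun x _ => ?_)
        rw [map_zpow₀, ← uu_coe]
        rfl
      change ((∏ x, D.uu x ^ ((N : ℤ) * f x) : SF P) : ℂ) = ((1 : SF P) : ℂ)
      rw [hcoe]
      have hterm : ∀ x : D.T, ((x.1 : ℂ) / conj (x.1 : ℂ)) ^ ((N : ℤ) * f x) =
          (g (x.1 : ℂ) ^ s.count (x.1 : ℂ)) *
            (g ((D.iota x).1 : ℂ) ^ s.count ((D.iota x).1 : ℂ)) := by
        intro x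
        have hx0 : (x.1 : ℂ) ≠ 0 := ne_zero_root hP hW (root_T hP hW x)
        have hx1 : conj (x.1 : ℂ) ≠ 0 := (map_ne_zero (starRingEnd ℂ)).2 hx0
        have hu0 : (x.1 : ℂ) / conj (x.1 : ℂ) ≠ 0 := div_ne_zero hx0 hx1
        have hι : ((D.iota x).1 : ℂ) / conj ((D.iota x).1 : ℂ) =
            ((x.1 : ℂ) / conj (x.1 : ℂ))⁻¹ := by
          rw [iota_coe, Complex.conj_conj, inv_div]
        simp only [g, f]
        rw [hι, mul_sub, zpow_sub₀ hu0, ← pow_mul, ← pow_mul, inv_pow, div_eq_mul_inv]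
        have e3 : ∀ (a : ℂ) (n : ℕ), a ^ ((N : ℤ) * (n : ℤ)) = a ^ (N * n) := by
          intro a n
          rw [← zpow_natCast]
          push_cast
          rfl
        rw [e3, e3]
      rw [Finset.prod_congr rfl fun x _ => hterm x, Finset.prod_mul_distrib, hprodT]
      have h2 : ∏ x : D.T, g ((D.iota x).1 : ℂ) ^ s.count ((D.iota x).1 : ℂ) =
          ∏ x : D.T, g (x.1 : ℂ) ^ s.count (x.1 : ℂ) := by
        have hinv : Function.Involutive D.iota := D.iota_iota
        exact Fintype.prod_equiv (Function.Involutive.toPerm D.iota hinv) _ _ fun x => rfl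
      rw [h2, hprodT, one_mul]
      rfl
  rw [hbot, AddSubgroup.mem_bot] at hf
  obtain ⟨x, rfl⟩ := exists_T hP hW hz hnss
  have h1 := congrFun hf x
  simp only [f, Pi.zero_apply] at h1
  have h2 : conj (x.1 : ℂ) = ((D.iota x).1 : ℂ) := (iota_coe hP hW x).symm
  rw [h2]
  omega

section parts

variable {Ω : Type*} [Field Ω] (b : Ω →+* ℂ) (q N : ℕ)

/-- Tate multisets. -/
def TT (t : Multiset Ω) : Prop := ∃ j : ℕ, t.prod ^ N = ((q : Ω) ^ N) ^ j

theorem TT_sub (hq : 1 < q) (hN : 0 < N) {u t : Multiset Ω} (hu : TT q N u) (hut : TT q N (u + t))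
    (ht : ∀ ω ∈ t, 1 ≤ ‖b ω‖) : TT q N t := by
  obtain ⟨j, hj⟩ := hu
  obtain ⟨i, hi⟩ := hut
  rw [Multiset.prod_add, mul_pow, hj] at hi
  have hqΩ : ((q : Ω) ^ N) ≠ 0 := by
    intro h
    have := congrArg b h
    rw [map_pow, map_natCast, map_zero] at this
    have h2 : (q : ℂ) ≠ 0 := by exact_mod_cast (by omega : q ≠ 0)
    exact (pow_ne_zero N h2) this
  have hnorm : 1 ≤ ‖b t.prod‖ := by
    clear hi
    induction t using Multiset.induction_on with
    | empty => simp
    | cons a t ih =>
      rw [Multiset.prod_cons, map_mul, norm_mul]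
      have h1 := ht a (Multiset.mem_cons_self a t)
      have h2 := ih (fun ω hω => ht ω (Multiset.mem_cons_of_mem hω))
      nlinarith
  have hq1 : (1 : ℝ) < (q : ℝ) ^ N := one_lt_pow₀ (by exact_mod_cast hq) hN.ne'
  have hle : j ≤ i := by
    have h1 := congrArg (fun ω => ‖b ω‖) hi
    simp only [map_mul, map_pow, map_natCast, norm_mul, norm_pow, Complex.norm_natCast] at h1
    by_contra hlt
    push Not at hlt
    have h2 : ((q : ℝ) ^ N) ^ i < ((q : ℝ) ^ N) ^ j := pow_lt_pow_right₀ hq1 hlt
    have h3 : 1 ≤ ‖b t.prod‖ ^ N := one_le_pow₀ hnorm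
    have h4 : 0 < ((q : ℝ) ^ N) ^ j := by positivity
    nlinarith
  refine ⟨i - j, ?_⟩
  have h5 : ((q : Ω) ^ N) ^ i = ((q : Ω) ^ N) ^ j * ((q : Ω) ^ N) ^ (i - j) := by
    rw [← pow_add]
    congr 1
    omega
  rw [h5] at hi
  exact mul_left_cancel₀ (pow_ne_zero _ hqΩ) hi

/-- **Decomposition.** -/
theorem exists_parts {P : k[X]} (hP : P ≠ 0) (hW : Pure P)
    (hbot : (frobData P hP hW).relGroup = ⊥) (hq : 1 < q)
    (hWq : ∀ z : ℂ, aeval z P = 0 → ∃ w : ℕ, ‖z‖ ^ 2 = (q : ℝ) ^ w)
    (hN : 0 < N) (hss : ∀ z : ℂ, aeval z P = 0 → IsSS z → z ^ N = (‖z‖ : ℂ) ^ N)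
    (n : ℕ) : ∀ t : Multiset Ω, t.card ≤ n → (∀ ω ∈ t, aeval (b ω) P = 0) → TT q N t →
      ∃ S : Multiset (Multiset Ω), S.sum = t ∧ ∀ u ∈ S, u.card ≤ 2 ∧ TT q N u := by
  classical
  induction n with
  | zero =>
    intro t ht _ _
    have : t = 0 := Multiset.card_eq_zero.1 (Nat.le_zero.1 ht)
    exact ⟨0, by rw [this]; rfl, by simp⟩
  | succ n ih =>
    intro t htn hroot hT
    by_cases ht0 : t = 0
    · exact ⟨0, by rw [ht0]; rfl, by simp⟩
    have hone : ∀ z : ℂ, aeval z P = 0 → 1 ≤ ‖z‖ := by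
      intro z hz
      obtain ⟨w, hw⟩ := hWq z hz
      have h1 : (1 : ℝ) ≤ (q : ℝ) ^ w := one_le_pow₀ (by exact_mod_cast hq.le)
      rw [← hw] at h1
      by_contra hlt
      push Not at hlt
      have := norm_nonneg z
      nlinarith
    have hqΩ : (q : Ω) ≠ 0 := by
      intro h
      have := congrArg b h
      rw [map_natCast, map_zero] at this
      have h2 : (q : ℂ) ≠ 0 := by exact_mod_cast (by omega : q ≠ 0)
      exact h2 this
    -- it suffices to split off a part
    suffices hsplit : ∃ u t' : Multiset Ω, u ≠ 0 ∧ u.card ≤ 2 ∧ TT q N u ∧ t = u + t' by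
      obtain ⟨u, t', hu0, hu2, hTu, rfl⟩ := hsplit
      have hT' : TT q N t' := TT_sub b q N hq hN hTu hT
        (fun ω hω => hone _ (hroot ω (Multiset.mem_add.2 (Or.inr hω))))
      have hcard : t'.card ≤ n := by
        rw [Multiset.card_add] at htn
        have : 0 < u.card := Multiset.card_pos.2 hu0
        omega
      obtain ⟨S, hS, hS2⟩ := ih t' hcard
        (fun ω hω => hroot ω (Multiset.mem_add.2 (Or.inr hω))) hT'
      refine ⟨u ::ₘ S, by rw [Multiset.sum_cons, hS], fun v hv => ?_⟩
      rcases Multiset.mem_cons.1 hv with rfl | hv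
      · exact ⟨hu2, hTu⟩
      · exact hS2 v hv
    by_cases hall : ∀ ω ∈ t, IsSS (b ω)
    · -- all supersingular
      have hpow : ∀ ω ∈ t, (b ω) ^ N = (‖b ω‖ : ℂ) ^ N := fun ω hω =>
        hss _ (hroot ω hω) (hall ω hω)
      by_cases hev : ∃ ω ∈ t, ∃ v : ℕ, ‖b ω‖ ^ 2 = (q : ℝ) ^ (2 * v)
      · obtain ⟨ω, hω, v, hv⟩ := hev
        obtain ⟨t', ht'⟩ := Multiset.exists_cons_of_mem hω
        refine ⟨{ω}, t', Multiset.singleton_ne_zero ω, by simp, ⟨v, ?_⟩, by
          rw [ht', Multiset.singleton_add]⟩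
        apply b.injective
        rw [Multiset.prod_singleton, map_pow, hpow ω hω, map_pow, map_pow, map_natCast]
        have h1 : ‖b ω‖ = (q : ℝ) ^ v := by
          rw [mul_comm, pow_mul] at hv
          exact (pow_left_inj₀ (norm_nonneg _) (by positivity) two_ne_zero).1 hv
        rw [h1]
        push_cast
        rw [← pow_mul, ← pow_mul, mul_comm]
      · push Not at hev
        obtain ⟨ω, hω⟩ := Multiset.exists_mem_of_ne_zero ht0
        obtain ⟨t1, ht1⟩ := Multiset.exists_cons_of_mem hω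
        have hodd : ∀ ω ∈ t, ∃ v : ℕ, ‖b ω‖ ^ 2 = (q : ℝ) ^ (2 * v + 1) := by
          intro ω hω
          obtain ⟨w, hw⟩ := hWq _ (hroot ω hω)
          rcases Nat.even_or_odd' w with ⟨v, rfl | rfl⟩
          · exact absurd hw (hev ω hω v)
          · exact ⟨v, hw⟩
        have ht1' : t1 ≠ 0 := by
          rintro rfl
          obtain ⟨j, hj⟩ := hT
          rw [ht1] at hj
          simp only [Multiset.prod_cons, Multiset.prod_zero, mul_one] at hj
          have h1 := congrArg (fun ω => ‖b ω‖) hj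
          simp only [map_pow, map_natCast, norm_pow, Complex.norm_natCast] at h1
          rw [← pow_mul, mul_comm, pow_mul] at h1
          have h2 : ‖b ω‖ = (q : ℝ) ^ j :=
            (pow_left_inj₀ (norm_nonneg _) (by positivity) hN.ne').1 h1
          refine hev ω hω j ?_
          rw [h2, ← pow_mul, mul_comm]
        obtain ⟨ω', hω'⟩ := Multiset.exists_mem_of_ne_zero ht1'
        obtain ⟨t2, ht2⟩ := Multiset.exists_cons_of_mem hω'
        have hω't : ω' ∈ t := by rw [ht1]; exact Multiset.mem_cons_of_mem hω'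
        obtain ⟨v, hv⟩ := hodd ω hω
        obtain ⟨v', hv'⟩ := hodd ω' hω't
        refine ⟨ω ::ₘ {ω'}, t2, Multiset.cons_ne_zero, by simp, ⟨v + v' + 1, ?_⟩, by
          rw [ht1, ht2, Multiset.cons_add, Multiset.singleton_add]⟩
        apply b.injective
        rw [Multiset.prod_cons, Multiset.prod_singleton, mul_pow, map_mul, map_pow, map_pow,
          hpow ω hω, hpow ω' hω't, map_pow, map_pow, map_natCast, ← mul_pow]
        have h1 : ‖b ω‖ * ‖b ω'‖ = (q : ℝ) ^ (v + v' + 1) := by
          have h2 : (‖b ω‖ * ‖b ω'‖) ^ 2 = ((q : ℝ) ^ (v + v' + 1)) ^ 2 := by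
            rw [mul_pow, hv, hv', ← pow_add, ← pow_mul]
            congr 1
            ring
          exact (pow_left_inj₀ (by positivity) (by positivity) two_ne_zero).1 h2
        have h3 : (‖b ω‖ : ℂ) * (‖b ω'‖ : ℂ) = (q : ℂ) ^ (v + v' + 1) := by
          exact_mod_cast congrArg (fun t : ℝ => (t : ℂ)) h1
        rw [h3, ← pow_mul, ← pow_mul, mul_comm]
    · -- a non-supersingular root
      push Not at hall
      obtain ⟨ω, hω, hns⟩ := hall
      have hz := hroot ω hω
      have hQ := norm_sq_root hP hW hz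
      let ω' : Ω := (Qn (b ω) : Ω) / ω
      have hbω' : b ω' = conj (b ω) := by
        simp only [ω']
        rw [map_div₀, map_natCast, conj_root hP hW hz]
      have hne : ω' ≠ ω := by
        intro h
        rw [h] at hbω'
        apply hns
        have hre : ((b ω).re : ℂ) = b ω := Complex.conj_eq_iff_re.1 hbω'.symm
        refine ⟨2, by norm_num, ?_⟩
        rw [← hre, Complex.norm_real, Real.norm_eq_abs, ← Complex.ofReal_pow,
          ← Complex.ofReal_pow, sq_abs]
      have hω0 : ω ≠ 0 := by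
        rintro rfl
        exact ne_zero_root hP hW hz (map_zero b)
      have hcount : (t.map b).count (b ω) = (t.map b).count (conj (b ω)) := by
        refine count_eq hP hW hbot N hN hss (t.map b) ?_ ?_ (b ω) hz hns
        · intro z hz
          obtain ⟨ω, hω, rfl⟩ := Multiset.mem_map.1 hz
          exact hroot ω hω
        · obtain ⟨j, hj⟩ := hT
          rw [← map_multiset_prod, ← map_pow, hj]
          have h1 : ‖b t.prod‖ ^ N = ((q : ℝ) ^ N) ^ j := by
            rw [← norm_pow, ← map_pow, hj]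
            simp
          have h2 : (‖b t.prod‖ : ℂ) ^ N = ((q : ℂ) ^ N) ^ j := by
            exact_mod_cast congrArg (fun t : ℝ => (t : ℂ)) h1
          rw [h2]
          simp
      rw [← hbω', Multiset.count_map_eq_count' b _ b.injective,
        Multiset.count_map_eq_count' b _ b.injective] at hcount
      obtain ⟨t1, ht1⟩ := Multiset.exists_cons_of_mem hω
      have hω't : ω' ∈ t := by
        rw [← Multiset.count_pos, ← hcount, Multiset.count_pos]
        exact hω
      have hω't1 : ω' ∈ t1 := by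
        rw [ht1, Multiset.mem_cons] at hω't
        exact hω't.resolve_left hne
      obtain ⟨t2, ht2⟩ := Multiset.exists_cons_of_mem hω't1
      obtain ⟨w, hw⟩ := hWq _ hz
      refine ⟨ω ::ₘ {ω'}, t2, Multiset.cons_ne_zero, by simp, ⟨w, ?_⟩, by
        rw [ht1, ht2, Multiset.cons_add, Multiset.singleton_add]⟩
      rw [Multiset.prod_cons, Multiset.prod_singleton]
      have h1 : ω * ω' = (Qn (b ω) : Ω) := by
        simp only [ω']
        field_simp
      have h2 : Qn (b ω) = q ^ w := by
        have h3 := hQ.1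
        rw [hw] at h3
        exact_mod_cast h3.symm
      rw [h1, h2]
      push_cast
      rw [← pow_mul, ← pow_mul, mul_comm]

end parts

end Pool.Agent.Helper10.NeatCount
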