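import Mathlib
import Pool.Agent.Helper9.UnifDefs
import Pool.Agent.Helper9.TensorWords
import Pool.Agent.Helper9.TensorClosed
import Pool.Agent.Helper10.NeatCount

/-!
# Generation of Tate classes by those on at most two factors
-/

set_option autoImplicit false
set_option linter.unusedSectionVars false

namespace Pool.Agent.Helper10.NeatFinal

open Polynomial Pool.Agent.Helper10.Frob2 ComplexConjugate Pool.Agent.Helper10.Neat
  Pool.Agent.Helper10.WeilTwo Pool.Agent.Helper10.NeatCount Pool.Agent.Helper9 Module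
open scoped TensorProduct

theorem generation (q : ℕ) (hq : 1 < q) (P : ℤ[X]) (hP : P.Monic)
    {k : Type*} [Field k] [Algebra k ℝ]
    (hW : ∀ h : k[X], h.Monic → Irreducible h → h ∣ P.map (algebraMap ℤ k) →
      ∃ w : ℕ, ∀ z : ℂ, aeval z h = 0 → ‖z‖ ^ 2 = (q : ℝ) ^ w)
    (hneat : ∀ h : k[X], h.Monic → Irreducible h → h ∣ P.map (algebraMap ℤ k) →
      (∀ z : ℂ, aeval z h = 0 → ¬ IsSS z) → IsIrrType h ∨ IsSlopeType h ∨ IsLargeType h)
    (hdisj : ∀ h h' : k[X], h.Monic → Irreducible h → h ∣ P.map (algebraMap ℤ k) →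
      (∀ z : ℂ, aeval z h = 0 → ¬ IsSS z) → h'.Monic → Irreducible h' →
      h' ∣ P.map (algebraMap ℤ k) → (∀ z : ℂ, aeval z h' = 0 → ¬ IsSS z) →
      h ≠ h' → IsIndep h h' ∨ IsIndep h' h)
    (N : ℕ) (hN : 0 < N) (hss : ∀ z : ℂ, aeval z P = 0 → IsSS z → z ^ N = (‖z‖ : ℂ) ^ N)
    {L V : Type*} [Field L] [CharZero L] [IsAlgClosed L] [AddCommGroup V] [Module L V]
    [FiniteDimensional L V] (F : V →ₗ[L] V)
    (hF : ∀ c : L, End.HasEigenvalue F c → aeval c P = 0)
    (A : ∀ n : ℕ, Submodule L (⨂[L]^n V)) (hA : IsTensorClosed A)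
    (hTate : ∀ n ≤ 2, ∀ i, genTate (q ^ N) (F ^ N) n i ≤ A n) :
    ∀ n i, genTate (q ^ N) (F ^ N) n i ≤ A n := by
  classical
  intro n i
  have hk0 : CharZero k := (algebraMap k ℝ).charZero
  set Pk := P.map (algebraMap ℤ k) with hPkdef
  have hPk : Pk ≠ 0 := (hP.map _).ne_zero
  have hpure : Pure Pk := by
    intro h hm hi hd
    obtain ⟨w, hw⟩ := hW h hm hi hd
    exact ⟨q ^ w, pow_pos (by omega) w, fun z hz => by rw [hw z hz]; push_cast; rfl⟩
  have hbot := NeatMain.relGroup_eq_bot hPk hpure hneat hdisj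
  have haev : ∀ z : ℂ, aeval z Pk = aeval z P := fun z => aeval_map_algebraMap k z P
  have hWq : ∀ z : ℂ, aeval z Pk = 0 → ∃ w : ℕ, ‖z‖ ^ 2 = (q : ℝ) ^ w := by
    intro z hz
    have hint := isIntegral_of_root hPk hz
    obtain ⟨w, hw⟩ := hW (minpoly k z) (minpoly.monic hint) (minpoly.irreducible hint)
      (minpoly.dvd k z hz)
    exact ⟨w, hw z (minpoly.aeval k z)⟩
  -- the algebraic numbers
  let Ω := AlgebraicClosure ℚ
  have hΩalg : Algebra.IsAlgebraic ℚ Ω := AlgebraicClosure.isAlgebraic ℚ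
  let a : Ω →+* L := (IsAlgClosed.lift (R := ℚ) (S := Ω) (M := L)).toRingHom
  let b : Ω →+* ℂ := (IsAlgClosed.lift (R := ℚ) (S := Ω) (M := ℂ)).toRingHom
  have hrootL : ∀ μ : L, End.HasEigenvalue F μ → ∃ ω : Ω, a ω = μ ∧ aeval ω P = 0 := by
    intro μ hμ
    have h1 := hF μ hμ
    have hsplit : (P.map (algebraMap ℤ Ω)).Splits := IsAlgClosed.splits _
    have h2 := hsplit.roots_map a
    have h3 : (P.map (algebraMap ℤ Ω)).map a = P.map (algebraMap ℤ L) := by
      rw [Polynomial.map_map]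
      congr 1
      exact RingHom.ext_int _ _
    rw [h3] at h2
    have h4 : μ ∈ (P.map (algebraMap ℤ L)).roots := by
      rw [mem_roots (hP.map _).ne_zero, IsRoot.def, eval_map_algebraMap]
      exact h1
    rw [h2, Multiset.mem_map] at h4
    obtain ⟨ω, hω, hωμ⟩ := h4
    rw [mem_roots (hP.map _).ne_zero, IsRoot.def, eval_map_algebraMap] at hω
    exact ⟨ω, hωμ, hω⟩
  have hrootC : ∀ ω : Ω, aeval ω P = 0 → aeval (b ω) Pk = 0 := by
    intro ω hω
    rw [haev]
    have := Polynomial.hom_eval₂ P (algebraMap ℤ Ω) b ω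
    rw [aeval_def] at hω ⊢
    rw [hω, map_zero] at this
    rw [this]
    congr 1
    exact RingHom.ext_int _ _
  -- words
  refine (maxGen_tensor_le (F ^ N) n _).trans ?_
  rw [Submodule.span_le]
  rintro _ ⟨v, x, hvx, hprod, rfl⟩
  let E : L → Set V := fun μ => {v | v ∈ End.maxGenEigenspace (F ^ N) μ}
  have hrel : ∀ t : Multiset L, t.card ≤ 2 → (∃ j : ℕ, t.prod = ((q : L) ^ N) ^ j) →
      RelW A E t := by
    rintro t ht ⟨j, hj⟩ m v' x' hv' hx'
    have hm : m ≤ 2 := by
      rw [← hx'] at ht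
      simpa using ht
    refine hTate m hm j ?_
    have h1 : ∀ l, ∃ k : ℕ, ((F ^ N - x' l • (1 : End L V)) ^ k) (v' l) = 0 := fun l =>
      (End.mem_maxGenEigenspace _ _ _).1 (hv' l)
    choose e he using h1
    have h2 := tprod_mem_maxGen (F ^ N) x' _ e v' le_rfl he
    have h3 : ∏ l, x' l = (((q ^ N : ℕ) : L)) ^ j := by
      push_cast
      rw [← hj, ← hx']
      rfl
    rw [h3] at h2
    exact h2
  have hchoose : ∀ j, ∃ ω : Ω, (a ω) ^ N = x j ∧ aeval ω P = 0 := by
    intro j
    have h1 : End.HasEigenvalue (F ^ N) (x j) := by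
      have h2 : (End.maxGenEigenspace (F ^ N) (x j)) ≠ ⊥ := by
        intro hbot
        have h3 := (hvx j).1
        rw [hbot, Submodule.mem_bot] at h3
        exact (hvx j).2 h3
      by_contra hne
      apply h2
      rw [eq_bot_iff]
      intro y hy
      obtain ⟨m, hm⟩ := (End.mem_maxGenEigenspace _ _ _).1 hy
      have hinj : Function.Injective ((F ^ N - x j • (1 : End L V)) : End L V) := by
        rw [← LinearMap.ker_eq_bot]
        by_contra hker
        apply hne
        rw [End.hasEigenvalue_iff, End.eigenspace_def]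
        exact hker
      rw [Submodule.mem_bot]
      induction m with
      | zero => simpa using hm
      | succ m ih =>
        apply ih
        rw [pow_succ', Module.End.mul_apply] at hm
        exact hinj (by rw [hm, map_zero])
    rw [End.hasEigenvalue_iff_mem_spectrum, spectrum.map_pow_of_pos _ hN] at h1
    obtain ⟨μ, hμ, hμx⟩ := h1
    obtain ⟨ω, hω, hω'⟩ := hrootL μ (End.hasEigenvalue_iff_mem_spectrum.2 hμ)
    exact ⟨ω, by rw [hω]; exact hμx, hω'⟩
  choose ω hω hωP using hchoose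
  let t : Multiset Ω := Finset.univ.val.map ω
  have ht : ∀ u ∈ t, aeval (b u) Pk = 0 := by
    intro u hu
    obtain ⟨j, -, rfl⟩ := Multiset.mem_map.1 hu
    exact hrootC _ (hωP j)
  have htT : TT q N t := by
    refine ⟨i, ?_⟩
    apply a.injective
    have h1 : t.prod = ∏ j, ω j := rfl
    rw [h1, map_pow, map_prod, ← Finset.prod_pow, Finset.prod_congr rfl fun j _ => hω j, hprod]
    push_cast
    rw [map_pow, map_pow, map_natCast]
  obtain ⟨S, hS, hS2⟩ := exists_parts b q N hPk hpure hbot hq hWq hN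
    (fun z hz hz' => hss z (by rw [← haev]; exact hz) hz') t.card t le_rfl ht htT
  let φ : Ω → L := fun u => (a u) ^ N
  have hsum : (Finset.univ.val.map x : Multiset L) = (S.map fun u => u.map φ).sum := by
    have h1 : (Finset.univ.val.map x : Multiset L) = t.map φ := by
      rw [Multiset.map_map]
      exact Multiset.map_congr rfl fun j _ => (hω j).symm
    rw [h1, ← hS]
    exact (map_multiset_sum (Multiset.mapAddMonoidHom φ) S)
  have hall : RelW A E (Finset.univ.val.map x : Multiset L) := by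
    rw [hsum]
    refine RelW.sum hA (hrel 0 (by simp) ⟨0, by simp⟩) _ ?_
    intro u hu
    obtain ⟨u', hu', rfl⟩ := Multiset.mem_map.1 hu
    obtain ⟨h1, j, hj⟩ := hS2 u' hu'
    refine hrel _ (by rw [Multiset.card_map]; exact h1) ⟨j, ?_⟩
    have h2 := congrArg a hj
    rw [map_pow, map_pow, map_pow, map_natCast, map_multiset_prod] at h2
    rw [← h2]
    simp only [φ]
    rw [Multiset.prod_map_pow]
  exact hall n v x (fun j => (hvx j).1) rfl

end Pool.Agent.Helper10.NeatFinal
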