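import Mathlib
import Pool.Agent.Helper9.UnifDefs
import Pool.Agent.Helper10.NeatDefs
import Pool.Agent.Helper10.NeatFinal

set_option autoImplicit false

namespace Pool.Agent.Results.MP_2a05c8_ag.GoodFactors

open Polynomial Pool.Agent.Helper9 Pool.Agent.Helper10.Neat
open scoped TensorProduct

/-- Let `P` be a monic integral polynomial and let `k` be a field embedded in `ℝ` such that for
every monic irreducible factor `h` of `P` over `k` all complex roots of `h` have absolute value
`q ^ (w / 2)` for some natural number `w` depending on `h`.  Suppose that every such factor without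
supersingular roots is of irreducible, slope or large type, and that any two different such factors
are independent.  Let `N ≥ 1` be such that `z ^ N = |z| ^ N` for the supersingular roots `z` of `P`.
Let `F` be an endomorphism of a finite-dimensional vector space `V` over an algebraically closed
field of characteristic zero whose eigenvalues are roots of `P`.  If subspaces `A n` of `V^{⊗ n}`,
closed under permutations of the factors and under tensor products, contain all generalised Tate
classes of `F ^ N` for `n ≤ 2`, then they contain all generalised Tate classes of `F ^ N` for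
all `n`. -/
theorem result (q : ℕ) (hq : 1 < q) (P : ℤ[X]) (hP : P.Monic)
    {k : Type*} [Field k] [Algebra k ℝ]
    (hW : ∀ h : k[X], h.Monic → Irreducible h → h ∣ P.map (algebraMap ℤ k) →
      ∃ w : ℕ, ∀ z : ℂ, aeval z h = 0 → ‖z‖ ^ 2 = (q : ℝ) ^ w)
    (hneat : ∀ h : k[X], h.Monic → Irreducible h → h ∣ P.map (algebraMap ℤ k) →
      (∀ z : ℂ, aeval z h = 0 → ¬ IsSS z) → IsIrrType h ∨ IsSlopeType h ∨ IsLargeType h)
    (hdisj : ∀ h h' : k[X], h.Monic → Irreducible h → h ∣ P.map (algebraMap ℤ k) →
      (∀ z : ℂ, aeval z h = 0 → ¬ IsSS z) → h'.Monic → Irreducible h' →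
      h' ∣ P.map (algebraMap ℤ k) → (∀ z : ℂ, aeval z h' = 0 → ¬ IsSS z) →
      h ≠ h' → IsIndep h h' ∨ IsIndep h' h)
    (N : ℕ) (hN : 0 < N) (hss : ∀ z : ℂ, aeval z P = 0 → IsSS z → z ^ N = (‖z‖ : ℂ) ^ N)
    {L V : Type*} [Field L] [CharZero L] [IsAlgClosed L] [AddCommGroup V] [Module L V]
    [FiniteDimensional L V] (F : V →ₗ[L] V)
    (hF : ∀ c : L, Module.End.HasEigenvalue F c → aeval c P = 0)
    (A : ∀ n : ℕ, Submodule L (⨂[L]^n V)) (hA : IsTensorClosed A)
    (hTate : ∀ n ≤ 2, ∀ i, genTate (q ^ N) (F ^ N) n i ≤ A n) :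
    ∀ n i, genTate (q ^ N) (F ^ N) n i ≤ A n :=
  Pool.Agent.Helper10.NeatFinal.generation q hq P hP hW hneat hdisj N hN hss F hF A hA hTate

end Pool.Agent.Results.MP_2a05c8_ag.GoodFactors
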