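import Mathlib

/-!
# Pairing multisets of Weil numbers
-/

set_option autoImplicit false
set_option linter.unusedSectionVars false

namespace Pool.Agent.Helper10.Pairing

/-- A multiset with symmetric counts and no fixed point is a union of pairs. -/
theorem pair_sym {K : Type*} [Field K] [DecidableEq K] (q : K) (hq : q ≠ 0) (n : ℕ) :
    ∀ s : Multiset K, s.card = n → (∀ x ∈ s, x ≠ 0) → (∀ x ∈ s, q / x ≠ x) →
      (∀ x, s.count x = s.count (q / x)) →
      ∃ t : Multiset (K × K), (∀ p ∈ t, p.1 * p.2 = q) ∧
        s = t.map Prod.fst + t.map Prod.snd := by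
  induction n using Nat.strong_induction_on with
  | _ n ih =>
    intro s hn h0 hne hc
    by_cases hs : s = 0
    · exact ⟨0, by simp, by simp [hs]⟩
    obtain ⟨x, hx⟩ := Multiset.exists_mem_of_ne_zero hs
    have hx0 := h0 x hx
    have hqx : q / x ∈ s := by
      rw [← Multiset.count_pos, ← hc x, Multiset.count_pos]
      exact hx
    have hqx' : q / x ∈ s.erase x := by
      rw [Multiset.mem_erase_of_ne (hne x hx)]
      exact hqx
    obtain ⟨s1, hs1⟩ := Multiset.exists_cons_of_mem hx
    rw [hs1, Multiset.erase_cons_head] at hqx'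
    obtain ⟨s2, hs2⟩ := Multiset.exists_cons_of_mem hqx'
    have hs' : s = x ::ₘ (q / x) ::ₘ s2 := by rw [hs1, hs2]
    have hinv : q / (q / x) = x := by field_simp
    have hcard : s2.card < n := by
      rw [← hn, hs']
      simp
    obtain ⟨t, ht, hst⟩ := ih s2.card hcard s2 rfl
      (fun y hy => h0 y (by rw [hs']; simp [hy]))
      (fun y hy => hne y (by rw [hs']; simp [hy])) (by
        intro y
        have h1 := hc y
        rw [hs'] at h1
        simp only [Multiset.count_cons] at h1
        have e1 : (q / y = x) ↔ (y = q / x) := by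
          constructor
          · intro h
            have hy0 : y ≠ 0 := by
              rintro rfl
              rw [div_zero] at h
              exact hx0 h.symm
            rw [← h]; field_simp
          · intro h
            rw [h, hinv]
        have e2 : (q / y = q / x) ↔ (y = x) := by
          constructor
          · intro h
            have hy0 : y ≠ 0 := by
              rintro rfl
              rw [div_zero] at h
              exact (div_ne_zero hq hx0) h.symm
            have h2 : q / (q / y) = q / (q / x) := by rw [h]
            rw [hinv] at h2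
            rw [← h2]; field_simp
          · intro h
            rw [h]
        simp only [e1, e2] at h1
        omega)
    refine ⟨(x, q / x) ::ₘ t, ?_, ?_⟩
    · intro p hp
      rcases Multiset.mem_cons.1 hp with rfl | hp
      · simp only
        field_simp
      · exact ht p hp
    · rw [hs', Multiset.map_cons, Multiset.map_cons, Multiset.cons_add, Multiset.add_cons, ← hst]

/-- A multiset of square roots of `Q` with the right product is a union of pairs. -/
theorem pair_ss {K : Type*} [Field K] [DecidableEq K] (h2 : (2 : K) ≠ 0) (Q : K) (hQ : Q ≠ 0)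
    (j : ℕ) : ∀ s : Multiset K, s.card = 2 * j → (∀ x ∈ s, x ^ 2 = Q) → s.prod = Q ^ j →
      ∃ t : Multiset (K × K), (∀ p ∈ t, p.1 * p.2 = Q) ∧
        s = t.map Prod.fst + t.map Prod.snd := by
  induction j with
  | zero =>
    intro s hs _ _
    rw [mul_zero, Multiset.card_eq_zero] at hs
    exact ⟨0, by simp, by simp [hs]⟩
  | succ j ih =>
    intro s hs hsq hprod
    -- find a repeated element
    have hrep : ∃ x s', s = x ::ₘ x ::ₘ s' := by
      obtain ⟨x, hx⟩ : ∃ x, x ∈ s := by
        apply Multiset.exists_mem_of_ne_zero
        rintro rfl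
        simp at hs
      obtain ⟨s1, hs1⟩ := Multiset.exists_cons_of_mem hx
      have hs1card : s1.card = 2 * j + 1 := by
        have := congrArg Multiset.card hs1
        rw [hs, Multiset.card_cons] at this
        omega
      by_cases hx1 : x ∈ s1
      · obtain ⟨s2, hs2⟩ := Multiset.exists_cons_of_mem hx1
        exact ⟨x, s2, by rw [hs1, hs2]⟩
      · have hneg : ∀ y ∈ s1, y = -x := by
          intro y hy
          have hyQ := hsq y (by rw [hs1]; simp [hy])
          have hxQ := hsq x hx
          have h3 : y ^ 2 = x ^ 2 := by rw [hyQ, hxQ]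
          rcases sq_eq_sq_iff_eq_or_eq_neg.1 h3 with h | h
          · exact absurd (h ▸ hy) hx1
          · exact h
        have hs1' : s1 = Multiset.replicate (2 * j + 1) (-x) := by
          rw [Multiset.eq_replicate]
          exact ⟨hs1card, hneg⟩
        cases j with
        | zero =>
          exfalso
          rw [hs1, hs1'] at hprod
          simp only [Multiset.prod_cons, Multiset.prod_replicate] at hprod
          have hxQ := hsq x hx
          have h4 : -Q = Q := by
            rw [← hxQ] at hprod ⊢
            linear_combination hprod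
          have h5 : 2 * Q = 0 := by linear_combination -h4
          rcases mul_eq_zero.1 h5 with h | h
          · exact h2 h
          · exact hQ h
        | succ j =>
          refine ⟨-x, x ::ₘ Multiset.replicate (2 * j + 1) (-x), ?_⟩
          rw [hs1, hs1', show 2 * (j + 1) + 1 = (2 * j + 1) + 1 + 1 by ring,
            Multiset.replicate_succ, Multiset.replicate_succ]
          rw [Multiset.cons_swap x, Multiset.cons_swap x]
    obtain ⟨x, s', hs'⟩ := hrep
    have hxQ := hsq x (by rw [hs']; simp)
    obtain ⟨t, ht, hst⟩ := ih s' (by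
        have := congrArg Multiset.card hs'
        rw [hs, Multiset.card_cons, Multiset.card_cons] at this
        omega) (fun y hy => hsq y (by rw [hs']; simp [hy])) (by
        rw [hs', Multiset.prod_cons, Multiset.prod_cons, ← mul_assoc, ← sq, hxQ, pow_succ,
          mul_comm] at hprod
        exact mul_right_cancel₀ hQ hprod)
    refine ⟨(x, x) ::ₘ t, ?_, ?_⟩
    · intro p hp
      rcases Multiset.mem_cons.1 hp with rfl | hp
      · simp only
        rw [← hxQ]; ring
      · exact ht p hp
    · rw [hs', Multiset.map_cons, Multiset.map_cons, Multiset.cons_add, Multiset.add_cons, ← hst]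

/-- The pairing for `N`-th powers. -/
theorem pair_all {K : Type*} [Field K] [DecidableEq K] (h2 : (2 : K) ≠ 0) (q : K) (hq : q ≠ 0)
    (N i : ℕ) (s : Multiset K) (hcard : s.card = 2 * i) (h0 : ∀ x ∈ s, x ≠ 0)
    (hc : ∀ x, x ^ (2 * N) ≠ q ^ N → s.count x = s.count (q / x))
    (hprod : s.prod ^ N = (q ^ N) ^ i) :
    ∃ t : Multiset (K × K), (∀ p ∈ t, p.1 * p.2 = q ^ N) ∧
      s.map (fun x => x ^ N) = t.map Prod.fst + t.map Prod.snd := by
  classical
  have hqN : q ^ N ≠ 0 := pow_ne_zero _ hq
  have hss : ∀ x, x ≠ 0 → ((q / x) ^ (2 * N) = q ^ N ↔ x ^ (2 * N) = q ^ N) := by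
    intro x hx
    have h3 : (q / x) ^ (2 * N) * x ^ (2 * N) = q ^ N * q ^ N := by
      rw [← mul_pow, div_mul_cancel₀ _ hx, ← pow_add]
      congr 1
      ring
    constructor
    · intro h
      rw [h] at h3
      exact mul_left_cancel₀ hqN h3
    · intro h
      rw [h] at h3
      exact mul_right_cancel₀ hqN h3
  let s1 := s.filter (fun x => x ^ (2 * N) ≠ q ^ N)
  let s2 := s.filter (fun x => ¬ (x ^ (2 * N) ≠ q ^ N))
  have hsum : s1 + s2 = s := Multiset.filter_add_not _ s
  obtain ⟨t1, ht1, hst1⟩ := pair_sym q hq s1.card s1 rfl
    (fun x hx => h0 x (Multiset.mem_of_mem_filter hx)) (fun x hx h => by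
      have hx0 := h0 x (Multiset.mem_of_mem_filter hx)
      have h3 := (Multiset.mem_filter.1 hx).2
      apply h3
      rw [div_eq_iff hx0] at h
      rw [pow_mul, sq, ← h]) (fun x => by
      simp only [s1]
      rw [Multiset.count_filter, Multiset.count_filter]
      by_cases hx0 : x = 0
      · rw [hx0, div_zero]
      · by_cases hx : x ^ (2 * N) = q ^ N
        · rw [if_neg (fun h => h hx), if_neg (fun h => h ((hss x hx0).2 hx))]
        · rw [if_pos hx, if_pos (fun h => hx ((hss x hx0).1 h)), hc x hx])
  have hcard1 : s1.card = 2 * t1.card := by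
    have := congrArg Multiset.card hst1
    rw [Multiset.card_add, Multiset.card_map, Multiset.card_map] at this
    omega
  have hcard2 : s1.card + s2.card = 2 * i := by
    rw [← Multiset.card_add, hsum, hcard]
  obtain ⟨j, hj⟩ : ∃ j, i = t1.card + j := ⟨i - t1.card, by omega⟩
  have hprod1 : s1.prod = q ^ t1.card := by
    rw [hst1, Multiset.prod_add, ← Multiset.prod_map_mul]
    have h3 : t1.map (fun p => Prod.fst p * Prod.snd p) = t1.map (fun _ => q) :=
      Multiset.map_congr rfl ht1
    rw [h3, Multiset.map_const', Multiset.prod_replicate]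
  obtain ⟨t2, ht2, hst2⟩ := pair_ss h2 (q ^ N) hqN j (s2.map (fun x => x ^ N))
    (by rw [Multiset.card_map]; omega) (fun y hy => by
      obtain ⟨x, hx, rfl⟩ := Multiset.mem_map.1 hy
      have h3 := (Multiset.mem_filter.1 hx).2
      rw [not_not] at h3
      rw [← pow_mul, mul_comm N 2, h3]) (by
      rw [Multiset.prod_map_pow, Multiset.map_id']
      rw [← hsum, Multiset.prod_add, mul_pow, hprod1, hj, pow_add, ← pow_mul, mul_comm _ N,
        pow_mul] at hprod
      exact mul_left_cancel₀ (pow_ne_zero _ hqN) hprod)
  refine ⟨t1.map (fun p => (p.1 ^ N, p.2 ^ N)) + t2, ?_, ?_⟩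
  · intro p hp
    rcases Multiset.mem_add.1 hp with h | h
    · obtain ⟨p', hp', rfl⟩ := Multiset.mem_map.1 h
      simp only
      rw [← mul_pow, ht1 p' hp']
    · exact ht2 p h
  · rw [← hsum, Multiset.map_add, hst2, hst1, Multiset.map_add, Multiset.map_add, Multiset.map_add]
    simp only [Multiset.map_map, Function.comp_def]
    exact add_add_add_comm _ _ _ _

end Pool.Agent.Helper10.Pairing
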