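import Mathlib

/-!
# Conditions on the factors of a Weil polynomial
-/

set_option autoImplicit false

namespace Pool.Agent.Helper10

open Polynomial

/-- `z` is supersingular: `z ^ 2 / q` is a root of unity. -/
def IsSS (q : ℕ) (z : ℂ) : Prop := ∃ m : ℕ, 0 < m ∧ z ^ (2 * m) = (q : ℂ) ^ m

/-- The condition on a (monic irreducible) polynomial `h` over `k`:
(A) the degree of `h` is a power of `2` and its discriminant is not a square in `k`; or
(B) the degree of `h` is twice an odd prime and the field generated over `k` by a root of `h`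
contains no field of degree `2` over `k`; or
(C) no root `z` of `h` lies in the field generated over `k` by a root `y ≠ z, q / z` and all the
`u + q / u`, `u` a root of `h`. -/
def IsGood (q : ℕ) {k : Type*} [Field k] [Algebra k ℝ] (h : k[X]) : Prop :=
  ((∃ j : ℕ, h.natDegree = 2 ^ j) ∧ ¬ IsSquare h.discr) ∨
  ((∃ r : ℕ, r.Prime ∧ r ≠ 2 ∧ h.natDegree = 2 * r) ∧
    ∀ z : ℂ, aeval z h = 0 → ∀ L : IntermediateField k ℂ,
      L ≤ IntermediateField.adjoin k {z} → Module.finrank k L ≠ 2) ∨
  (∀ y z : ℂ, aeval y h = 0 → aeval z h = 0 → z ≠ y → z ≠ (q : ℂ) / y →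
    z ∉ IntermediateField.adjoin k
      (insert y {t : ℂ | ∃ u : ℂ, aeval u h = 0 ∧ t = u + (q : ℂ) / u}))

end Pool.Agent.Helper10
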