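import Mathlib
import Pool.Agent.Helper10.WeilDefs
import Pool.Agent.Helper10.FrobTriv

/-!
# Relations between the roots of a Weil polynomial
-/

set_option autoImplicit false
set_option linter.unusedSectionVars false

namespace Pool.Agent.Helper10.WeilCount

open Polynomial Finset Pool.Agent.Helper10.FrobRel ComplexConjugate

variable {k : Type*} [Field k] [Algebra k ℝ]

theorem aeval_conj' (h : k[X]) (z : ℂ) : aeval (conj z) h = conj (aeval z h) := by
  have h1 : ∀ w : ℂ, aeval w h = aeval w (h.map (algebraMap k ℝ)) := fun w =>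
    (aeval_map_algebraMap ℝ w h).symm
  rw [h1, h1, aeval_conj]

theorem conj_eq_div {q : ℕ} {z : ℂ} (hz : ‖z‖ ^ 2 = q) (hq : 0 < q) : conj z = (q : ℂ) / z := by
  have hz0 : z ≠ 0 := by
    rintro rfl
    rw [norm_zero] at hz
    have : (q : ℝ) ≠ 0 := by exact_mod_cast hq.ne'
    apply this
    rw [← hz]; norm_num
  rw [eq_div_iff hz0, mul_comm, Complex.mul_conj, Complex.normSq_eq_norm_sq, hz]
  push_cast
  rfl

section setup

variable (q : ℕ) (hq : 0 < q) (P : k[X]) (hP : P ≠ 0)
  (hW : ∀ z : ℂ, aeval z P = 0 → ‖z‖ ^ 2 = q)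

/-- The splitting field of `P` in `ℂ`. -/
noncomputable abbrev SF (P : k[X]) : IntermediateField k ℂ := IntermediateField.adjoin k (P.rootSet ℂ)

theorem isSplittingField_SF : IsSplittingField k (SF P) P :=
  IntermediateField.adjoin_rootSet_isSplittingField (IsAlgClosed.splits _)

theorem finiteDimensional_SF : FiniteDimensional k (SF P) :=
  haveI := isSplittingField_SF P
  IsSplittingField.finiteDimensional (SF P) P

theorem isGalois_SF : IsGalois k (SF P) := by
  have := isSplittingField_SF P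
  have := finiteDimensional_SF P
  have : CharZero k := (algebraMap k ℝ).charZero
  have : Normal k (SF P) := Normal.of_isSplittingField P
  exact IsGalois.mk

include hq hW in
theorem ne_zero_of_root (z : ℂ) (hz : aeval z P = 0) : z ≠ 0 := by
  rintro rfl
  have := hW 0 hz
  rw [norm_zero] at this
  have h2 : (q : ℝ) ≠ 0 := by exact_mod_cast hq.ne'
  apply h2
  rw [← this]; norm_num

include hq hW in
theorem root_div (h : k[X]) (hdvd : h ∣ P) (z : ℂ) (hz : aeval z h = 0) :
    aeval ((q : ℂ) / z) h = 0 := by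
  have hzP : aeval z P = 0 := by
    obtain ⟨g, rfl⟩ := hdvd
    rw [map_mul, hz, zero_mul]
  rw [← conj_eq_div (hW z hzP) hq, aeval_conj', hz, map_zero]

theorem aeval_coe (h : k[X]) (z : SF P) : ((aeval z h : SF P) : ℂ) = aeval (z : ℂ) h := by
  rw [← IntermediateField.coe_val, ← aeval_algHom_apply]

theorem aeval_coe_eq_zero (h : k[X]) (z : SF P) : aeval z h = 0 ↔ aeval (z : ℂ) h = 0 := by
  rw [← aeval_coe]
  exact (ZeroMemClass.coe_eq_zero).symm

theorem ss_div {q : ℕ} (hq : 0 < q) {z : ℂ} (hz : z ≠ 0) (m : ℕ) :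
    ((q : ℂ) / z) ^ (2 * m) = (q : ℂ) ^ m → z ^ (2 * m) = (q : ℂ) ^ m := by
  intro h
  have hq0 : ((q : ℂ)) ^ m ≠ 0 := pow_ne_zero _ (by exact_mod_cast hq.ne')
  have h3 : ((q : ℂ) / z) ^ (2 * m) * z ^ (2 * m) = (q : ℂ) ^ m * (q : ℂ) ^ m := by
    rw [← mul_pow, div_mul_cancel₀ _ hz, ← pow_add]
    congr 1
    ring
  rw [h] at h3
  exact mul_left_cancel₀ hq0 h3

open Classical in
/-- The set of non-supersingular roots. -/
noncomputable def frobData : FrobData k (SF P) q where
  carrier := ((P.map (algebraMap k (SF P))).roots.toFinset).filter fun z => ¬ IsSS q (z : ℂ)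
  stable σ z hz := by
    have hPm : P.map (algebraMap k (SF P)) ≠ 0 :=
      (Polynomial.map_ne_zero_iff (algebraMap k (SF P)).injective).2 hP
    rw [Finset.mem_filter, Multiset.mem_toFinset, mem_roots hPm, IsRoot.def,
      eval_map_algebraMap] at hz ⊢
    refine ⟨?_, fun h => hz.2 ?_⟩
    · rw [← AlgEquiv.coe_toAlgHom, aeval_algHom_apply, hz.1, map_zero]
    · obtain ⟨m, hm, h1⟩ := h
      refine ⟨m, hm, ?_⟩
      have h2 : (σ z) ^ (2 * m) = (q : SF P) ^ m := by
        apply Subtype.ext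
        push_cast
        exact h1
      have h3 : σ (z ^ (2 * m)) = σ ((q : SF P) ^ m) := by
        rw [map_pow, map_pow, map_natCast]
        exact h2
      have h4 := congrArg (fun w : SF P => (w : ℂ)) (σ.injective h3)
      push_cast at h4
      exact h4
  ne0 z hz := by
    have hPm : P.map (algebraMap k (SF P)) ≠ 0 :=
      (Polynomial.map_ne_zero_iff (algebraMap k (SF P)).injective).2 hP
    rw [Finset.mem_filter, Multiset.mem_toFinset, mem_roots hPm, IsRoot.def,
      eval_map_algebraMap, aeval_coe_eq_zero] at hz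
    intro h
    apply ne_zero_of_root q hq P hW _ hz.1
    rw [h]; rfl
  q0 := by
    have : CharZero (SF P) := (algebraMap (SF P) ℂ).charZero
    exact_mod_cast hq.ne'
  minpoly_inv z hz := by
    have hPm : P.map (algebraMap k (SF P)) ≠ 0 :=
      (Polynomial.map_ne_zero_iff (algebraMap k (SF P)).injective).2 hP
    rw [Finset.mem_filter, Multiset.mem_toFinset, mem_roots hPm, IsRoot.def,
      eval_map_algebraMap] at hz
    have := finiteDimensional_SF P
    have hint : IsIntegral k z := Algebra.IsIntegral.isIntegral z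
    refine (minpoly.eq_of_irreducible_of_monic (minpoly.irreducible hint) ?_
      (minpoly.monic hint)).symm
    rw [aeval_coe_eq_zero]
    have h1 := root_div q hq P hW (minpoly k z) (minpoly.dvd k z hz.1) (z : ℂ)
      ((aeval_coe_eq_zero P _ z).1 (minpoly.aeval k z))
    push_cast
    exact h1
  nontors z hz m hm h := by
    rw [Finset.mem_filter] at hz
    refine hz.2 ⟨m, hm, ?_⟩
    have h4 := congrArg (fun w : SF P => (w : ℂ)) h
    push_cast at h4
    exact h4
  inv z hz := by
    have hPm : P.map (algebraMap k (SF P)) ≠ 0 :=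
      (Polynomial.map_ne_zero_iff (algebraMap k (SF P)).injective).2 hP
    rw [Finset.mem_filter, Multiset.mem_toFinset, mem_roots hPm, IsRoot.def,
      eval_map_algebraMap, aeval_coe_eq_zero] at hz ⊢
    refine ⟨?_, fun h => hz.2 ?_⟩
    · push_cast
      exact root_div q hq P hW P dvd_rfl _ hz.1
    · obtain ⟨m, hm, h1⟩ := h
      push_cast at h1
      exact ⟨m, hm, ss_div hq (ne_zero_of_root q hq P hW _ hz.1) m h1⟩

theorem mem_carrier_iff (z : SF P) : z ∈ (frobData q hq P hP hW).carrier ↔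
    aeval (z : ℂ) P = 0 ∧ ¬ IsSS q (z : ℂ) := by
  classical
  have hPm : P.map (algebraMap k (SF P)) ≠ 0 :=
    (Polynomial.map_ne_zero_iff (algebraMap k (SF P)).injective).2 hP
  change z ∈ ((P.map (algebraMap k (SF P))).roots.toFinset).filter
    (fun z : SF P => ¬ IsSS q (z : ℂ)) ↔ _
  rw [Finset.mem_filter, Multiset.mem_toFinset, mem_roots hPm, IsRoot.def, eval_map_algebraMap,
    aeval_coe_eq_zero]

/-- The relations are trivial. -/
theorem relGroup_bot
    (hgood : ∀ h : k[X], h.Monic → Irreducible h → h ∣ P →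
      (∀ z : ℂ, aeval z h = 0 → ¬ IsSS q z) → IsGood q h)
    (hdist : ∀ h h' : k[X], h.Monic → Irreducible h → h ∣ P →
      (∀ z : ℂ, aeval z h = 0 → ¬ IsSS q z) → h'.Monic → Irreducible h' → h' ∣ P →
      (∀ z : ℂ, aeval z h' = 0 → ¬ IsSS q z) → h.natDegree = h'.natDegree →
      IntermediateField.adjoin k (h.rootSet ℂ) = IntermediateField.adjoin k (h'.rootSet ℂ) →
      h = h') :
    (frobData q hq P hP hW).relGroup = ⊥ := by
  have := finiteDimensional_SF P
  have := isGalois_SF P
  have := isSplittingField_SF P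
  set D := frobData q hq P hP hW with hD
  have hint : ∀ x : D.T, IsIntegral k x.1 := fun x => Algebra.IsIntegral.isIntegral x.1
  have hmem : ∀ x : D.T, aeval (x.1 : ℂ) P = 0 ∧ ¬ IsSS q (x.1 : ℂ) := fun x =>
    (mem_carrier_iff q hq P hP hW x.1).1 x.2
  have hdvd : ∀ x : D.T, minpoly k x.1 ∣ P := fun x =>
    minpoly.dvd k x.1 ((aeval_coe_eq_zero P P x.1).2 (hmem x).1)
  have hsplit : ∀ x : D.T, ((minpoly k x.1).map (algebraMap k (SF P))).Splits := fun x =>
    Normal.splits inferInstance x.1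
  have himg : ∀ x : D.T, (SF P).val '' ((minpoly k x.1).rootSet (SF P)) =
      (minpoly k x.1).rootSet ℂ := fun x => (hsplit x).image_rootSet _
  have hne : ∀ x : D.T, minpoly k x.1 ≠ 0 := fun x => minpoly.ne_zero (hint x)
  have hroot : ∀ (x : D.T) (z : ℂ), aeval z (minpoly k x.1) = 0 →
      ∃ w : SF P, (w : ℂ) = z ∧ aeval w (minpoly k x.1) = 0 := by
    intro x z hz
    have h1 : z ∈ (minpoly k x.1).rootSet ℂ := (mem_rootSet_of_ne (hne x)).2 hz
    rw [← himg x] at h1
    obtain ⟨w, hw, hwz⟩ := h1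
    exact ⟨w, hwz, (mem_rootSet_of_ne (hne x)).1 hw⟩
  have hnss : ∀ (x : D.T) (z : ℂ), aeval z (minpoly k x.1) = 0 → ¬ IsSS q z := by
    intro x z hz
    obtain ⟨w, rfl, hw⟩ := hroot x z hz
    have h1 := D.mem_carrier_of_root x w hw
    exact ((mem_carrier_iff q hq P hP hW w).1 h1).2
  refine D.relGroup_eq_bot (fun x => ?_) (fun x y hdeg hadj => ?_)
  · rcases hgood _ (minpoly.monic (hint x)) (minpoly.irreducible (hint x)) (hdvd x) (hnss x) with
      ⟨⟨j, hj⟩, hd⟩ | ⟨⟨r, hr, hr2, hdeg⟩, hL⟩ | hC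
    · exact Or.inl ⟨j, hj, hd⟩
    · refine Or.inr (Or.inl ⟨r, hr, hr2, hdeg, fun L hLx hfin => ?_⟩)
      refine hL (x.1 : ℂ) ((aeval_coe_eq_zero P _ x.1).1 (minpoly.aeval k x.1))
        (L.map (SF P).val) ?_ ?_
      · have h1 := IntermediateField.map_mono (SF P).val hLx
        rw [IntermediateField.adjoin_map, Set.image_singleton] at h1
        exact h1
      · rw [← hfin]
        exact (LinearEquiv.finrank_eq (L.equivMap (SF P).val).toLinearEquiv).symm
    · refine Or.inr (Or.inr fun y z hy hz hzy hzy' hmem2 => ?_)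
      refine hC (y : ℂ) (z : ℂ) ((aeval_coe_eq_zero P _ y).1 hy) ((aeval_coe_eq_zero P _ z).1 hz)
        (fun h => hzy (Subtype.ext h)) (fun h => hzy' (Subtype.ext (by push_cast; exact h))) ?_
      have h1 : (z : ℂ) ∈ (IntermediateField.adjoin k (insert y {t : SF P | ∃ u : SF P,
          aeval u (minpoly k x.1) = 0 ∧ t = u + (q : SF P) / u})).map (SF P).val :=
        ⟨z, hmem2, rfl⟩
      rw [IntermediateField.adjoin_map] at h1
      refine IntermediateField.adjoin.mono k _ _ ?_ h1
      rintro _ ⟨t, ht, rfl⟩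
      rcases Set.mem_insert_iff.1 ht with rfl | ⟨u, hu, rfl⟩
      · exact Set.mem_insert _ _
      · refine Set.mem_insert_of_mem _ ⟨(u : ℂ), (aeval_coe_eq_zero P _ u).1 hu, ?_⟩
        rw [IntermediateField.coe_val]
        push_cast
        rfl
  · refine hdist _ _ (minpoly.monic (hint x)) (minpoly.irreducible (hint x)) (hdvd x) (hnss x)
      (minpoly.monic (hint y)) (minpoly.irreducible (hint y)) (hdvd y) (hnss y) hdeg ?_
    rw [← himg x, ← himg y, ← IntermediateField.adjoin_map, ← IntermediateField.adjoin_map, hadj]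

include hq hW in
/-- **Symmetry of counts.**  A multiset of `2 i` roots whose `N`-th powers have product `q^(N i)`
contains `z` and `q / z` equally often, for all non-supersingular `z`. -/
theorem count_eq (hP : P ≠ 0)
    (hgood : ∀ h : k[X], h.Monic → Irreducible h → h ∣ P →
      (∀ z : ℂ, aeval z h = 0 → ¬ IsSS q z) → IsGood q h)
    (hdist : ∀ h h' : k[X], h.Monic → Irreducible h → h ∣ P →
      (∀ z : ℂ, aeval z h = 0 → ¬ IsSS q z) → h'.Monic → Irreducible h' → h' ∣ P →
      (∀ z : ℂ, aeval z h' = 0 → ¬ IsSS q z) → h.natDegree = h'.natDegree →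
      IntermediateField.adjoin k (h.rootSet ℂ) = IntermediateField.adjoin k (h'.rootSet ℂ) →
      h = h')
    (N : ℕ) (hN : 0 < N) (hss : ∀ z : ℂ, aeval z P = 0 → IsSS q z → z ^ (2 * N) = (q : ℂ) ^ N)
    (s : Multiset ℂ) (hs : ∀ z ∈ s, aeval z P = 0) (i : ℕ) (hcard : s.card = 2 * i)
    (hprod : s.prod ^ N = ((q : ℂ) ^ N) ^ i) (z : ℂ) (hz : z ^ (2 * N) ≠ (q : ℂ) ^ N) :
    s.count z = s.count ((q : ℂ) / z) := by
  classical
  have hbot := relGroup_bot q hq P hP hW hgood hdist
  set D := frobData q hq P hP hW with hD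
  have hq0 : (q : ℂ) ≠ 0 := by exact_mod_cast hq.ne'
  let g : ℂ → ℂ := fun w => (w ^ 2 / (q : ℂ)) ^ N
  have hg1 : (s.map g).prod = 1 := by
    have h1 : (s.map g).prod = ((s.map (fun w => w ^ 2 / (q : ℂ))).prod) ^ N :=
      Multiset.prod_map_pow
    have h2 : (s.map (fun w => w ^ 2 / (q : ℂ))).prod = s.prod ^ 2 / (q : ℂ) ^ (2 * i) := by
      rw [Multiset.prod_map_div, Multiset.prod_map_pow, Multiset.map_id', Multiset.map_const',
        Multiset.prod_replicate, hcard]
    rw [h1, h2, div_pow, ← pow_mul, mul_comm 2 N, pow_mul, hprod, div_eq_one_iff_eq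
      (pow_ne_zero _ (pow_ne_zero _ hq0))]
    rw [← pow_mul, ← pow_mul, ← pow_mul]
    congr 1
    ring
  rw [Finset.prod_multiset_map_count] at hg1
  -- the product over the non-supersingular roots
  have hmemI : ∀ w : ℂ, aeval w P = 0 → ¬ IsSS q w → ∃ x : D.T, (x.1 : ℂ) = w := by
    intro w hw hnss
    have hwS : w ∈ SF P :=
      IntermediateField.subset_adjoin k _ ((mem_rootSet_of_ne hP).2 hw)
    exact ⟨⟨⟨w, hwS⟩, (mem_carrier_iff q hq P hP hW ⟨w, hwS⟩).2 ⟨hw, hnss⟩⟩, rfl⟩
  have hT : ∀ x : D.T, aeval (x.1 : ℂ) P = 0 ∧ ¬ IsSS q (x.1 : ℂ) := fun x =>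
    (mem_carrier_iff q hq P hP hW x.1).1 x.2
  let I : Finset ℂ := Finset.univ.image (fun x : D.T => (x.1 : ℂ))
  have hprodT : ∏ x : D.T, g (x.1 : ℂ) ^ s.count (x.1 : ℂ) = 1 := by
    rw [← hg1, ← Finset.prod_image (s := (Finset.univ : Finset D.T))
      (g := fun x : D.T => (x.1 : ℂ)) (f := fun w => g w ^ s.count w)
      (fun a _ b _ h => Subtype.ext (Subtype.ext h))]
    have e1 : ∏ w ∈ I, g w ^ s.count w = ∏ w ∈ s.toFinset ∪ I, g w ^ s.count w := by
      refine Finset.prod_subset Finset.subset_union_right fun w hw hwI => ?_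
      have hws : w ∈ s := by
        rcases Finset.mem_union.1 hw with h | h
        · exact Multiset.mem_toFinset.1 h
        · exact absurd h hwI
      have hwroot := hs w hws
      have hwss : IsSS q w := by
        by_contra hn
        obtain ⟨x, hx⟩ := hmemI w hwroot hn
        exact hwI (Finset.mem_image.2 ⟨x, Finset.mem_univ _, hx⟩)
      have h1 : g w = 1 := by
        simp only [g]
        rw [div_pow, ← pow_mul, hss w hwroot hwss, div_self (pow_ne_zero _ hq0)]
      rw [h1, one_pow]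
    have e2 : ∏ w ∈ s.toFinset, g w ^ s.count w = ∏ w ∈ s.toFinset ∪ I, g w ^ s.count w := by
      refine Finset.prod_subset Finset.subset_union_left fun w _ hwI => ?_
      rw [Multiset.mem_toFinset] at hwI
      rw [Multiset.count_eq_zero_of_notMem hwI, pow_zero]
    rw [e2]
    exact e1
  -- the relation
  let f : D.T → ℤ := fun x => (s.count (x.1 : ℂ) : ℤ) - s.count ((D.iota x).1 : ℂ)
  have hf : f ∈ D.relGroup := by
    refine (D.mem_relGroup f).2 ⟨fun x => ?_, (N : ℤ), by exact_mod_cast hN.ne', ?_⟩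
    · simp only [f, D.iota_iota]
      ring
    · have hinj : Function.Injective (fun w : SF P => (w : ℂ)) := Subtype.coe_injective
      apply hinj
      have hcoe : ((∏ x, D.uu x ^ ((N : ℤ) * f x) : SF P) : ℂ) =
          ∏ x : D.T, ((x.1 : ℂ) ^ 2 / (q : ℂ)) ^ ((N : ℤ) * f x) := by
        have h1 := map_prod (algebraMap (SF P) ℂ) (fun x => D.uu x ^ ((N : ℤ) * f x)) Finset.univ
        refine h1.trans (Finset.prod_congr rfl fun x _ => ?_)
        rw [map_zpow₀]
        congr 1
      change ((∏ x, D.uu x ^ ((N : ℤ) * f x) : SF P) : ℂ) = ((1 : SF P) : ℂ)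
      rw [hcoe]
      have hterm : ∀ x : D.T, ((x.1 : ℂ) ^ 2 / (q : ℂ)) ^ ((N : ℤ) * f x) =
          (g (x.1 : ℂ) ^ s.count (x.1 : ℂ)) *
            (g ((D.iota x).1 : ℂ) ^ s.count ((D.iota x).1 : ℂ)) := by
        intro x
        have hx0 : (x.1 : ℂ) ≠ 0 := ne_zero_of_root q hq P hW _ (hT x).1
        have hu0 : (x.1 : ℂ) ^ 2 / (q : ℂ) ≠ 0 := div_ne_zero (pow_ne_zero _ hx0) hq0
        have hι : ((D.iota x).1 : ℂ) ^ 2 / (q : ℂ) = ((x.1 : ℂ) ^ 2 / (q : ℂ))⁻¹ := by
          have h1 : ((D.iota x).1 : ℂ) = (q : ℂ) / (x.1 : ℂ) := by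
            rw [D.iota_val]
            push_cast
            rfl
          rw [h1]
          field_simp
        simp only [g, f]
        rw [hι, mul_sub, zpow_sub₀ hu0, ← pow_mul, ← pow_mul, inv_pow, div_eq_mul_inv]
        have e3 : ∀ (a : ℂ) (n : ℕ), a ^ ((N : ℤ) * (n : ℤ)) = a ^ (N * n) := by
          intro a n
          rw [← zpow_natCast]
          push_cast
          rfl
        rw [e3, e3]
      rw [Finset.prod_congr rfl fun x _ => hterm x, Finset.prod_mul_distrib, hprodT]
      have h2 : ∏ x : D.T, g ((D.iota x).1 : ℂ) ^ s.count ((D.iota x).1 : ℂ) =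
          ∏ x : D.T, g (x.1 : ℂ) ^ s.count (x.1 : ℂ) := by
        have hinv : Function.Involutive D.iota := D.iota_iota
        exact Fintype.prod_equiv (Function.Involutive.toPerm D.iota hinv) _ _ fun x => rfl
      rw [h2, hprodT, one_mul]
      rfl
  rw [hbot, AddSubgroup.mem_bot] at hf
  by_cases hzP : aeval z P = 0
  · have hnss : ¬ IsSS q z := fun h => hz (hss z hzP h)
    obtain ⟨x, rfl⟩ := hmemI z hzP hnss
    have h1 := congrFun hf x
    simp only [f, Pi.zero_apply] at h1
    have h2 : ((D.iota x).1 : ℂ) = (q : ℂ) / (x.1 : ℂ) := by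
      rw [D.iota_val]
      push_cast
      rfl
    rw [← h2]
    omega
  · have h1 : z ∉ s := fun h => hzP (hs z h)
    have h2 : (q : ℂ) / z ∉ s := by
      intro h
      by_cases hz0 : z = 0
      · rw [hz0, div_zero] at h
        exact h1 (hz0 ▸ h)
      · have h3 := root_div q hq P hW P dvd_rfl _ (hs _ h)
        have h4 : (q : ℂ) / ((q : ℂ) / z) = z := by field_simp
        rw [h4] at h3
        exact hzP h3
    rw [Multiset.count_eq_zero_of_notMem h1, Multiset.count_eq_zero_of_notMem h2]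

end setup

end Pool.Agent.Helper10.WeilCount
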