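import Mathlib
import Pool.Agent.Helper9.TateExt
import Pool.Agent.Helper10.WeilDefs
import Pool.Agent.Helper10.WeilCount
import Pool.Agent.Helper10.Pairing

/-!
# Tate classes are Lefschetz classes, for Weil polynomials with good factors
-/

set_option autoImplicit false
set_option linter.unusedSectionVars false

namespace Pool.Agent.Helper10.WeilFinal

open Polynomial Pool.Agent.Helper9 Pool.Agent.Helper10 ComplexConjugate

theorem tate_le
    (q : ℕ) (hq : 0 < q) (P : ℤ[X]) (hP : P.Monic)
    (hW : ∀ z : ℂ, aeval z P = 0 → ‖z‖ ^ 2 = q)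
    {k : Type*} [Field k] [Algebra k ℝ]
    (hgood : ∀ h : k[X], h.Monic → Irreducible h → h ∣ P.map (algebraMap ℤ k) →
      (∀ z : ℂ, aeval z h = 0 → ¬ IsSS q z) → IsGood q h)
    (hdist : ∀ h h' : k[X], h.Monic → Irreducible h → h ∣ P.map (algebraMap ℤ k) →
      (∀ z : ℂ, aeval z h = 0 → ¬ IsSS q z) → h'.Monic → Irreducible h' →
      h' ∣ P.map (algebraMap ℤ k) →
      (∀ z : ℂ, aeval z h' = 0 → ¬ IsSS q z) → h.natDegree = h'.natDegree →
      IntermediateField.adjoin k (h.rootSet ℂ) = IntermediateField.adjoin k (h'.rootSet ℂ) →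
      h = h')
    (N : ℕ) (hN : 0 < N) (hss : ∀ z : ℂ, aeval z P = 0 → IsSS q z → z ^ (2 * N) = (q : ℂ) ^ N)
    {E V : Type*} [Field E] [CharZero E] [AddCommGroup V] [Module E V] [FiniteDimensional E V]
    (F : V →ₗ[E] V) (hF : Module.End.IsSemisimple F) (hPF : aeval F P = 0) (i : ℕ) :
    tateClasses (q ^ N) (F ^ N) i ≤ Subalgebra.toSubmodule
      (Algebra.adjoin E (tateClasses (q ^ N) (F ^ N) 1 : Set (ExteriorAlgebra E V))) := by
  classical
  let K := AlgebraicClosure E
  have hK0 : CharZero K := charZero_of_injective_algebraMap (algebraMap E K).injective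
  have hk0 : CharZero k := (algebraMap k ℝ).charZero
  -- diagonalisability
  have hsep : (minpoly E F).Separable :=
    PerfectField.separable_iff_squarefree.2 hF.minpoly_squarefree
  have hdiagF := diag_of_separable F K (minpoly E F) hsep (minpoly.aeval E F)
  have hpowbc : ∀ n : ℕ, (F ^ n).baseChange K = (F.baseChange K) ^ n := by
    intro n
    exact map_pow (Module.End.baseChangeHom E K V) F n
  have hdiag : ⨆ μ, Module.End.eigenspace ((F ^ N).baseChange K) μ = ⊤ := by
    rw [hpowbc]
    refine le_antisymm le_top (hdiagF ▸ iSup_le fun μ => ?_)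
    refine le_trans ?_ (le_iSup _ (μ ^ N))
    intro v hv
    rw [Module.End.mem_eigenspace_iff] at hv ⊢
    have : ∀ n : ℕ, ((F.baseChange K) ^ n) v = μ ^ n • v := by
      intro n
      induction n with
      | zero => simp
      | succ n ih => rw [pow_succ, Module.End.mul_apply, hv, map_smul, ih, smul_smul, pow_succ,
          mul_comm]
    exact this N
  -- the common algebraic closure of `ℚ`
  let Ω := AlgebraicClosure ℚ
  have hΩalg : Algebra.IsAlgebraic ℚ Ω := AlgebraicClosure.isAlgebraic ℚ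
  let a : Ω →+* K := (IsAlgClosed.lift (R := ℚ) (S := Ω) (M := K)).toRingHom
  let b : Ω →+* ℂ := (IsAlgClosed.lift (R := ℚ) (S := Ω) (M := ℂ)).toRingHom
  have hPE : aeval F (P.map (algebraMap ℤ E)) = 0 := by
    rw [aeval_map_algebraMap]; exact hPF
  have hrootK : ∀ μ : K, Module.End.HasEigenvalue (F.baseChange K) μ →
      ∃ ω : Ω, a ω = μ ∧ aeval ω P = 0 := by
    intro μ hμ
    have h1 := isRoot_of_hasEigenvalue F K _ hPE hμ
    have hsplit : (P.map (algebraMap ℤ Ω)).Splits := IsAlgClosed.splits _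
    have h2 := hsplit.roots_map a
    have h3 : (P.map (algebraMap ℤ Ω)).map a = (P.map (algebraMap ℤ E)).map (algebraMap E K) := by
      rw [Polynomial.map_map, Polynomial.map_map]
      congr 1
      exact RingHom.ext_int _ _
    rw [h3] at h2
    have h4 : μ ∈ ((P.map (algebraMap ℤ E)).map (algebraMap E K)).roots := by
      rw [mem_roots ((hP.map _).map _).ne_zero]
      exact h1
    rw [h2, Multiset.mem_map] at h4
    obtain ⟨ω, hω, hωμ⟩ := h4
    rw [mem_roots (hP.map _).ne_zero, IsRoot.def, eval_map_algebraMap] at hω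
    exact ⟨ω, hωμ, hω⟩
  have hrootC : ∀ ω : Ω, aeval ω P = 0 → aeval (b ω) P = 0 := by
    intro ω hω
    have := Polynomial.hom_eval₂ P (algebraMap ℤ Ω) b ω
    rw [aeval_def] at hω ⊢
    rw [hω, map_zero] at this
    rw [this]
    congr 1
    exact RingHom.ext_int _ _
  have hPk : P.map (algebraMap ℤ k) ≠ 0 := (hP.map _).ne_zero
  have haev : ∀ z : ℂ, aeval z (P.map (algebraMap ℤ k)) = aeval z P := fun z =>
    aeval_map_algebraMap k z P
  refine tate_le_adjoin_of_pairing (q ^ N) (F ^ N) K hdiag i ?_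
  intro s hscard hseig hsprod
  rw [hpowbc] at hseig
  have hchoose : ∀ x ∈ s, ∃ ω : Ω, (a ω) ^ N = x ∧ aeval ω P = 0 := by
    intro x hx
    have h1 := hseig x hx
    rw [Module.End.hasEigenvalue_iff_mem_spectrum, spectrum.map_pow_of_pos _ hN] at h1
    obtain ⟨μ, hμ, rfl⟩ := h1
    obtain ⟨ω, hω, hω'⟩ := hrootK μ (Module.End.hasEigenvalue_iff_mem_spectrum.2 hμ)
    exact ⟨ω, by rw [hω], hω'⟩
  choose! w hw hwP using hchoose
  let sΩ : Multiset Ω := s.map w
  have hsΩ : ∀ ω ∈ sΩ, aeval ω P = 0 := by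
    intro ω hω
    obtain ⟨x, hx, rfl⟩ := Multiset.mem_map.1 hω
    exact hwP x hx
  have hsK : s = sΩ.map (fun ω => (a ω) ^ N) := by
    rw [Multiset.map_map]
    conv_lhs => rw [← Multiset.map_id s]
    exact Multiset.map_congr rfl fun x hx => (hw x hx).symm
  have hqΩ : (q : Ω) ≠ 0 := by exact_mod_cast hq.ne'
  have hprodΩ : sΩ.prod ^ N = ((q : Ω) ^ N) ^ i := by
    apply a.injective
    rw [map_pow, map_pow, map_pow, map_natCast, map_multiset_prod]
    rw [hsK, Multiset.prod_map_pow] at hsprod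
    rw [hsprod]
    push_cast
    rfl
  have hcardΩ : sΩ.card = 2 * i := by rw [Multiset.card_map, hscard]
  have hcountC := WeilCount.count_eq q hq (P.map (algebraMap ℤ k))
    (fun z hz => hW z (by rw [← haev]; exact hz)) hPk hgood hdist N hN
    (fun z hz => hss z (by rw [← haev]; exact hz)) (sΩ.map b) (fun z hz => by
      obtain ⟨ω, hω, rfl⟩ := Multiset.mem_map.1 hz
      rw [haev]
      exact hrootC ω (hsΩ ω hω)) i (by rw [Multiset.card_map, hcardΩ]) (by
      rw [← map_multiset_prod, ← map_pow, hprodΩ, map_pow, map_pow, map_natCast])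
  have hcountΩ : ∀ ω : Ω, ω ^ (2 * N) ≠ (q : Ω) ^ N → sΩ.count ω = sΩ.count ((q : Ω) / ω) := by
    intro ω hω
    have h1 := hcountC (b ω) (fun h => hω (b.injective (by
      rw [map_pow, map_pow, map_natCast]; exact h)))
    have h2 : (q : ℂ) / b ω = b ((q : Ω) / ω) := by rw [map_div₀, map_natCast]
    rw [h2, Multiset.count_map_eq_count' b _ b.injective,
      Multiset.count_map_eq_count' b _ b.injective] at h1
    exact h1
  obtain ⟨t, ht, hst⟩ := Pairing.pair_all (K := Ω) two_ne_zero (q : Ω) hqΩ N i sΩ hcardΩ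
    (fun ω hω h0 => by
      have h1 := WeilCount.ne_zero_of_root q hq (P.map (algebraMap ℤ k))
        (fun z hz => hW z (by rw [← haev]; exact hz)) (b ω) (by
          rw [haev]; exact hrootC ω (hsΩ ω hω))
      exact h1 (by rw [h0, map_zero])) hcountΩ hprodΩ
  refine ⟨t.map (fun p => (a p.1, a p.2)), ?_, ?_⟩
  · intro p hp
    obtain ⟨p', hp', rfl⟩ := Multiset.mem_map.1 hp
    simp only
    rw [← map_mul, ht p' hp', map_pow, map_natCast]
    push_cast
    rfl
  · have h1 : s = (sΩ.map (fun x => x ^ N)).map a := by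
      rw [Multiset.map_map]
      refine hsK.trans ?_
      exact Multiset.map_congr rfl fun x _ => (map_pow a x N).symm
    rw [h1, hst, Multiset.map_add, Multiset.map_map, Multiset.map_map, Multiset.map_map,
      Multiset.map_map]
    rfl

end Pool.Agent.Helper10.WeilFinal
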